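import Pool.Agent.GV.VAL.DRid

/-!
# GV-VAL-DR: 2-adic bounds for `D(n + l) / D(n)`

`sS a n l = ∑_{r<2l} (v(a-2n-r) + v(a-2n-1-r))`.

Plan.  From `Dd_ratio`: `D(n+l)/D(n) = w * dnum / (4^l P(a-2n, 2l) P(a-2n-1, 2l))`, the valuation
of `P x (2l) = ∏_{t<2l} (x - t)` (positive integers) is the sum of the valuations; `dnum` is
`V (2 v((3l)!))` by `V_P_int`.  For `l = 1`:
* `a` even: one of the two triples (products of 3 consecutive integers) starts with an even
  number (`V_P_three_even`), the other is `V 1` (`V_P_int`, `v(3!) = 1`): total 4.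
* `a` odd and `n % 2 = (if e then 0 else 1)`: both triples start with an even number: total 6.
-/

set_option autoImplicit false

namespace Pool.Agent.GV

/-- the valuation of the denominator without the power of 4 -/
def sS (a n l : ℕ) : ℕ :=
  ∑ r ∈ Finset.range (2 * l),
    (padicValInt 2 ((a : ℤ) - 2 * n - r) + padicValInt 2 ((a : ℤ) - 2 * n - 1 - r))

private lemma dr_prod (x : ℕ → ℤ) (m : ℕ) (h : ∀ t < m, x t ≠ 0) :
    (∏ t ∈ Finset.range m, (x t : ℚ)) ≠ 0 ∧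
    padicValRat 2 (∏ t ∈ Finset.range m, (x t : ℚ)) =
      ((∑ t ∈ Finset.range m, padicValInt 2 (x t) : ℕ) : ℤ) := by
  induction m with
  | zero => simp
  | succ m ih =>
    obtain ⟨h1, h2⟩ := ih fun t ht => h t (by omega)
    have h3 : (x m : ℚ) ≠ 0 := by exact_mod_cast h m (by omega)
    rw [Finset.prod_range_succ, Finset.sum_range_succ]
    refine ⟨mul_ne_zero h1 h3, ?_⟩
    rw [padicValRat.mul h1 h3, h2, padicValRat.of_int]
    push_cast
    ring

private lemma dr_P (a n l : ℕ) (h1 : 1 ≤ n) (h : 3 * (n + l) < a) :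
    (4 ^ l * P ((a : ℚ) - 2 * n) (2 * l) * P ((a : ℚ) - 2 * n - 1) (2 * l)) ≠ 0 ∧
    padicValRat 2 (4 ^ l * P ((a : ℚ) - 2 * n) (2 * l) * P ((a : ℚ) - 2 * n - 1) (2 * l)) =
      2 * (l : ℤ) + sS a n l := by
  have e1 : P ((a : ℚ) - 2 * n) (2 * l) =
      ∏ t ∈ Finset.range (2 * l), (((a : ℤ) - 2 * n - t : ℤ) : ℚ) := by
    unfold P
    refine Finset.prod_congr rfl fun t _ => ?_
    push_cast
    ring
  have e2 : P ((a : ℚ) - 2 * n - 1) (2 * l) =
      ∏ t ∈ Finset.range (2 * l), (((a : ℤ) - 2 * n - 1 - t : ℤ) : ℚ) := by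
    unfold P
    refine Finset.prod_congr rfl fun t _ => ?_
    push_cast
    ring
  obtain ⟨a1, a2⟩ := dr_prod (fun t => (a : ℤ) - 2 * n - t) (2 * l) (fun t ht => by
    show (a : ℤ) - 2 * n - t ≠ 0
    omega)
  obtain ⟨b1, b2⟩ := dr_prod (fun t => (a : ℤ) - 2 * n - 1 - t) (2 * l) (fun t ht => by
    show (a : ℤ) - 2 * n - 1 - t ≠ 0
    omega)
  rw [e1, e2]
  have e4 : (4 : ℚ) ^ l = (2 : ℚ) ^ ((2 * l : ℕ) : ℤ) := by
    rw [zpow_natCast, pow_mul]
    norm_num
  have h4 : (4 : ℚ) ^ l ≠ 0 := by positivity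
  have v4 : padicValRat 2 ((4 : ℚ) ^ l) = 2 * (l : ℤ) := by
    have h5 : padicValRat 2 (2 : ℚ) = 1 := by
      have := padicValRat.self (p := 2) (by norm_num)
      exact_mod_cast this
    rw [e4, padicValRat.zpow, h5]
    push_cast
    ring
  refine ⟨mul_ne_zero (mul_ne_zero h4 a1) b1, ?_⟩
  rw [padicValRat.mul (mul_ne_zero h4 a1) b1, padicValRat.mul h4 a1, v4, a2, b2]
  unfold sS
  rw [Finset.sum_add_distrib]
  push_cast
  ring

private lemma dr_core (e : Bool) (a n l : ℕ) (h1 : 1 ≤ n) (h : 3 * (n + l) < a) {c : ℤ}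
    (hd : V c (dnum e a n l)) :
    V (c - 2 * l - sS a n l) (Dd e (a : ℚ) (n + l) / Dd e (a : ℚ) n) := by
  obtain ⟨w, hw0, hw, hid⟩ := Dd_ratio e a n l h1 h
  obtain ⟨hX, hXv⟩ := dr_P a n l h1 h
  set X := (4 ^ l * P ((a : ℚ) - 2 * n) (2 * l) * P ((a : ℚ) - 2 * n - 1) (2 * l)) with hXdef
  by_cases h0 : Dd e (a : ℚ) n = 0
  · rw [h0, div_zero]
    exact V_zero _
  have e1 : Dd e (a : ℚ) (n + l) / Dd e (a : ℚ) n = (w * dnum e a n l) / X := by
    rw [div_eq_div_iff h0 hX, hid]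
    ring
  rw [e1]
  have hwV : V 0 w := V_of_le (by rw [hw])
  have h2 : V (0 + c) (w * dnum e a n l) := hwV.mul hd
  exact (h2.div hXv.le).mono (by omega)

private lemma dr_dnum (e : Bool) (a n l : ℕ) : V (2 * (padicValNat 2 (3 * l).factorial : ℤ)) (dnum e a n l) := by
  cases e
  · have h1 := V_P_int ((a : ℤ) - 3 * n) (3 * l)
    have h2 := V_P_int (2 * (a : ℤ) - 3 * n - 1) (3 * l)
    have e1 : (((a : ℤ) - 3 * n : ℤ) : ℚ) = (a : ℚ) - 3 * n := by push_cast; ring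
    have e2 : ((2 * (a : ℤ) - 3 * n - 1 : ℤ) : ℚ) = 2 * (a : ℚ) - 3 * n - 1 := by push_cast; ring
    rw [e1] at h1
    rw [e2] at h2
    exact (h1.mul h2).mono (by omega)
  · have h1 := V_P_int ((a : ℤ) - 3 * n - 1) (3 * l)
    have h2 := V_P_int (2 * (a : ℤ) - 3 * n) (3 * l)
    have e1 : (((a : ℤ) - 3 * n - 1 : ℤ) : ℚ) = (a : ℚ) - 3 * n - 1 := by push_cast; ring
    have e2 : ((2 * (a : ℤ) - 3 * n : ℤ) : ℚ) = 2 * (a : ℚ) - 3 * n := by push_cast; ring
    rw [e1] at h1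
    rw [e2] at h2
    exact (h1.mul h2).mono (by omega)

theorem V_Dd_ratio (e : Bool) (a n l : ℕ) (h1 : 1 ≤ n) (h : 3 * (n + l) < a) :
    V (2 * (padicValNat 2 (3 * l).factorial : ℤ) - 2 * l - sS a n l)
      (Dd e (a : ℚ) (n + l) / Dd e (a : ℚ) n) :=
  dr_core e a n l h1 h (dr_dnum e a n l)

private lemma dr_f3 : padicValNat 2 (3 * 1).factorial = 1 := by
  have h : (3 * 1).factorial = 2 * 3 := by decide
  rw [h, padicValNat.mul (by norm_num) (by norm_num), padicValNat_self,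
    padicValNat.eq_zero_of_not_dvd (by norm_num : ¬ 2 ∣ 3)]

private lemma dr_V1 (z : ℤ) : V 1 (P (z : ℚ) (3 * 1)) := by
  have h1 := V_P_int z (3 * 1)
  rw [dr_f3] at h1
  exact_mod_cast h1

theorem V_Dd_ratio_even (e : Bool) (a n : ℕ) (h1 : 1 ≤ n) (h : 3 * (n + 1) < a)
    (ha : a % 2 = 0) :
    V (4 - 2 - (sS a n 1 : ℤ)) (Dd e (a : ℚ) (n + 1) / Dd e (a : ℚ) n) := by
  have hd : V 4 (dnum e a n 1) := by
    rcases Nat.even_or_odd n with hn | hn
    · have hn' : n % 2 = 0 := Nat.even_iff.1 hn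
      cases e
      · have g1 := V_P_three_even ((a : ℤ) - 3 * n) (by omega)
        have g2 := dr_V1 (2 * (a : ℤ) - 3 * n - 1)
        push_cast at g1 g2
        exact (g1.mul g2).mono (by norm_num)
      · have g1 := dr_V1 ((a : ℤ) - 3 * n - 1)
        have g2 := V_P_three_even (2 * (a : ℤ) - 3 * n) (by omega)
        push_cast at g1 g2
        exact (g1.mul g2).mono (by norm_num)
    · have hn' : n % 2 = 1 := Nat.odd_iff.1 hn
      cases e
      · have g1 := dr_V1 ((a : ℤ) - 3 * n)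
        have g2 := V_P_three_even (2 * (a : ℤ) - 3 * n - 1) (by omega)
        push_cast at g1 g2
        exact (g1.mul g2).mono (by norm_num)
      · have g1 := V_P_three_even ((a : ℤ) - 3 * n - 1) (by omega)
        have g2 := dr_V1 (2 * (a : ℤ) - 3 * n)
        push_cast at g1 g2
        exact (g1.mul g2).mono (by norm_num)
  exact (dr_core e a n 1 h1 h hd).mono (by push_cast; omega)

theorem V_Dd_ratio_odd (e : Bool) (a n : ℕ) (h1 : 1 ≤ n) (h : 3 * (n + 1) < a)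
    (ha : a % 2 = 1) (hn : n % 2 = bif e then 0 else 1) :
    V (6 - 2 - (sS a n 1 : ℤ)) (Dd e (a : ℚ) (n + 1) / Dd e (a : ℚ) n) := by
  have hd : V 6 (dnum e a n 1) := by
    cases e
    · simp only [cond_false] at hn
      have g1 := V_P_three_even ((a : ℤ) - 3 * n) (by omega)
      have g2 := V_P_three_even (2 * (a : ℤ) - 3 * n - 1) (by omega)
      push_cast at g1 g2
      exact (g1.mul g2).mono (by norm_num)
    · simp only [cond_true] at hn
      have g1 := V_P_three_even ((a : ℤ) - 3 * n - 1) (by omega)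
      have g2 := V_P_three_even (2 * (a : ℤ) - 3 * n) (by omega)
      push_cast at g1 g2
      exact (g1.mul g2).mono (by norm_num)
  exact (dr_core e a n 1 h1 h hd).mono (by push_cast; omega)

end Pool.Agent.GV
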