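import Pool.Agent.GV.VAL.Prod

/-!
# GV-VAL-EntL: 2-adic bounds for the entries of `L` and `L⁻¹`

`V (-μ) (L(n+r, n))` if all `v_2(a - 2n - s) ≤ μ`, `1 ≤ s ≤ r`; similarly for `L⁻¹`.

Plan (imports sorried).  `r = 0`: the value is `1` (`V_one`, `V.mono`).  `r ≥ 1`:
* `Lf false`: `P (a-n-1+r) (2r) * P (a-3n) r / (P (a-2n-1) r * cc n r)`: numerator
  `V (v((2r)!))`, `V (v(r!))` (`V_P_int`, the arguments are casts of integers), denominator
  `v(P (a-2n-1) r) ≤ v((r-1)!) + μ` (`val_P_le` with `x = a - 2n - 1 : ℕ`, factor `t` is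
  `a - 2n - (t+1)`), `v(cc n r) = r + v(r!) = v((2r)!)` (`val_cc`, `val_fact_two`),
  and `v((r-1)!) ≤ v(r!)`.  Use `V.div` / `V_inv`.
* `Lf true`, `r = s + 1`: `P (a-n+s) (2s+2) * (a-3n-3s-3) * P (a-3n-1) s / (...)`: now
  `v(s!) = v((r-1)!)` exactly cancels.
* `Ltf`: the denominators are `P (a-2n-r) r`, factors `a - 2n - r - t = a - 2(n+r) + (r-t)`.
-/

set_option autoImplicit false

namespace Pool.Agent.GV

private theorem entL_den (n x r μ : ℕ) (hr : 1 ≤ r) (hx : r ≤ x)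
    (h : ∀ t : ℕ, t < r → padicValInt 2 ((x : ℤ) - t) ≤ μ) :
    padicValRat 2 (P (x : ℚ) r * cc n r) ≤
      ((padicValNat 2 (r - 1).factorial + μ + (r + padicValNat 2 r.factorial) : ℕ) : ℤ) := by
  have hx' : (r : ℚ) ≤ x := by exact_mod_cast hx
  rw [padicValRat.mul (P_ne_zero (by linarith)) (cc_ne_zero n r), val_cc]
  have := val_P_le x r μ hr hx h
  push_cast at *
  linarith

private theorem entL_fac (r : ℕ) :
    padicValNat 2 (r - 1).factorial ≤ padicValNat 2 r.factorial := by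
  rw [← padicValNat_dvd_iff_le (Nat.factorial_ne_zero r)]
  exact pow_padicValNat_dvd.trans (Nat.factorial_dvd_factorial (Nat.sub_le r 1))

private theorem entL_P {z : ℤ} {x : ℚ} (h : (z : ℚ) = x) (r : ℕ) :
    V (padicValNat 2 r.factorial) (P x r) := by
  rw [← h]
  exact V_P_int z r

private theorem entL_neg {c : ℤ} {x : ℚ} (m : ℕ) (h : V c x) : V c ((-1) ^ m * x) := by
  rcases Nat.even_or_odd m with hm | hm
  · rw [hm.neg_one_pow, one_mul]
    exact h
  · rw [hm.neg_one_pow, neg_one_mul]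
    exact h.neg

theorem V_Lf (e : Bool) (a n r μ : ℕ) (h : 2 * n + r < a)
    (hμ : ∀ s : ℕ, 1 ≤ s → s ≤ r → padicValInt 2 ((a : ℤ) - 2 * n - s) ≤ μ) :
    V (-(μ : ℤ)) (Lf e (a : ℚ) n r) := by
  rcases Nat.eq_zero_or_pos r with rfl | hr
  · rw [Lf_zero]
    exact V_one.mono (by omega)
  have hx : ((a - 2 * n - 1 : ℕ) : ℚ) = (a : ℚ) - 2 * n - 1 := by
    rw [Nat.cast_sub (by omega), Nat.cast_sub (by omega)]
    push_cast
    ring
  have hden := entL_den n (a - 2 * n - 1) r μ hr (by omega) (by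
    intro t ht
    have h1 := hμ (t + 1) (by omega) (by omega)
    have h2 : (((a - 2 * n - 1 : ℕ) : ℤ) - t) = (a : ℤ) - 2 * n - ((t + 1 : ℕ) : ℤ) := by
      omega
    rw [h2]
    exact h1)
  rw [hx] at hden
  have hfac := entL_fac r
  have h2r := val_fact_two r
  cases e with
  | false =>
    change V _ (P ((a : ℚ) - n - 1 + r) (2 * r) * P ((a : ℚ) - 3 * n) r /
      (P ((a : ℚ) - 2 * n - 1) r * cc n r))
    have n1 := entL_P (z := (a : ℤ) - n - 1 + r) (x := (a : ℚ) - n - 1 + r) (by push_cast; ring) (2 * r)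
    have n2 := entL_P (z := (a : ℤ) - 3 * n) (x := (a : ℚ) - 3 * n) (by push_cast; ring) r
    refine ((n1.mul n2).div hden).mono ?_
    omega
  | true =>
    obtain ⟨s, rfl⟩ : ∃ s, r = s + 1 := ⟨r - 1, by omega⟩
    change V _ (P ((a : ℚ) - n + s) (2 * s + 2) * ((a : ℚ) - 3 * n - 3 * s - 3) *
      P ((a : ℚ) - 3 * n - 1) s / (P ((a : ℚ) - 2 * n - 1) (s + 1) * cc n (s + 1)))
    have n1 := entL_P (z := (a : ℤ) - n + s) (x := (a : ℚ) - n + s) (by push_cast; ring) (2 * s + 2)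
    have n2 := entL_P (z := (a : ℤ) - 3 * n - 1) (x := (a : ℚ) - 3 * n - 1) (by push_cast; ring) s
    have n3 := V_int ((a : ℤ) - 3 * n - 3 * s - 3)
    push_cast at n3
    rw [show 2 * (s + 1) = 2 * s + 2 by ring] at h2r
    rw [show s + 1 - 1 = s by omega] at hden
    refine (((n1.mul n3).mul n2).div hden).mono ?_
    omega

theorem V_Ltf (e : Bool) (a n r μ : ℕ) (h : 2 * (n + r) < a)
    (hμ : ∀ s : ℕ, 1 ≤ s → s ≤ r → padicValInt 2 ((a : ℤ) - 2 * (n + r) + s) ≤ μ) :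
    V (-(μ : ℤ)) (Ltf e (a : ℚ) n r) := by
  rcases Nat.eq_zero_or_pos r with rfl | hr
  · rw [Ltf_zero]
    exact V_one.mono (by omega)
  have hx : ((a - 2 * n - r : ℕ) : ℚ) = (a : ℚ) - 2 * n - r := by
    rw [Nat.cast_sub (by omega), Nat.cast_sub (by omega)]
    push_cast
    ring
  have hden := entL_den n (a - 2 * n - r) r μ hr (by omega) (by
    intro t ht
    have h1 := hμ (r - t) (by omega) (by omega)
    have h2 : (((a - 2 * n - r : ℕ) : ℤ) - t) =
        (a : ℤ) - 2 * (n + r) + ((r - t : ℕ) : ℤ) := by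
      omega
    rw [h2]
    exact h1)
  rw [hx] at hden
  have hfac := entL_fac r
  have h2r := val_fact_two r
  cases e with
  | false =>
    obtain ⟨s, rfl⟩ : ∃ s, r = s + 1 := ⟨r - 1, by omega⟩
    change V _ ((-1) ^ (s + 1) * P ((a : ℚ) - n) (2 * s + 2) * ((a : ℚ) - 3 * n) *
      P ((a : ℚ) - 3 * n - 2 * s - 3) s /
      (P ((a : ℚ) - 2 * n - s - 1) (s + 1) * cc n (s + 1)))
    have n1 := entL_P (z := (a : ℤ) - n) (x := (a : ℚ) - n) (by push_cast; ring) (2 * s + 2)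
    have n2 := entL_P (z := (a : ℤ) - 3 * n - 2 * s - 3) (x := (a : ℚ) - 3 * n - 2 * s - 3) (by push_cast; ring) s
    have n3 := V_int ((a : ℤ) - 3 * n)
    push_cast at n3
    rw [show 2 * (s + 1) = 2 * s + 2 by ring] at h2r
    rw [show s + 1 - 1 = s by omega] at hden
    have e1 : (a : ℚ) - 2 * n - s - 1 = (a : ℚ) - 2 * n - ((s + 1 : ℕ) : ℚ) := by
      push_cast
      ring
    have n4 := ((entL_neg (s + 1) n1).mul n3).mul n2
    rw [e1]
    refine (n4.div hden).mono ?_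
    omega
  | true =>
    change V _ ((-1) ^ r * P ((a : ℚ) - n) (2 * r) * P ((a : ℚ) - 3 * n - 2 * r - 1) r /
      (P ((a : ℚ) - 2 * n - r) r * cc n r))
    have n1 := entL_P (z := (a : ℤ) - n) (x := (a : ℚ) - n) (by push_cast; ring) (2 * r)
    have n2 := entL_P (z := (a : ℤ) - 3 * n - 2 * r - 1) (x := (a : ℚ) - 3 * n - 2 * r - 1) (by push_cast; ring) r
    have n4 := (entL_neg r n1).mul n2
    refine (n4.div hden).mono ?_
    omega

end Pool.Agent.GV
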