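import Pool.Agent.GV.VAL.Prod

/-!
# GV-VAL-EntU: 2-adic bounds for the entries of `U` and `U⁻¹`

`V (-μ) (U(n, n+r))` if all `v_2(a - 2n - s) ≤ μ`, `1 ≤ s ≤ r`; similarly for `U⁻¹`.

Plan (imports sorried).  `r = 0`: the value is `1`.  `r ≥ 1`:
* `Uf false`, `r = s+1`: `(-1)^r df r * choose * (2a-3n-3s-3) * P (2a-3n-1) s /
  (P (a-2n-1) (s+1) * O (2a-2n-1) (s+1))`: `df`, `O` are units (`val_df`, `val_O_odd` with
  `z = a - n - 1`), `choose` and the linear factor are integers, `P (2a-3n-1) s` is `V (v(s!))`,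
  `v(P (a-2n-1) r) ≤ v((r-1)!) + μ` (`val_P_le`).
* `Uf true`: `P (2a-3n) r` is `V (v(r!))`.
* `Utf`: denominators `P (a-2n-r) r`, factors `a - 2(n+r) + s`, `1 ≤ s ≤ r`.
-/

set_option autoImplicit false

namespace Pool.Agent.GV

private lemma eu_key {N : ℚ} {r x μ : ℕ} {z : ℤ} (hr : 1 ≤ r) (hx : r ≤ x)
    (h : ∀ t : ℕ, t < r → padicValInt 2 ((x : ℤ) - t) ≤ μ)
    (hN : V (padicValNat 2 (r - 1).factorial) N) :
    V (-(μ : ℤ)) (N / (P (x : ℚ) r * O (2 * (z : ℚ) + 1) r)) := by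
  have h1 := val_P_le x r μ hr hx h
  have h2 := val_O_odd z r
  have hP : P (x : ℚ) r ≠ 0 := by
    apply P_ne_zero
    have : (r : ℚ) ≤ x := by exact_mod_cast hx
    linarith
  have h3 : padicValRat 2 (P (x : ℚ) r * O (2 * (z : ℚ) + 1) r) ≤
      ((padicValNat 2 (r - 1).factorial + μ : ℕ) : ℤ) := by
    rw [padicValRat.mul hP (O_odd_ne_zero z r), h2, add_zero]; exact h1
  exact (hN.div h3).mono (by push_cast; omega)

private lemma eu_neg_one (r : ℕ) : V 0 ((-1 : ℚ) ^ r) := by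
  have h := V_int ((-1) ^ r)
  push_cast at h
  exact h

private lemma eu_df (r : ℕ) : V 0 (df r) := V_of_le (by rw [val_df])

private lemma eu_fact_mono (r : ℕ) :
    ((padicValNat 2 (r - 1).factorial : ℕ) : ℤ) ≤ padicValNat 2 r.factorial := by
  rcases r with _ | r
  · simp
  · have h : (r + 1).factorial = (r + 1) * r.factorial := Nat.factorial_succ r
    rw [h, padicValNat.mul (by omega) (Nat.factorial_ne_zero r)]
    simp

theorem V_Uf (e : Bool) (a n r μ : ℕ) (h : 2 * n + r < a)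
    (hμ : ∀ s : ℕ, 1 ≤ s → s ≤ r → padicValInt 2 ((a : ℤ) - 2 * n - s) ≤ μ) :
    V (-(μ : ℤ)) (Uf e (a : ℚ) n r) := by
  have hx : ((a - 2 * n - 1 : ℕ) : ℚ) = (a : ℚ) - 2 * n - 1 := by
    rw [show a - 2 * n - 1 = a - (2 * n + 1) by omega, Nat.cast_sub (by omega)]
    push_cast; ring
  have hxz : ((a - 2 * n - 1 : ℕ) : ℤ) = (a : ℤ) - 2 * n - 1 := by omega
  have hz : (2 * (((a : ℤ) - n - 1 : ℤ) : ℚ) + 1) = 2 * (a : ℚ) - 2 * n - 1 := by
    push_cast; ring
  have hμ' : ∀ t : ℕ, t < r → padicValInt 2 (((a - 2 * n - 1 : ℕ) : ℤ) - t) ≤ μ := by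
    intro t ht
    have h1 := hμ (t + 1) (by omega) (by omega)
    rw [hxz]
    rw [show (a : ℤ) - 2 * n - 1 - t = (a : ℤ) - 2 * n - (t + 1 : ℕ) by push_cast; ring]
    exact h1
  rcases Nat.eq_zero_or_pos r with hr | hr
  · subst hr
    have h1 : Uf e (a : ℚ) n 0 = 1 := by
      cases e
      · simp [Uf, Uf0]
      · simp [Uf, Uf1]
    rw [h1]
    exact V_one.mono (by omega)
  cases e
  · obtain ⟨s, rfl⟩ : ∃ s, r = s + 1 := ⟨r - 1, by omega⟩
    simp only [Uf, cond_false, Uf0]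
    rw [← hx, ← hz]
    apply eu_key (by omega) (by omega) hμ'
    have hP : V (padicValNat 2 s.factorial) (P (2 * (a : ℚ) - 3 * n - 1) s) := by
      have h := V_P_int (2 * (a : ℤ) - 3 * n - 1) s
      push_cast at h
      rw [padicValRat.of_nat] at h
      exact h
    have hl : V 0 (2 * (a : ℚ) - 3 * n - 3 * s - 3) := by
      have h := V_int (2 * (a : ℤ) - 3 * n - 3 * s - 3)
      push_cast at h
      exact h
    have h := ((((eu_neg_one (s + 1)).mul (eu_df (s + 1))).mul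
      (V_nat ((n + s + 1).choose (2 * s + 2)))).mul hl).mul hP
    simpa using h
  · simp only [Uf, cond_true, Uf1]
    rw [← hx, ← hz]
    apply eu_key (by omega) (by omega) hμ'
    have hP : V (padicValNat 2 r.factorial) (P (2 * (a : ℚ) - 3 * n) r) := by
      have h := V_P_int (2 * (a : ℤ) - 3 * n) r
      push_cast at h
      rw [padicValRat.of_nat] at h
      exact h
    have h := (((eu_neg_one r).mul (eu_df r)).mul
      (V_nat ((n + r).choose (2 * r)))).mul hP
    refine h.mono ?_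
    have := eu_fact_mono r
    simpa using this

theorem V_Utf (e : Bool) (a n r μ : ℕ) (h : 2 * (n + r) < a)
    (hμ : ∀ s : ℕ, 1 ≤ s → s ≤ r → padicValInt 2 ((a : ℤ) - 2 * (n + r) + s) ≤ μ) :
    V (-(μ : ℤ)) (Utf e (a : ℚ) n r) := by
  have hx : ((a - 2 * n - r : ℕ) : ℚ) = (a : ℚ) - 2 * n - r := by
    rw [show a - 2 * n - r = a - (2 * n + r) by omega, Nat.cast_sub (by omega)]
    push_cast; ring
  have hxz : ((a - 2 * n - r : ℕ) : ℤ) = (a : ℤ) - 2 * n - r := by omega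
  have hz : (2 * (((a : ℤ) - n - 1 : ℤ) : ℚ) + 1) = 2 * (a : ℚ) - 2 * n - 1 := by
    push_cast; ring
  have hμ' : ∀ t : ℕ, t < r → padicValInt 2 (((a - 2 * n - r : ℕ) : ℤ) - t) ≤ μ := by
    intro t ht
    have h1 := hμ (r - t) (by omega) (by omega)
    rw [hxz]
    rw [show (a : ℤ) - 2 * n - r - t = (a : ℤ) - 2 * (n + r) + ((r - t : ℕ) : ℤ) by omega]
    exact h1
  rcases Nat.eq_zero_or_pos r with hr | hr
  · subst hr
    have h1 : Utf e (a : ℚ) n 0 = 1 := by
      cases e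
      · simp [Utf, Utf0]
      · simp [Utf, Utf1]
    rw [h1]
    exact V_one.mono (by omega)
  cases e
  · simp only [Utf, cond_false, Utf0]
    rw [← hx, ← hz]
    apply eu_key (by omega) (by omega) hμ'
    have hP : V (padicValNat 2 r.factorial) (P (2 * (a : ℚ) - 3 * n - 2 * r - 1) r) := by
      have h := V_P_int (2 * (a : ℤ) - 3 * n - 2 * r - 1) r
      push_cast at h
      rw [padicValRat.of_nat] at h
      exact h
    have h := ((eu_df r).mul
      (V_nat ((n + 2 * r - 1).choose (2 * r)))).mul hP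
    refine h.mono ?_
    have := eu_fact_mono r
    simpa using this
  · obtain ⟨s, rfl⟩ : ∃ s, r = s + 1 := ⟨r - 1, by omega⟩
    simp only [Utf, cond_true, Utf1]
    have hx' : (a : ℚ) - 2 * n - s - 1 = ((a - 2 * n - (s + 1) : ℕ) : ℚ) := by
      rw [hx]; push_cast; ring
    rw [hx', ← hz]
    apply eu_key (by omega) (by omega) hμ'
    have hP : V (padicValNat 2 s.factorial) (P (2 * (a : ℚ) - 3 * n - 2 * s - 3) s) := by
      have h := V_P_int (2 * (a : ℤ) - 3 * n - 2 * s - 3) s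
      push_cast at h
      rw [padicValRat.of_nat] at h
      exact h
    have hl : V 0 (2 * (a : ℚ) - 3 * n) := by
      have h := V_int (2 * (a : ℤ) - 3 * n)
      push_cast at h
      exact h
    have h := (((eu_df (s + 1)).mul
      (V_nat ((n + 2 * s + 1).choose (2 * s + 2)))).mul hl).mul hP
    simpa using h

end Pool.Agent.GV
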