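import Pool.Agent.GV.VAL.V

/-!
# GV-VAL-Consec: valuations of products of consecutive integers / arithmetic progressions, upper bound

Self-contained elementary number theory.

* `consec_bound`: if `x 0, ..., x (m-1)` are nonzero integers with `x r - x s = u * (r - s)`, `u` odd,
  and all `v_2(x r) ≤ B`, then `∑_{r<m} v_2(x r) ≤ v_2((m-1)!) + B`.

Plan.  Choose `r0 < m` with `v(x r0)` maximal (`Finset.exists_max_image`).  For `r ≠ r0`,
`v(x r) = min (v (x r), v(x r0)) ≤ v(x r - x r0) = v(u (r - r0)) = v(|r - r0|)`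
(`padicValRat.min_le_padicValRat_add` or: `2^v(x r)` divides both, so it divides the difference,
use `padicValInt_dvd_iff` / `Int` divisibility; `u` odd).  Hence
`∑_{r ≠ r0} v(x r) ≤ ∑_{r<r0} v(r0 - r) + ∑_{r0<r<m} v(r - r0) = v(r0!) + v((m-1-r0)!)
≤ v((m-1)!)` (`(r0)! (m-1-r0)! ∣ (m-1)!`: `Nat.factorial_mul_factorial_dvd_factorial`;
`v(n!) = ∑_{1≤t≤n} v(t)` by induction).  Split `range m` as `{r0} ∪ rest`.
-/

set_option autoImplicit false

namespace Pool.Agent.GV

private lemma sum_val_fact (n : ℕ) :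
    ∑ t ∈ Finset.range n, padicValNat 2 (t + 1) = padicValNat 2 n.factorial := by
  induction n with
  | zero => simp
  | succ n ih =>
    rw [Finset.sum_range_succ, ih, Nat.factorial_succ,
      padicValNat.mul (Nat.succ_ne_zero n) (Nat.factorial_ne_zero n), add_comm]

private lemma val_step (a b : ℤ) (u : ℤ) (hu : ¬ (2 : ℤ) ∣ u) (k : ℕ) (hk : 0 < k)
    (hab : a - b = u * k ∨ b - a = u * k)
    (hle : padicValInt 2 a ≤ padicValInt 2 b) :
    padicValInt 2 a ≤ padicValNat 2 k := by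
  have h1 : (2 : ℤ) ^ padicValInt 2 a ∣ a := by
    exact_mod_cast (padicValInt_dvd (p := 2) a)
  have h2 : (2 : ℤ) ^ padicValInt 2 a ∣ b :=
    (pow_dvd_pow 2 hle).trans (by exact_mod_cast (padicValInt_dvd (p := 2) b))
  have h3 : (2 : ℤ) ^ padicValInt 2 a ∣ u * k := by
    rcases hab with h | h
    · rw [← h]; exact dvd_sub h1 h2
    · rw [← h]; exact dvd_sub h2 h1
  have h4 : IsCoprime ((2 : ℤ) ^ padicValInt 2 a) u :=
    IsCoprime.pow_left ((Int.prime_two.coprime_iff_not_dvd).2 hu)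
  have h5 : (2 : ℤ) ^ padicValInt 2 a ∣ k := h4.dvd_of_dvd_mul_left h3
  have h6 : 2 ^ padicValInt 2 a ∣ k := by exact_mod_cast h5
  exact (padicValNat_dvd_iff_le hk.ne').1 h6

theorem consec_bound (m : ℕ) (x : ℕ → ℤ) (u : ℤ) (B : ℕ) (hu : ¬ (2 : ℤ) ∣ u) (hm : 1 ≤ m)
    (hx0 : ∀ r < m, x r ≠ 0)
    (hx : ∀ r < m, ∀ s < m, x r - x s = u * ((r : ℤ) - s))
    (hB : ∀ r < m, padicValInt 2 (x r) ≤ B) :
    ∑ r ∈ Finset.range m, padicValInt 2 (x r) ≤ padicValNat 2 (m - 1).factorial + B := by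
  obtain ⟨r0, hr0, hmax⟩ := Finset.exists_max_image (Finset.range m)
    (fun r => padicValInt 2 (x r)) ⟨0, Finset.mem_range.2 hm⟩
  have hr0' : r0 < m := Finset.mem_range.1 hr0
  obtain ⟨k, rfl⟩ : ∃ k, m = r0 + 1 + k := ⟨m - (r0 + 1), by omega⟩
  rw [Finset.sum_range_add, Finset.sum_range_succ]
  have h1 : ∑ r ∈ Finset.range r0, padicValInt 2 (x r) ≤ padicValNat 2 r0.factorial := by
    rw [← sum_val_fact, ← Finset.sum_range_reflect]
    apply Finset.sum_le_sum
    intro r hr
    have hr' : r < r0 := Finset.mem_range.1 hr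
    apply val_step (x (r0 - 1 - r)) (x r0) u hu _ (Nat.succ_pos _) _
      (hmax _ (Finset.mem_range.2 (by omega)))
    right
    rw [hx r0 (by omega) _ (by omega)]
    congr 1
    omega
  have h2 : ∑ r ∈ Finset.range k, padicValInt 2 (x (r0 + 1 + r)) ≤ padicValNat 2 k.factorial := by
    rw [← sum_val_fact]
    apply Finset.sum_le_sum
    intro r hr
    have hr' : r < k := Finset.mem_range.1 hr
    apply val_step (x (r0 + 1 + r)) (x r0) u hu _ (Nat.succ_pos _) _
      (hmax _ (Finset.mem_range.2 (by omega)))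
    left
    rw [hx (r0 + 1 + r) (by omega) r0 (by omega)]
    congr 1
    push_cast
    ring
  have h3 := hB r0 hr0'
  have h4 : padicValNat 2 r0.factorial + padicValNat 2 k.factorial ≤
      padicValNat 2 (r0 + 1 + k - 1).factorial := by
    rw [← padicValNat.mul (Nat.factorial_ne_zero _) (Nat.factorial_ne_zero _),
      show r0 + 1 + k - 1 = r0 + k by omega]
    exact (padicValNat_dvd_iff_le (Nat.factorial_ne_zero _)).1
      (pow_padicValNat_dvd.trans (Nat.factorial_mul_factorial_dvd_factorial_add r0 k))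
  omega

end Pool.Agent.GV
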