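import Pool.Agent.GV.VAL.Idx
import Pool.Agent.GV.VAL.Consec

/-!
# GV-VAL-NumC2: a numerical inequality

Checked for `z ≤ 20000`, `s ≤ 40` (minimum of right side minus left side: 0, at `z = 0`).

Plan.  As NumC1.  All numbers `3 r - c` are nonzero.  `ph c (-r) = v(3 r + c)`.
`S2 c z ≤ 2 v((2z-1)!) + 2 B`, `B = Nat.log 2 (6 z + 2)` by `consec_bound` (`z ≥ 1`,
`x r = -3r - c` resp. `-3(r+1) - c`, `u = -3`);
`v((3z)!) ≥ v((2z-1)!) + v((z+1)!)`, `v((z+1)!) ≥ z - Nat.log 2 (z+1)`;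
`2 ph c (-2z-s) ≤ 2 Nat.log 2 (6z+3s+2) ≤ 4 s + 2 Nat.log 2 (6 z + 5)`.  So enough
`2 log(6z+5) + 2 log(6z+2) ≤ 2 (z - log(z+1)) + 2 z`, true for `z ≥ 8`.  For `z ≤ 7`:
`ph c (-2z-s) ≤ 2 s` for `s ≥ 4`, so `s ≤ 3` and `s = 0`: finite check.
-/

set_option autoImplicit false

namespace Pool.Agent.GV

private lemma c2_ph (c : ℤ) (hc : c = 1 ∨ c = 2) (r : ℕ) :
    ph c (-(r : ℤ)) ≤ Nat.log 2 (3 * r + 2) := by
  unfold ph padicValInt
  have h1 : (3 * -(r : ℤ) - c).natAbs ≤ 3 * r + 2 := by omega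
  have h2 : (3 * -(r : ℤ) - c).natAbs ≠ 0 := by omega
  refine (padicValNat_le_nat_log _).trans (Nat.log_mono_right h1)

private lemma c2_fact (n : ℕ) (hn : 1 ≤ n) :
    n ≤ padicValNat 2 n.factorial + Nat.log 2 n + 1 := by
  have h1 := sub_one_mul_padicValNat_factorial (p := 2) n
  have h2 : (Nat.digits 2 n).sum ≤ (Nat.digits 2 n).length := by
    have h3 : ∀ d ∈ Nat.digits 2 n, d ≤ 1 := fun d hd => by
      have := Nat.digits_lt_base (b := 2) (by norm_num) hd
      omega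
    have := List.sum_le_card_nsmul (Nat.digits 2 n) 1 h3
    simpa using this
  rw [Nat.length_digits 2 n (by norm_num) (by omega)] at h2
  omega

private lemma c2_log (z : ℕ) (hz : 4 ≤ z) :
    Nat.log 2 (6 * z + 5) + Nat.log 2 (6 * z + 2) + Nat.log 2 (z + 1) ≤ 2 * z + 2 := by
  by_cases hz4 : z = 4
  · subst hz4
    decide +revert
  set L := Nat.log 2 (z + 1) with hL
  have h1 : z + 1 < 2 ^ (L + 1) := Nat.lt_pow_succ_log_self (by norm_num) _
  have h2 : 2 ^ L ≤ z + 1 := Nat.pow_log_le_self 2 (by omega)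
  have h3 : Nat.log 2 (6 * z + 5) < L + 4 := by
    apply Nat.log_lt_of_lt_pow (by omega)
    have : 2 ^ (L + 4) = 8 * 2 ^ (L + 1) := by ring
    omega
  have h4 : Nat.log 2 (6 * z + 2) < L + 4 := by
    apply Nat.log_lt_of_lt_pow (by omega)
    have : 2 ^ (L + 4) = 8 * 2 ^ (L + 1) := by ring
    omega
  have h5 : ∀ L : ℕ, 3 ≤ L → 3 * L + 6 ≤ 2 * 2 ^ L := by
    intro L hL
    induction L, hL using Nat.le_induction with
    | base => norm_num
    | succ L hL ih => rw [pow_succ]; omega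
  rcases Nat.lt_or_ge L 3 with h | h
  · omega
  · have := h5 L h
    omega

private lemma c2_S (c : ℤ) (hc : c = 1 ∨ c = 2) (z : ℕ) (hz : 1 ≤ z) :
    S2 c z ≤ 2 * padicValNat 2 (2 * z - 1).factorial + 2 * Nat.log 2 (6 * z + 2) := by
  have hu : ¬ (2 : ℤ) ∣ -3 := by decide
  have h1 := consec_bound (2 * z) (fun r => 3 * -(r : ℤ) - c) (-3) (Nat.log 2 (6 * z + 2)) hu
    (by omega) (fun r _ => by omega) (fun r _ s _ => by ring)
    (fun r hr => (c2_ph c hc r).trans (Nat.log_mono_right (by omega)))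
  have h2 := consec_bound (2 * z) (fun r => 3 * (-(r : ℤ) - 1) - c) (-3) (Nat.log 2 (6 * z + 2)) hu
    (by omega) (fun r _ => by omega) (fun r _ s _ => by ring)
    (fun r hr => by
      have h3 := c2_ph c hc (r + 1)
      unfold ph at h3
      rw [show 3 * -((r + 1 : ℕ) : ℤ) - c = 3 * (-(r : ℤ) - 1) - c by push_cast; ring] at h3
      exact h3.trans (Nat.log_mono_right (by omega)))
  unfold S2 ph
  rw [Finset.sum_add_distrib]
  omega

private lemma c2_s (z s : ℕ) (hs : 1 ≤ s) :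
    Nat.log 2 (3 * (2 * z + s) + 2) ≤ Nat.log 2 (6 * z + 5) + (s - 1) := by
  obtain ⟨s, rfl⟩ : ∃ k, s = k + 1 := ⟨s - 1, by omega⟩
  have h1 : s + 1 ≤ 2 ^ s := Nat.lt_two_pow_self
  have h2 : 3 * (2 * z + (s + 1)) + 2 ≤ (6 * z + 5) * 2 ^ s := by nlinarith
  calc Nat.log 2 (3 * (2 * z + (s + 1)) + 2) ≤ Nat.log 2 ((6 * z + 5) * 2 ^ s) :=
        Nat.log_mono_right h2
    _ = Nat.log 2 (6 * z + 5) + s := by
        clear h1 h2
        induction s with
        | zero => simp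
        | succ s ih =>
          rw [pow_succ, ← mul_assoc, Nat.log_mul_base (by norm_num) (by positivity)]
          have := ih (by omega)
          omega
    _ = _ := by omega

private lemma c2_fc1 : ∀ z ∈ Finset.Icc (1 : ℕ) 3, ∀ s ∈ Finset.range 4,
    2 * phz 1 (-(2 * (z : ℤ)) - s) s + S2 1 z ≤
      2 * padicValNat 2 (3 * z).factorial + 2 * z + 4 * s := by decide +kernel

private lemma c2_fc2 : ∀ z ∈ Finset.Icc (1 : ℕ) 3, ∀ s ∈ Finset.range 4,
    2 * phz 2 (-(2 * (z : ℤ)) - s) s + S2 2 z ≤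
      2 * padicValNat 2 (3 * z).factorial + 2 * z + 4 * s := by decide +kernel

private lemma c2_logs : ∀ z ∈ Finset.Icc (1 : ℕ) 3,
    Nat.log 2 (6 * z + 5) + Nat.log 2 (6 * z + 2) + Nat.log 2 (z + 1) ≤ 2 * z + 5 := by
  decide +kernel

theorem numC2 (c : ℤ) (hc : c = 1 ∨ c = 2) (z s : ℕ) :
    2 * phz c (-(2 * (z : ℤ)) - s) s + S2 c z ≤
      2 * padicValNat 2 (3 * z).factorial + 2 * z + 4 * s := by
  have hph : 1 ≤ s → ph c (-(2 * (z : ℤ)) - s) ≤ Nat.log 2 (6 * z + 5) + (s - 1) := by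
    intro hs
    have h1 := c2_ph c hc (2 * z + s)
    rw [show -((2 * z + s : ℕ) : ℤ) = -(2 * (z : ℤ)) - s by push_cast; ring] at h1
    exact h1.trans (c2_s z s hs)
  rcases Nat.eq_zero_or_pos z with rfl | hz
  · have h0 : S2 c 0 = 0 := by simp [S2]
    rw [h0]
    unfold phz
    split_ifs with h
    · omega
    · have h1 := hph (by omega)
      have h2 : Nat.log 2 (6 * 0 + 5) = 2 := by decide +kernel
      omega
  by_cases hfin : z ≤ 3 ∧ s ≤ 3
  · rcases hc with rfl | rfl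
    · exact c2_fc1 z (Finset.mem_Icc.mpr ⟨hz, hfin.1⟩) s (Finset.mem_range.mpr (by omega))
    · exact c2_fc2 z (Finset.mem_Icc.mpr ⟨hz, hfin.1⟩) s (Finset.mem_range.mpr (by omega))
  have hS := c2_S c hc z hz
  have hf := c2_fact (z + 1) (by omega)
  have hfac : padicValNat 2 (2 * z - 1).factorial + padicValNat 2 (z + 1).factorial ≤
      padicValNat 2 (3 * z).factorial := by
    rw [← padicValNat.mul (Nat.factorial_ne_zero _) (Nat.factorial_ne_zero _),
      show 3 * z = 2 * z - 1 + (z + 1) by omega]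
    exact (padicValNat_dvd_iff_le (Nat.factorial_ne_zero _)).1
      (pow_padicValNat_dvd.trans (Nat.factorial_mul_factorial_dvd_factorial_add _ _))
  have hlog : z ≤ 3 → Nat.log 2 (6 * z + 5) + Nat.log 2 (6 * z + 2) + Nat.log 2 (z + 1) ≤
      2 * z + 5 := fun h => c2_logs z (Finset.mem_Icc.mpr ⟨hz, h⟩)
  have hlog' := c2_log z
  have h5 : 2 ≤ Nat.log 2 (6 * z + 5) := by
    apply Nat.le_log_of_pow_le (by norm_num)
    omega
  unfold phz
  split_ifs with h
  · omega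
  · have h1 := hph (by omega)
    by_cases hz3 : z ≤ 3
    · have h2 := hlog hz3
      omega
    · omega

end Pool.Agent.GV
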