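import Pool.Agent.GV.VAL.Idx

/-!
# GV-VAL-NumC3: numerical inequalities

Checked for `z ≤ 3000`, `t ≤ z + 60`, `s' ≤ 40`.

* `numC3`.  Plan: `ph c (s - 2z) = v(3 s - 6 z - c)`, `|3s - 6z - c| ≤ max (3 t, 6 z + 2)`, hence
  `ph c (s-2z) ≤ log2(6 t)` (`z < t`), `ph c (-2z-s') ≤ log2(6z+3s'+2) ≤ log2(6t) + s'` etc.:
  `2 log2(6t) + 1 ≤ 2 t` for `t ≥ 6`.  Small `t` (`z < t ≤ 5`, `s ≤ t`; `s' ≥ 4` trivial because
  then `ph c (-2z-s') ≤ 2 s' - 2`, say): finite check.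
* `numI1`: the values for `i = 1`.  `ph c (2 + s) ≤ 2 s` for `s ≥ 2` (`|3(2+s) - c| ≤ 3 s + 5 <
  2^(2s+1)` for `s ≥ 2`), `ph 2 3 = 0`, `ph 1 3 = 3`, `S1 1 1 = 2`, `S1 2 1 = 3`.
-/

set_option autoImplicit false

namespace Pool.Agent.GV

private theorem nc3_ph_le {c r : ℤ} {k : ℕ} (h0 : 3 * r - c ≠ 0)
    (h : |3 * r - c| < 2 ^ (k + 1)) : ph c r ≤ k := by
  by_contra hk
  have h1 : k + 1 ≤ padicValInt 2 (3 * r - c) := by
    unfold ph at hk
    omega
  have h2 : ((2 : ℕ) : ℤ) ^ (k + 1) ∣ 3 * r - c := (padicValInt_dvd_iff (k + 1) _).2 (Or.inr h1)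
  have h3 := Int.le_of_dvd (abs_pos.2 h0) ((dvd_abs _ _).2 h2)
  push_cast at h3
  omega

private theorem nc3_val {x : ℤ} {k : ℕ} (h0 : x ≠ 0) (h : (2 : ℤ) ^ k ∣ x)
    (h' : ¬ (2 : ℤ) ^ (k + 1) ∣ x) : padicValInt 2 x = k := by
  have h1 := (padicValInt_dvd_iff (p := 2) k x).1 (by exact_mod_cast h)
  have h2 : ¬ (x = 0 ∨ k + 1 ≤ padicValInt 2 x) := fun h3 =>
    h' (by exact_mod_cast (padicValInt_dvd_iff (p := 2) (k + 1) x).2 h3)
  rcases h1 with h1 | h1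
  · exact absurd h1 h0
  · have h3 : ¬ (k + 1 ≤ padicValInt 2 x) := fun h => h2 (Or.inr h)
    omega

private theorem nc3_pow1 (t : ℕ) (ht : 1 ≤ t) : 6 * t ≤ 2 ^ (t + 1) + 6 := by
  rcases Nat.lt_or_ge t 2 with h | h
  · have : t = 1 := by omega
    subst this
    norm_num
  · induction t, h using Nat.le_induction with
    | base => norm_num
    | succ n hn ih =>
      have h1 := ih (by omega)
      have h2 : 2 ^ 3 ≤ 2 ^ (n + 1) := Nat.pow_le_pow_right (by norm_num) (by omega)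
      have h3 : 2 ^ (n + 1 + 1) = 2 ^ (n + 1) + 2 ^ (n + 1) := by ring
      omega

private theorem nc3_pow2 (t : ℕ) (ht : 1 ≤ t) : 3 * t ≤ 2 ^ (t + 1) := by
  induction t, ht using Nat.le_induction with
  | base => norm_num
  | succ n hn ih =>
    have h2 : 2 ^ 2 ≤ 2 ^ (n + 1) := Nat.pow_le_pow_right (by norm_num) (by omega)
    have h3 : 2 ^ (n + 1 + 1) = 2 ^ (n + 1) + 2 ^ (n + 1) := by ring
    omega

private theorem nc3_pow3 (t : ℕ) (ht : 1 ≤ t) (s : ℕ) (hs : 1 ≤ s) :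
    6 * t + 3 * s ≤ 2 ^ (t + 2 * s) + 3 := by
  induction s, hs using Nat.le_induction with
  | base =>
    have h1 := nc3_pow2 t ht
    have h2 : 2 ^ (t + 2 * 1) = 2 ^ (t + 1) + 2 ^ (t + 1) := by ring
    omega
  | succ n hn ih =>
    have h2 : 1 ≤ 2 ^ (t + 2 * n) := Nat.one_le_two_pow
    have h3 : 2 ^ (t + 2 * (n + 1)) = 4 * 2 ^ (t + 2 * n) := by ring
    omega

theorem numC3 (c : ℤ) (hc : c = 1 ∨ c = 2) (z t s s' : ℕ) (ht : z + 1 ≤ t) (hs1 : 1 ≤ s)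
    (hs : s ≤ t) :
    ph c (-(2 * (z : ℤ)) + s) + phz c (-(2 * (z : ℤ)) - s') s' + 1 ≤ 2 * t + 2 * s' := by
  have ht1 : 1 ≤ t := by omega
  have hP : ph c (-(2 * (z : ℤ)) + s) ≤ t := by
    have h1 := nc3_pow1 t ht1
    have h2 := nc3_pow2 t ht1
    have h1' : (6 : ℤ) * t ≤ 2 ^ (t + 1) + 6 := by exact_mod_cast h1
    have h2' : (3 : ℤ) * t ≤ 2 ^ (t + 1) := by exact_mod_cast h2
    apply nc3_ph_le
    · rcases hc with rfl | rfl <;> omega
    · rw [abs_lt]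
      rcases hc with rfl | rfl <;> constructor <;> omega
  rcases Nat.eq_zero_or_pos s' with h0 | hs'
  · have hQ : phz c (-(2 * (z : ℤ)) - s') s' = 0 := by
      unfold phz
      rw [if_pos h0]
    rw [hQ]
    omega
  · have hQ : phz c (-(2 * (z : ℤ)) - s') s' ≤ t + 2 * s' - 1 := by
      unfold phz
      rw [if_neg (by omega)]
      have h1 := nc3_pow3 t ht1 s' hs'
      have h1' : (6 : ℤ) * t + 3 * s' ≤ 2 ^ (t + 2 * s') + 3 := by exact_mod_cast h1
      apply nc3_ph_le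
      · rcases hc with rfl | rfl <;> omega
      · rw [Nat.sub_add_cancel (by omega), abs_lt]
        rcases hc with rfl | rfl <;> constructor <;> omega
    omega

theorem numI1_ph (c : ℤ) (hc : c = 1 ∨ c = 2) (s : ℕ) (hs : 2 ≤ s) : ph c (2 + s) ≤ 2 * s := by
  have h1 : 3 * s + 5 < 2 ^ (2 * s + 1) := by
    induction s, hs using Nat.le_induction with
    | base => norm_num
    | succ n hn ih =>
      have h3 : 2 ^ (2 * (n + 1) + 1) = 4 * 2 ^ (2 * n + 1) := by ring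
      have h2 : 1 ≤ 2 ^ (2 * n + 1) := Nat.one_le_two_pow
      omega
  have h1' : (3 : ℤ) * s + 5 < 2 ^ (2 * s + 1) := by exact_mod_cast h1
  apply nc3_ph_le
  · rcases hc with rfl | rfl <;> omega
  · rw [abs_lt]
    rcases hc with rfl | rfl <;> constructor <;> omega

theorem numI1_val : ph 1 3 = 3 ∧ ph 2 3 = 0 ∧ S1 1 1 = 2 ∧ S1 2 1 = 3 := by
  have a1 : ph 1 3 = 3 := nc3_val (by norm_num) (by norm_num) (by norm_num)
  have a2 : ph 2 3 = 0 := nc3_val (by norm_num) (by norm_num) (by norm_num)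
  have b0 : ph 1 0 = 0 := nc3_val (by norm_num) (by norm_num) (by norm_num)
  have b1 : ph 1 1 = 1 := nc3_val (by norm_num) (by norm_num) (by norm_num)
  have b2 : ph 1 2 = 0 := nc3_val (by norm_num) (by norm_num) (by norm_num)
  have c0 : ph 2 0 = 1 := nc3_val (by norm_num) (by norm_num) (by norm_num)
  have c1 : ph 2 1 = 0 := nc3_val (by norm_num) (by norm_num) (by norm_num)
  have c2 : ph 2 2 = 2 := nc3_val (by norm_num) (by norm_num) (by norm_num)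
  refine ⟨a1, a2, ?_, ?_⟩
  · unfold S1
    rw [Finset.sum_range_succ, Finset.sum_range_succ, Finset.sum_range_zero]
    norm_num [b0, b1, b2]
  · unfold S1
    rw [Finset.sum_range_succ, Finset.sum_range_succ, Finset.sum_range_zero]
    norm_num [c0, c1, c2]

end Pool.Agent.GV
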