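import Pool.Agent.GV.VAL.Idx
import Pool.Agent.GV.VAL.EntL
import Pool.Agent.GV.VAL.EntU
import Pool.Agent.GV.VAL.DR
import Pool.Agent.GV.VAL.NumC2
import Pool.Agent.GV.VAL.NumC3

/-!
# GV-VAL-NearL: the terms of `B₁₁⁻¹`, `B₂₁ B₁₁⁻¹`, `B₁₁⁻¹ B₁₂` near `n`

Indices `m = n - z`; `Utf e a (m-p) p = U⁻¹(m-p, m)`, `Ltf e a (m-q) q = L⁻¹(m, m-q)`.

Plan (imports sorried).
* `mu_Lt`, `mu_Ut`: there is `s ≤ q` with `V (-(phz c (-2z-s) s)) (Ltf e a (n-z-q) q)`: `q = 0`: `s = 0`;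
  otherwise `s` maximal in `1 ≤ s ≤ q`, `V_Ltf`: `a - 2(n-z) + s = a - 2n - (-2z-s)`, `GI.hv`
  (`2z + s ≤ 2z + q ≤ 2R`).
* `nearLL`: `D(n)/D(n-z)` by `V_Dd_ratio` at `n - z`, `l = z`: `sS a (n-z) z = S2 c z` (reindex
  `r ↦ 2z - 1 - r`); `numC2` for `s1`, `s2`, added and halved.
* `nearRL`: `V_Lf` at `n - z`, `r = p + z`, `μ = max_{1≤s≤p+z} ph c (-2z+s)` attained at some `s`
  (`a - 2(n-z) - s = a - 2n - (s-2z)`), and `mu_Lt`; `numC3` with `t = p + z`.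
* `nearLR`: the same with `V_Uf`, `mu_Ut`.
-/

set_option autoImplicit false

namespace Pool.Agent.GV

/-- a maximum over `1 ≤ s ≤ q` is attained -/
private theorem nl_max (f : ℕ → ℕ) (q : ℕ) (hq : 1 ≤ q) :
    ∃ s : ℕ, 1 ≤ s ∧ s ≤ q ∧ ∀ t : ℕ, 1 ≤ t → t ≤ q → f t ≤ f s := by
  obtain ⟨s, hs, hs2⟩ := Finset.exists_max_image (Finset.Icc 1 q) f ⟨1, by simp; omega⟩
  rw [Finset.mem_Icc] at hs
  exact ⟨s, hs.1, hs.2, fun t h1 h2 => hs2 t (Finset.mem_Icc.2 ⟨h1, h2⟩)⟩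

private theorem nl_left {c : ℤ} {a n R z q : ℕ} (h : GI c a n R) (hz : z + q < n)
    (hR : z + q ≤ R) :
    ∃ s : ℕ, s ≤ q ∧ ∀ t : ℕ, 1 ≤ t → t ≤ q →
      padicValInt 2 ((a : ℤ) - 2 * ((n - z - q : ℕ) + q) + t) ≤ phz c (-(2 * (z : ℤ)) - s) s := by
  rcases Nat.eq_zero_or_pos q with rfl | hq
  · exact ⟨0, le_rfl, fun t h1 h2 => by omega⟩
  · obtain ⟨s, h1, h2, h3⟩ := nl_max
      (fun t => padicValInt 2 ((a : ℤ) - 2 * ((n - z - q : ℕ) + q) + t)) q hq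
    refine ⟨s, h2, fun t ht1 ht2 => (h3 t ht1 ht2).trans (le_of_eq ?_)⟩
    have e1 : (a : ℤ) - 2 * ((n - z - q : ℕ) + q) + s =
        (a : ℤ) - 2 * n - (-(2 * (z : ℤ)) - s) := by omega
    show padicValInt 2 ((a : ℤ) - 2 * ((n - z - q : ℕ) + q) + s) = _
    rw [e1, h.hv _ (by rw [abs_le]; constructor <;> omega)]
    unfold phz
    rw [if_neg (by omega)]

private theorem nl_right {c : ℤ} {a n R p z : ℕ} (h : GI c a n R) (hp1 : 1 ≤ p) (hp : p ≤ R)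
    (hz : z < n) (hR : z ≤ R) :
    ∃ s : ℕ, 1 ≤ s ∧ s ≤ p + z ∧ ∀ t : ℕ, 1 ≤ t → t ≤ p + z →
      padicValInt 2 ((a : ℤ) - 2 * (n - z : ℕ) - t) ≤ ph c (-(2 * (z : ℤ)) + s) := by
  obtain ⟨s, h1, h2, h3⟩ := nl_max
    (fun t => padicValInt 2 ((a : ℤ) - 2 * (n - z : ℕ) - t)) (p + z) (by omega)
  refine ⟨s, h1, h2, fun t ht1 ht2 => (h3 t ht1 ht2).trans (le_of_eq ?_)⟩
  have e1 : (a : ℤ) - 2 * (n - z : ℕ) - s = (a : ℤ) - 2 * n - (-(2 * (z : ℤ)) + s) := by omega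
  show padicValInt 2 ((a : ℤ) - 2 * (n - z : ℕ) - s) = _
  rw [e1, h.hv _ (by rw [abs_le]; constructor <;> omega)]

private theorem nl_sS {c : ℤ} {a n R z : ℕ} (h : GI c a n R) (hz : z < n) (hR : z ≤ R) :
    sS a (n - z) z = S2 c z := by
  unfold sS S2
  rw [← Finset.sum_range_reflect]
  refine Finset.sum_congr rfl fun r hr => ?_
  rw [Finset.mem_range] at hr
  have e1 : (a : ℤ) - 2 * (n - z : ℕ) - ((2 * z - 1 - r : ℕ) : ℤ) =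
      (a : ℤ) - 2 * n - (-(r : ℤ) - 1) := by omega
  have e2 : (a : ℤ) - 2 * (n - z : ℕ) - 1 - ((2 * z - 1 - r : ℕ) : ℤ) =
      (a : ℤ) - 2 * n - (-(r : ℤ)) := by omega
  rw [e1, e2, h.hv _ (by rw [abs_le]; constructor <;> omega),
    h.hv _ (by rw [abs_le]; constructor <;> omega)]
  ring

theorem mu_Lt (e : Bool) (c : ℤ) (a n R z q : ℕ) (h : GI c a n R) (hz : z + q < n)
    (hR : z + q ≤ R) :
    ∃ s : ℕ, s ≤ q ∧ V (-(phz c (-(2 * (z : ℤ)) - s) s : ℤ)) (Ltf e (a : ℚ) (n - z - q) q) := by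
  obtain ⟨s, hs, hs2⟩ := nl_left h hz hR
  have ha := h.ha
  exact ⟨s, hs, V_Ltf e a (n - z - q) q _ (by omega) hs2⟩

theorem mu_Ut (e : Bool) (c : ℤ) (a n R z q : ℕ) (h : GI c a n R) (hz : z + q < n)
    (hR : z + q ≤ R) :
    ∃ s : ℕ, s ≤ q ∧ V (-(phz c (-(2 * (z : ℤ)) - s) s : ℤ)) (Utf e (a : ℚ) (n - z - q) q) := by
  obtain ⟨s, hs, hs2⟩ := nl_left h hz hR
  have ha := h.ha
  exact ⟨s, hs, V_Utf e a (n - z - q) q _ (by omega) hs2⟩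

theorem nearLL (e : Bool) (c : ℤ) (a n R z p q : ℕ) (h : GI c a n R) (hp : z + p < n)
    (hq : z + q < n) (hpR : z + p ≤ R) (hqR : z + q ≤ R) :
    V (-2 * (z + p) - 2 * (z + q))
      (Utf e (a : ℚ) (n - z - p) p * (Dd e (a : ℚ) n / Dd e (a : ℚ) (n - z)) *
        Ltf e (a : ℚ) (n - z - q) q) := by
  obtain ⟨s1, hs1, hv1⟩ := mu_Ut e c a n R z p h hp hpR
  obtain ⟨s2, hs2, hv2⟩ := mu_Lt e c a n R z q h hq hqR
  have ha := h.ha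
  have hD := V_Dd_ratio e a (n - z) z (by omega) (by omega)
  rw [nl_sS h (by omega) (by omega), Nat.sub_add_cancel (by omega)] at hD
  have c1 := numC2 c h.hc z s1
  have c2 := numC2 c h.hc z s2
  refine ((hv1.mul hD).mul hv2).mono ?_
  omega

theorem nearRL (e : Bool) (c : ℤ) (a n R p z q : ℕ) (h : GI c a n R) (hp1 : 1 ≤ p) (hp : p ≤ R)
    (hz : z + q < n) (hR : z + q ≤ R) :
    V (1 - 2 * (p + z + q)) (Lf e (a : ℚ) (n - z) (p + z) * Ltf e (a : ℚ) (n - z - q) q) := by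
  obtain ⟨s, hs1, hs2, hs3⟩ := nl_right h hp1 hp (z := z) (by omega) (by omega)
  obtain ⟨s', hs', hv'⟩ := mu_Lt e c a n R z q h hz hR
  have ha := h.ha
  have hv := V_Lf e a (n - z) (p + z) _ (by omega) hs3
  have c1 := numC3 c h.hc z (p + z) s s' (by omega) hs1 hs2
  refine (hv.mul hv').mono ?_
  omega

theorem nearLR (e : Bool) (c : ℤ) (a n R p z q : ℕ) (h : GI c a n R) (hp1 : 1 ≤ p) (hp : p ≤ R)
    (hz : z + q < n) (hR : z + q ≤ R) :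
    V (1 - 2 * (p + z + q)) (Utf e (a : ℚ) (n - z - q) q * Uf e (a : ℚ) (n - z) (p + z)) := by
  obtain ⟨s, hs1, hs2, hs3⟩ := nl_right h hp1 hp (z := z) (by omega) (by omega)
  obtain ⟨s', hs', hv'⟩ := mu_Ut e c a n R z q h hz hR
  have ha := h.ha
  have hv := V_Uf e a (n - z) (p + z) _ (by omega) hs3
  have c1 := numC3 c h.hc z (p + z) s s' (by omega) hs1 hs2
  refine (hv'.mul hv).mono ?_
  omega

end Pool.Agent.GV
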