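import Pool.Agent.GV.VAL.Crude
import Pool.Agent.GV.VAL.NearL

/-!
# GV-VAL-FourRL: `B₂₁ B₁₁⁻¹` and `B₁₁⁻¹ B₁₂`, all entries

Plan (imports sorried).  `L ≥ n + 1`, `I ≤ n`.  Three cases.
* `L > n + R`: every term `B(L,J) BI(J,I)` is `V (-(3Λ+1))` (`V_B`, `crude_BI`) and
  `1 - 2(L - I) ≤ 1 - 2 (R+1) ≤ -(3Λ+1)`.
* `L ≤ n + R`, `n - I > R`: `BI_left` with `M = n + R` (`3 M < a` by `GI.ha`): terms
  `lowM (Lf) L k * lowM (Ltf) k I` are `V (-2Λ)` (`crude_L`: `k + L < a`, `crude_Lt`).
* `L ≤ n + R`, `n - I ≤ R`: `BI_left`; the term `k` vanishes unless `I ≤ k`; `k = n - z`,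
  `L = n + p`, `I = n - z - q`: `nearRL` gives `V (1 - 2(p + z + q))`, `L - I = p + z + q`.
`fourLR`: the same with `BI_right`, `crude_Ut`, `crude_U`, `nearLR`.
-/

set_option autoImplicit false

namespace Pool.Agent.GV

open Finset

theorem fourRL (e : Bool) (c : ℤ) (a n R Λ : ℕ) (h : GI c a n R) (hΛ : a < 2 ^ Λ)
    (hR : 4 * Λ + 8 ≤ R) (L I : ℕ) (hL : n + 1 ≤ L) (hI : I ∈ Icc 1 n) :
    V (1 - 2 * ((L : ℤ) - I)) (∑ J ∈ Icc 1 n, B e (a : ℚ) L J * BI e a n J I) := by
  have ha := h.ha
  rw [mem_Icc] at hI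
  by_cases h1 : n + R < L
  · have h2 : V (-(3 * (Λ : ℤ) + 1)) (∑ J ∈ Icc 1 n, B e (a : ℚ) L J * BI e a n J I) := by
      refine V.sum fun J _ => ?_
      exact (V_B e a L J).mul' (crude_BI e a n Λ J I hΛ (by omega)) (by omega)
    exact h2.mono (by omega)
  · rw [BI_left e a n (n + R) (by omega) (by omega) L I (by rw [mem_Icc]; omega)
      (by rw [mem_Icc]; omega)]
    by_cases h2 : R < n - I
    · have h3 : V (-(2 * (Λ : ℤ)))
          (∑ k ∈ Icc 1 n, lowM (Lf e (a : ℚ)) L k * lowM (Ltf e (a : ℚ)) k I) := by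
        refine V.sum fun k hk => ?_
        rw [mem_Icc] at hk
        exact (crude_L e a Λ L k hΛ (by omega)).mul' (crude_Lt e a Λ k I hΛ (by omega)) (by omega)
      exact h3.mono (by omega)
    · refine V.sum fun k hk => ?_
      rw [mem_Icc] at hk
      by_cases h4 : k < I
      · have h5 : lowM (Ltf e (a : ℚ)) k I = 0 := by
          unfold lowM
          rw [if_pos h4]
        rw [h5, mul_zero]
        exact V_zero _
      · have h5 : lowM (Ltf e (a : ℚ)) k I = Ltf e (a : ℚ) I (k - I) := by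
          unfold lowM
          rw [if_neg h4]
        have h6 : lowM (Lf e (a : ℚ)) L k = Lf e (a : ℚ) k (L - k) := by
          unfold lowM
          rw [if_neg (by omega)]
        rw [h5, h6]
        have h7 := nearRL e c a n R (L - n) (n - k) (k - I) h (by omega) (by omega) (by omega)
          (by omega)
        rw [show n - (n - k) = k by omega, show k - (k - I) = I by omega,
          show L - n + (n - k) = L - k by omega] at h7
        exact h7.mono (by omega)

theorem fourLR (e : Bool) (c : ℤ) (a n R Λ : ℕ) (h : GI c a n R) (hΛ : a < 2 ^ Λ)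
    (hR : 4 * Λ + 8 ≤ R) (I L : ℕ) (hI : I ∈ Icc 1 n) (hL : n + 1 ≤ L) :
    V (1 - 2 * ((L : ℤ) - I)) (∑ J ∈ Icc 1 n, BI e a n I J * B e (a : ℚ) J L) := by
  have ha := h.ha
  rw [mem_Icc] at hI
  by_cases h1 : n + R < L
  · have h2 : V (-(3 * (Λ : ℤ) + 1)) (∑ J ∈ Icc 1 n, BI e a n I J * B e (a : ℚ) J L) := by
      refine V.sum fun J _ => ?_
      exact (crude_BI e a n Λ I J hΛ (by omega)).mul' (V_B e a J L) (by omega)
    exact h2.mono (by omega)
  · rw [BI_right e a n (n + R) (by omega) (by omega) I L (by rw [mem_Icc]; omega)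
      (by rw [mem_Icc]; omega)]
    by_cases h2 : R < n - I
    · have h3 : V (-(2 * (Λ : ℤ)))
          (∑ k ∈ Icc 1 n, uppM (Utf e (a : ℚ)) I k * uppM (Uf e (a : ℚ)) k L) := by
        refine V.sum fun k hk => ?_
        rw [mem_Icc] at hk
        exact (crude_Ut e a Λ I k hΛ (by omega)).mul' (crude_U e a Λ k L hΛ (by omega)) (by omega)
      exact h3.mono (by omega)
    · refine V.sum fun k hk => ?_
      rw [mem_Icc] at hk
      by_cases h4 : k < I
      · have h5 : uppM (Utf e (a : ℚ)) I k = 0 := by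
          unfold uppM
          rw [if_pos h4]
        rw [h5, zero_mul]
        exact V_zero _
      · have h5 : uppM (Utf e (a : ℚ)) I k = Utf e (a : ℚ) I (k - I) := by
          unfold uppM
          rw [if_neg h4]
        have h6 : uppM (Uf e (a : ℚ)) k L = Uf e (a : ℚ) k (L - k) := by
          unfold uppM
          rw [if_neg (by omega)]
        rw [h5, h6]
        have h7 := nearLR e c a n R (L - n) (n - k) (k - I) h (by omega) (by omega) (by omega)
          (by omega)
        rw [show n - (n - k) = k by omega, show k - (k - I) = I by omega,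
          show L - n + (n - k) = L - k by omega] at h7
        exact h7.mono (by omega)

end Pool.Agent.GV
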