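import Pool.Agent.GV.VAL.Idx
import Pool.Agent.GV.VAL.Consec

/-!
# GV-VAL-NumC1: a numerical inequality

Checked for `i ≤ 20000`, `s ≤ 40` (minimum of right side minus left side: 2).

Plan.  All numbers `3 r - c` are nonzero (`c = 1, 2`).
`S1 c i = ∑_{r<2i} ph c r + ∑_{r<2i} ph c (r+1)`; by `consec_bound` (`x r = 3 r - c` resp.
`3 (r+1) - c`, `u = 3`, `m = 2i`) each sum is `≤ v((2i-1)!) + B`, `B = Nat.log 2 (6 i + 2)`
(`2^(ph c r) ≤ |3r - c| ≤ 6i + 2`).  `v((3i)!) ≥ v((2i-1)!) + v((i+1)!)` (`(2i-1)! (i+1)! ∣ (3i)!`)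
and `v((i+1)!) ≥ i - Nat.log 2 (i+1)` (Legendre: `v(m!) = m - (binary digit sum)`,
`Nat.sub_one_mul_padicValNat_factorial`-type lemma, digit sum `≤ log + 1`; or by induction
`v((2m)!) = m + v(m!)`).  `2 ph c (2i+s) ≤ 2 Nat.log 2 (6i+3s) ≤ 4 s + 2 Nat.log 2 (6 i + 3)`
(`s ≥ 1`: `6i + 3s ≤ (6i+3) * 2^(s-1)`).  So it is enough that
`2 + 2 log(6i+3) + 2 log(6i+2) ≤ 2 (i - log(i+1)) + 2 i`, true for `i ≥ 9` (use e.g.
`2^k ≤ x → ...`, induction or dyadic ranges).  For `2 ≤ i ≤ 8`: for `s ≥ 4` one has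
`ph c (2i+s) ≤ 2 s`, so `s ≤ 3` and the case `s = 0` are enough: finite check (`decide`, or
`simp [S1, Finset.sum_range_succ, ph]` with `norm_num`/`padicValInt` evaluation; a computable
version of the 2-adic valuation helps).
-/

set_option autoImplicit false

namespace Pool.Agent.GV

/-- valuation bounded by the size -/
private lemma nc1_val_le (z : ℤ) (hz : z ≠ 0) (N : ℕ) (h : z.natAbs ≤ N) :
    padicValInt 2 z ≤ Nat.log 2 N := by
  have h1 : 2 ^ padicValInt 2 z ∣ z.natAbs := pow_padicValNat_dvd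
  have h2 := Nat.le_of_dvd (Int.natAbs_pos.2 hz) h1
  exact Nat.le_log_of_pow_le (by norm_num) (h2.trans h)

private lemma nc1_S1 (c : ℤ) (hc : c = 1 ∨ c = 2) (i : ℕ) (hi : 1 ≤ i) :
    S1 c i ≤ 2 * padicValNat 2 (2 * i - 1).factorial + 2 * Nat.log 2 (6 * i) := by
  unfold S1
  rw [Finset.sum_add_distrib]
  have h1 := consec_bound (2 * i) (fun r => 3 * (r : ℤ) - c) 3 (Nat.log 2 (6 * i)) (by norm_num)
    (by omega) (fun r _ => by change 3 * (r : ℤ) - c ≠ 0; omega)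
    (fun r _ s _ => by change 3 * (r : ℤ) - c - (3 * (s : ℤ) - c) = _; ring)
    (fun r hr => nc1_val_le _ (by change 3 * (r : ℤ) - c ≠ 0; omega) _
      (by change (3 * (r : ℤ) - c).natAbs ≤ 6 * i; omega))
  have h2 := consec_bound (2 * i) (fun r => 3 * ((r : ℤ) + 1) - c) 3 (Nat.log 2 (6 * i))
    (by norm_num)
    (by omega) (fun r _ => by change 3 * ((r : ℤ) + 1) - c ≠ 0; omega)
    (fun r _ s _ => by change 3 * ((r : ℤ) + 1) - c - (3 * ((s : ℤ) + 1) - c) = _; ring)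
    (fun r hr => nc1_val_le _ (by change 3 * ((r : ℤ) + 1) - c ≠ 0; omega) _
      (by change (3 * ((r : ℤ) + 1) - c).natAbs ≤ 6 * i; omega))
  have h3 : ∑ r ∈ Finset.range (2 * i), ph c (r : ℤ)
      = ∑ r ∈ Finset.range (2 * i), padicValInt 2 (3 * (r : ℤ) - c) := rfl
  have h4 : ∑ r ∈ Finset.range (2 * i), ph c ((r : ℤ) + 1)
      = ∑ r ∈ Finset.range (2 * i), padicValInt 2 (3 * ((r : ℤ) + 1) - c) := rfl
  rw [h3, h4]
  omega

private lemma nc1_fact_lb (n : ℕ) : n ≤ padicValNat 2 n.factorial + Nat.log 2 n + 1 := by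
  have h1 := sub_one_mul_padicValNat_factorial (p := 2) n
  rw [show 2 - 1 = 1 from rfl, one_mul] at h1
  have h2 : (Nat.digits 2 n).sum ≤ (Nat.digits 2 n).length := by
    have h3 := List.sum_le_card_nsmul (Nat.digits 2 n) 1 (fun d hd => by
      have h4 := Nat.digits_lt_base (by norm_num) hd
      omega)
    simpa using h3
  have h3 : (Nat.digits 2 n).length ≤ Nat.log 2 n + 1 :=
    (Nat.digits_length_le_iff (by norm_num) n).2 (Nat.lt_pow_succ_log_self (by norm_num) n)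
  omega

private lemma nc1_fact3 (i : ℕ) (hi : 1 ≤ i) :
    padicValNat 2 (2 * i - 1).factorial + i ≤
      padicValNat 2 (3 * i).factorial + Nat.log 2 (i + 1) := by
  have h1 : padicValNat 2 (2 * i - 1).factorial + padicValNat 2 (i + 1).factorial ≤
      padicValNat 2 (3 * i).factorial := by
    rw [← padicValNat.mul (Nat.factorial_ne_zero _) (Nat.factorial_ne_zero _)]
    have h2 := Nat.factorial_mul_factorial_dvd_factorial_add (2 * i - 1) (i + 1)
    rw [show 2 * i - 1 + (i + 1) = 3 * i by omega] at h2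
    exact (padicValNat_dvd_iff_le (Nat.factorial_ne_zero _)).1
      (pow_padicValNat_dvd.trans h2)
  have h2 := nc1_fact_lb (i + 1)
  omega

private lemma nc1_pow (L : ℕ) (hL : 4 ≤ L) : 3 * L + 9 ≤ 2 * 2 ^ L := by
  induction L, hL using Nat.le_induction with
  | base => norm_num
  | succ n hn ih =>
    rw [pow_succ]
    omega

private lemma nc1_log (i : ℕ) (hi : 8 ≤ i) :
    1 + Nat.log 2 (6 * i + 3) + Nat.log 2 (6 * i) + Nat.log 2 (i + 1) ≤ 2 * i := by
  set L := Nat.log 2 (i + 1) with hL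
  have h1 : i + 1 < 2 ^ (L + 1) := Nat.lt_pow_succ_log_self (by norm_num) _
  have h2 : 2 ^ L ≤ i + 1 := Nat.pow_log_le_self 2 (by omega)
  have h3 : Nat.log 2 (6 * i + 3) < L + 4 :=
    Nat.log_lt_of_lt_pow (by omega) (by
      have : 2 ^ (L + 4) = 8 * 2 ^ (L + 1) := by ring
      omega)
  have h4 : Nat.log 2 (6 * i) < L + 4 :=
    Nat.log_lt_of_lt_pow (by omega) (by
      have : 2 ^ (L + 4) = 8 * 2 ^ (L + 1) := by ring
      omega)
  by_cases h : 4 ≤ L
  · have h5 := nc1_pow L h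
    omega
  · omega

private lemma nc1_ph (c : ℤ) (hc : c = 1 ∨ c = 2) (i s : ℕ) (hi : 1 ≤ i) (hs : 1 ≤ s) :
    ph c (2 * i + s) < Nat.log 2 (6 * i + 3) + s := by
  have h1 : ph c (2 * i + s) ≤ Nat.log 2 (6 * i + 3 * s) :=
    nc1_val_le _ (by omega) _ (by omega)
  refine lt_of_le_of_lt h1 (Nat.log_lt_of_lt_pow (by omega) ?_)
  have h2 : 6 * i + 3 < 2 ^ (Nat.log 2 (6 * i + 3) + 1) := Nat.lt_pow_succ_log_self (by norm_num) _
  obtain ⟨t, rfl⟩ : ∃ t, s = t + 1 := ⟨s - 1, by omega⟩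
  have h3 : t + 1 ≤ 2 ^ t := Nat.lt_two_pow_self
  have h4 : 2 ^ (Nat.log 2 (6 * i + 3) + (t + 1)) = 2 ^ (Nat.log 2 (6 * i + 3) + 1) * 2 ^ t := by
    ring
  rw [h4]
  calc 6 * i + 3 * (t + 1) ≤ (6 * i + 3) * (t + 1) := by nlinarith
    _ ≤ (6 * i + 3) * 2 ^ t := Nat.mul_le_mul_left _ h3
    _ < 2 ^ (Nat.log 2 (6 * i + 3) + 1) * 2 ^ t :=
      Nat.mul_lt_mul_of_pos_right h2 (by positivity)

private lemma nc1_ph_small (c : ℤ) (hc : c = 1 ∨ c = 2) (i s : ℕ) (hi : i ≤ 7) (hs : 2 ≤ s) :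
    ph c (2 * i + s) ≤ 2 * s + 1 := by
  have h1 : ph c (2 * i + s) ≤ Nat.log 2 (6 * i + 3 * s) :=
    nc1_val_le _ (by omega) _ (by omega)
  refine h1.trans (Nat.lt_succ_iff.1 (Nat.log_lt_of_lt_pow (by omega) ?_))
  have h2 : ∀ t : ℕ, 6 * 7 + 3 * (t + 2) < 2 ^ (2 * (t + 2) + 2) := by
    intro t
    induction t with
    | zero => norm_num
    | succ t ih =>
      have h3 : 2 ^ (2 * (t + 1 + 2) + 2) = 4 * 2 ^ (2 * (t + 2) + 2) := by ring
      rw [h3]
      omega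
  have h3 := h2 (s - 2)
  rw [show s - 2 + 2 = s by omega] at h3
  have h4 : Nat.succ (2 * s + 1) = 2 * s + 2 := rfl
  rw [h4]
  omega

private lemma nc1_small (c : ℤ) (hc : c = 1 ∨ c = 2) (i : ℕ) (hi : 2 ≤ i) (hi7 : i ≤ 7) :
    S1 c i + 4 ≤ 2 * padicValNat 2 (3 * i).factorial + 2 * i ∧
    2 + 2 * ph c (2 * i + 1) + S1 c i ≤ 2 * padicValNat 2 (3 * i).factorial + 2 * i + 4 := by
  rcases hc with rfl | rfl <;> interval_cases i <;> decide +kernel

theorem numC1 (c : ℤ) (hc : c = 1 ∨ c = 2) (i s : ℕ) (hi : 2 ≤ i) :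
    2 + 2 * phz c (2 * i + s) s + S1 c i ≤
      2 * padicValNat 2 (3 * i).factorial + 2 * i + 4 * s := by
  by_cases h8 : 8 ≤ i
  · have h1 := nc1_S1 c hc i (by omega)
    have h2 := nc1_fact3 i (by omega)
    have h3 := nc1_log i h8
    by_cases hs : s = 0
    · subst hs
      have h4 : phz c (2 * i + ((0 : ℕ) : ℤ)) 0 = 0 := rfl
      rw [h4]
      omega
    · have h4 : phz c (2 * i + s) s = ph c (2 * i + s) := if_neg hs
      have h5 := nc1_ph c hc i s (by omega) (by omega)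
      rw [h4]
      omega
  · obtain ⟨h1, h2⟩ := nc1_small c hc i hi (by omega)
    by_cases hs : s = 0
    · subst hs
      have h4 : phz c (2 * i + ((0 : ℕ) : ℤ)) 0 = 0 := rfl
      rw [h4]
      omega
    · have h4 : phz c (2 * i + s) s = ph c (2 * i + s) := if_neg hs
      rw [h4]
      by_cases hs1 : s = 1
      · subst hs1
        have h5 : ph c (2 * i + ((1 : ℕ) : ℤ)) = ph c (2 * i + 1) := by rw [Nat.cast_one]
        rw [h5]
        omega
      · have h5 := nc1_ph_small c hc i s (by omega) (by omega)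
        omega

end Pool.Agent.GV
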