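import Pool.Agent.GV.VAL.Idx
import Pool.Agent.GV.VAL.EntL
import Pool.Agent.GV.VAL.EntU
import Pool.Agent.GV.VAL.DR
import Pool.Agent.GV.VAL.NumC1

/-!
# GV-VAL-NearR: the terms of the Schur complement near `n` (index `n + i`, `i ≥ 2`)

Plan (imports sorried).
* `sS_eq`: by `GI.hv`, `sS a n i = S1 c i` for `i ≤ R` (`|r|, |r+1| ≤ 2R+2`).
* `mu_L`: for `q ≥ i`, `q ≤ R` there is `s ≤ q - i` with `V (-(phz c (2i+s) s)) (Lf e a (n+i) (q-i))`: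
  if `q = i` take `s = 0` (`Lf _ _ _ 0` has bound `0`: `V_Lf` with `r = 0`, `μ = 0`); otherwise `s`
  with `ph c (2i+s)` maximal in `1 ≤ s ≤ q - i` (`Finset.exists_max_image`) and `V_Lf`
  (`a - 2(n+i) - s = a - 2n - (2i+s)`, `GI.hv`).  `mu_U` the same with `V_Uf`.
* `nearR`: the product of `V (-(phz ..))`, `V (-(phz ..))` and
  `V (2 v((3i)!) - 2i - S1 c i)` (`V_Dd_ratio`); `numC1` for `s1` and `s2`, added and halved:
  `2 + phz1 + phz2 + S1 ≤ 2 v((3i)!) + 2 i + 2 s1 + 2 s2`, and `s1 ≤ p - i`, `s2 ≤ q - i`.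
-/

set_option autoImplicit false

namespace Pool.Agent.GV

theorem sS_eq (c : ℤ) (a n R i : ℕ) (h : GI c a n R) (hi : i ≤ R) : sS a n i = S1 c i := by
  unfold sS S1
  refine Finset.sum_congr rfl fun r hr => ?_
  rw [Finset.mem_range] at hr
  have h1 := h.hv (r : ℤ) (by rw [abs_of_nonneg (by positivity)]; omega)
  have h2 := h.hv ((r : ℤ) + 1) (by rw [abs_of_nonneg (by positivity)]; omega)
  rw [show (a : ℤ) - 2 * n - ((r : ℤ) + 1) = (a : ℤ) - 2 * n - 1 - r by ring] at h2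
  rw [h1, h2]

private theorem nr_mu (c : ℤ) (a n R i q : ℕ) (h : GI c a n R) (hi : i ≤ q) (hq : q ≤ R) :
    ∃ s : ℕ, s ≤ q - i ∧ ∀ s' : ℕ, 1 ≤ s' → s' ≤ q - i →
      padicValInt 2 ((a : ℤ) - 2 * ((n + i : ℕ) : ℤ) - s') ≤ phz c (2 * i + s) s := by
  have hval : ∀ s' : ℕ, s' ≤ q - i →
      padicValInt 2 ((a : ℤ) - 2 * ((n + i : ℕ) : ℤ) - s') = ph c (2 * i + s') := by
    intro s' hs'
    have h1 := h.hv (2 * i + s') (by rw [abs_of_nonneg (by positivity)]; omega)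
    rw [← h1]
    congr 1
    push_cast
    ring
  rcases Nat.eq_zero_or_pos (q - i) with h0 | h0
  · exact ⟨0, Nat.zero_le _, fun s' h1 h2 => by omega⟩
  · obtain ⟨s, hs, hmax⟩ := Finset.exists_max_image (Finset.Icc 1 (q - i))
      (fun s : ℕ => ph c (2 * i + s)) ⟨1, Finset.mem_Icc.2 ⟨le_rfl, h0⟩⟩
    rw [Finset.mem_Icc] at hs
    refine ⟨s, hs.2, fun s' h1 h2 => ?_⟩
    rw [hval s' h2]
    unfold phz
    rw [if_neg (by omega)]
    exact hmax s' (Finset.mem_Icc.2 ⟨h1, h2⟩)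

theorem mu_L (e : Bool) (c : ℤ) (a n R i q : ℕ) (h : GI c a n R) (hi : i ≤ q) (hq : q ≤ R) :
    ∃ s : ℕ, s ≤ q - i ∧ V (-(phz c (2 * i + s) s : ℤ)) (Lf e (a : ℚ) (n + i) (q - i)) := by
  obtain ⟨s, hs, hmax⟩ := nr_mu c a n R i q h hi hq
  have ha := h.ha
  exact ⟨s, hs, V_Lf e a (n + i) (q - i) _ (by omega) hmax⟩

theorem mu_U (e : Bool) (c : ℤ) (a n R i q : ℕ) (h : GI c a n R) (hi : i ≤ q) (hq : q ≤ R) :
    ∃ s : ℕ, s ≤ q - i ∧ V (-(phz c (2 * i + s) s : ℤ)) (Uf e (a : ℚ) (n + i) (q - i)) := by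
  obtain ⟨s, hs, hmax⟩ := nr_mu c a n R i q h hi hq
  have ha := h.ha
  exact ⟨s, hs, V_Uf e a (n + i) (q - i) _ (by omega) hmax⟩

theorem nearR (e : Bool) (c : ℤ) (a n R i p q : ℕ) (h : GI c a n R) (hi : 2 ≤ i) (hip : i ≤ p)
    (hiq : i ≤ q) (hp : p ≤ R) (hq : q ≤ R) :
    V (2 - 2 * p - 2 * q)
      (Lf e (a : ℚ) (n + i) (p - i) * (Dd e (a : ℚ) (n + i) / Dd e (a : ℚ) n) *
        Uf e (a : ℚ) (n + i) (q - i)) := by
  obtain ⟨s1, hs1, h1⟩ := mu_L e c a n R i p h hip hp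
  obtain ⟨s2, hs2, h2⟩ := mu_U e c a n R i q h hiq hq
  have ha := h.ha
  have h3 := V_Dd_ratio e a n i h.hn (by omega)
  rw [sS_eq c a n R i h (hip.trans hp)] at h3
  have n1 := numC1 c h.hc i s1 hi
  have n2 := numC1 c h.hc i s2 hi
  refine ((h1.mul h3).mul h2).mono ?_
  omega

end Pool.Agent.GV
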