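import Pool.Agent.GV.VAL.Prod

/-!
# GV-VAL-Gain: one more factor 2 in `L(n+1, n)` and `U(n, n+1)` for `a` odd

Plan.  `Lf false a n 1 = P (a-n) 2 * P (a-3n) 1 / (P (a-2n-1) 1 * cc n 1)`
`= (a-n)(a-n-1)(a-3n) / ((a-2n-1) * 2 (2n+1))`; `(a-n)(a-n-1)` is even, `a - 3n` is even
(`a`, `n` odd).  `Lf true a n 1 = (a-n)(a-n-1)(a-3n-3)/((a-2n-1) * 2 (2n+1))`, `n` even: `a-3n-3`
even.  `Uf false a n 1 = - C(n+1, 2) (2a-3n-3) / ((a-2n-1)(2a-2n-1))`, `n` odd.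
`Uf true a n 1 = - C(n+1,2) (2a-3n) / ((a-2n-1)(2a-2n-1))`, `n` even.
Denominator: `v(a-2n-1) ≤ μ`, the other factors have valuation 1 (`cc n 1 = 2(2n+1)`) resp. 0.
Unfold everything (`simp [Lf, Lf0, Lf1, P, cc, ...]`), write even numbers as `2 w`.
-/

set_option autoImplicit false

namespace Pool.Agent.GV

private lemma gain_aux (w z o : ℤ) (μ : ℕ) (hz : padicValInt 2 z ≤ μ) (ho : o % 2 = 1) :
    V (1 - (μ : ℤ)) (2 * (w : ℚ) * (z : ℚ)⁻¹ * (o : ℚ)⁻¹) := by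
  have h2 : V 1 (2 : ℚ) := by simpa using V_two_zpow 1
  have h3 : V (-(μ : ℤ)) ((z : ℚ)⁻¹) := by
    apply V_inv
    rw [padicValRat.of_int]
    exact_mod_cast hz
  have h4 : V 0 ((o : ℚ)⁻¹) := by
    have h5 : V (-0) ((o : ℚ)⁻¹) := by
      apply V_inv
      rw [padicValRat.of_int, padicValInt.eq_zero_of_not_dvd (by
        intro hd
        have : (2 : ℤ) ∣ o := by exact_mod_cast hd
        omega)]
      simp
    simpa using h5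
  have h5 := ((h2.mul (V_int w)).mul h3).mul h4
  refine h5.mono ?_
  omega

theorem V_Lf_gain (e : Bool) (a n μ : ℕ) (ha : a % 2 = 1) (hn : n % 2 = bif e then 0 else 1)
    (h : 2 * n + 1 < a) (hμ : padicValInt 2 ((a : ℤ) - 2 * n - 1) ≤ μ) :
    V (1 - (μ : ℤ)) (Lf e (a : ℚ) n 1) := by
  obtain ⟨w1, hw1⟩ : ∃ w : ℤ, ((a : ℤ) - n) * ((a : ℤ) - n - 1) = 2 * w := by
    have h1 := Int.even_mul_succ_self ((a : ℤ) - n - 1)
    obtain ⟨w, hw⟩ := h1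
    exact ⟨w, by linarith⟩
  have hw1' : ((a : ℚ) - n) * ((a : ℚ) - n - 1) = 2 * w1 := by exact_mod_cast hw1
  have hz : (((a : ℤ) - 2 * n - 1 : ℤ) : ℚ) ≠ 0 := by
    have h1 : (a : ℤ) - 2 * n - 1 ≠ 0 := by omega
    exact_mod_cast h1
  have ho : ((2 * n + 1 : ℤ) : ℚ) ≠ 0 := by
    have h1 : (2 * n + 1 : ℤ) ≠ 0 := by omega
    exact_mod_cast h1
  cases e with
  | false =>
    simp only [cond_false] at hn
    obtain ⟨w2, hw2⟩ : ∃ w : ℤ, (a : ℤ) - 3 * n = 2 * w := ⟨((a : ℤ) - 3 * n) / 2, by omega⟩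
    have hw2' : (a : ℚ) - 3 * n = 2 * w2 := by exact_mod_cast hw2
    have h1 : Lf false (a : ℚ) n 1 =
        2 * ((w1 * w2 : ℤ) : ℚ) * (((a : ℤ) - 2 * n - 1 : ℤ) : ℚ)⁻¹ * ((2 * n + 1 : ℤ) : ℚ)⁻¹ := by
      have h2 : Lf false (a : ℚ) n 1 = (((a : ℚ) - n) * ((a : ℚ) - n - 1)) * ((a : ℚ) - 3 * n) /
          (((a : ℚ) - 2 * n - 1) * (2 * (2 * n + 1))) := by
        simp only [Lf, Lf0, P, cc, cond_false, Finset.prod_range_succ, Finset.prod_range_zero]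
        push_cast
        ring
      rw [h2, hw1', hw2']
      push_cast at hz ho ⊢
      field_simp
    rw [h1]
    exact gain_aux _ _ _ _ hμ (by omega)
  | true =>
    simp only [cond_true] at hn
    obtain ⟨w2, hw2⟩ : ∃ w : ℤ, (a : ℤ) - 3 * n - 3 = 2 * w :=
      ⟨((a : ℤ) - 3 * n - 3) / 2, by omega⟩
    have hw2' : (a : ℚ) - 3 * n - 3 = 2 * w2 := by exact_mod_cast hw2
    have h1 : Lf true (a : ℚ) n 1 =
        2 * ((w1 * w2 : ℤ) : ℚ) * (((a : ℤ) - 2 * n - 1 : ℤ) : ℚ)⁻¹ * ((2 * n + 1 : ℤ) : ℚ)⁻¹ := by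
      have h2 : Lf true (a : ℚ) n 1 = (((a : ℚ) - n) * ((a : ℚ) - n - 1)) * ((a : ℚ) - 3 * n - 3) /
          (((a : ℚ) - 2 * n - 1) * (2 * (2 * n + 1))) := by
        simp only [Lf, Lf1, P, cc, cond_true, Finset.prod_range_succ, Finset.prod_range_zero]
        push_cast
        ring
      rw [h2, hw1', hw2']
      push_cast at hz ho ⊢
      field_simp
    rw [h1]
    exact gain_aux _ _ _ _ hμ (by omega)

theorem V_Uf_gain (e : Bool) (a n μ : ℕ) (ha : a % 2 = 1) (hn : n % 2 = bif e then 0 else 1)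
    (h : 2 * n + 1 < a) (hμ : padicValInt 2 ((a : ℤ) - 2 * n - 1) ≤ μ) :
    V (1 - (μ : ℤ)) (Uf e (a : ℚ) n 1) := by
  have hz : (((a : ℤ) - 2 * n - 1 : ℤ) : ℚ) ≠ 0 := by
    have h1 : (a : ℤ) - 2 * n - 1 ≠ 0 := by omega
    exact_mod_cast h1
  have ho : ((2 * a - 2 * n - 1 : ℤ) : ℚ) ≠ 0 := by
    have h1 : (2 * a - 2 * n - 1 : ℤ) ≠ 0 := by omega
    exact_mod_cast h1
  cases e with
  | false =>
    simp only [cond_false] at hn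
    obtain ⟨w2, hw2⟩ : ∃ w : ℤ, 2 * (a : ℤ) - 3 * n - 3 = 2 * w :=
      ⟨(2 * (a : ℤ) - 3 * n - 3) / 2, by omega⟩
    have hw2' : 2 * (a : ℚ) - 3 * n - 3 = 2 * w2 := by exact_mod_cast hw2
    have h1 : Uf false (a : ℚ) n 1 = 2 * ((-((n + 1).choose 2 : ℤ) * w2 : ℤ) : ℚ) *
        (((a : ℤ) - 2 * n - 1 : ℤ) : ℚ)⁻¹ * ((2 * a - 2 * n - 1 : ℤ) : ℚ)⁻¹ := by
      have h2 : Uf false (a : ℚ) n 1 = -((n + 1).choose 2 : ℚ) * (2 * (a : ℚ) - 3 * n - 3) /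
          (((a : ℚ) - 2 * n - 1) * (2 * a - 2 * n - 1)) := by
        simp [Uf, Uf0, P, O, df, Finset.prod_range_succ]
      rw [h2, hw2']
      push_cast at hz ho ⊢
      field_simp
    rw [h1]
    exact gain_aux _ _ _ _ hμ (by omega)
  | true =>
    simp only [cond_true] at hn
    obtain ⟨w2, hw2⟩ : ∃ w : ℤ, 2 * (a : ℤ) - 3 * n = 2 * w :=
      ⟨(2 * (a : ℤ) - 3 * n) / 2, by omega⟩
    have hw2' : 2 * (a : ℚ) - 3 * n = 2 * w2 := by exact_mod_cast hw2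
    have h1 : Uf true (a : ℚ) n 1 = 2 * ((-((n + 1).choose 2 : ℤ) * w2 : ℤ) : ℚ) *
        (((a : ℤ) - 2 * n - 1 : ℤ) : ℚ)⁻¹ * ((2 * a - 2 * n - 1 : ℤ) : ℚ)⁻¹ := by
      have h2 : Uf true (a : ℚ) n 1 = -((n + 1).choose 2 : ℚ) * (2 * (a : ℚ) - 3 * n) /
          (((a : ℚ) - 2 * n - 1) * (2 * a - 2 * n - 1)) := by
        simp [Uf, Uf1, P, O, df, Finset.prod_range_succ]
      rw [h2, hw2']
      push_cast at hz ho ⊢
      field_simp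
    rw [h1]
    exact gain_aux _ _ _ _ hμ (by omega)

end Pool.Agent.GV
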