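import Pool.Agent.GV.VAL.NearR
import Pool.Agent.GV.VAL.NumC3
import Pool.Agent.GV.VAL.Gain

/-!
# GV-VAL-NearR1: the terms of the Schur complement near `n`, index `n + 1`

Plan (imports sorried).  `sS a n 1 = S1 c 1` (`sS_eq`, needs `1 ≤ R`, from `p ≤ R`).  From
`GI.hv` at `r = 0`: `v(a - 2n) = ph c 0 = v(-c)`, so `c = 1` iff `a` odd, `c = 2` iff `a` even.
* `c = 2`: `S1 2 1 = 3`, `V (4 - 2 - 3)` for `D(n+1)/D(n)` (`V_Dd_ratio_even`); `Lf`, `Uf` at `n+1`: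
  `mu_L`, `mu_U` with `i = 1`: `phz 2 (2+s) s ≤ 2 s` (`s = 0`: 0; `s = 1`: `ph 2 3 = 0`; `s ≥ 2`:
  `numI1_ph`).  Need `2 - 2p - 2q ≤ -1 - 2 s1 - 2 s2`, true as `p, q ≥ 1`, `s1 ≤ p-1`, `s2 ≤ q-1`:
  `2 - 2p - 2q ≤ -2 - 2 s1 - 2 s2`.
* `c = 1`, `n % 2 = (if e then 0 else 1)`: `S1 1 1 = 2`, `V (6 - 2 - 2) = V 2` (`V_Dd_ratio_odd`);
  `phz 1 (2+s) s ≤ 2 s + 1` (`ph 1 3 = 3`).  Need `2 - 2p - 2q ≤ 2 - 2 s1 - 1 - 2 s2 - 1`. ok.
* `c = 1`, otherwise: then `(n+1) % 2 = (if e then 0 else 1)`; `V_Dd_ratio` with `l = 1`: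
  `2 v(3!) - 2 - 2 = -2`.  Now `V (-2 (p-1)) (Lf e a (n+1) (p-1))`: `p = 1`: value bound 0;
  `p = 2`: `V_Lf_gain` with `μ = ph 1 3 = 3`: `V (1 - 3)`; `p ≥ 3`: `V_Lf` with
  `μ = max_{1≤s≤p-1} ph 1 (2+s) ≤ 2(p-1)` (`ph 1 3 = 3 ≤ 4`, others `numI1_ph`).  Same for `Uf`
  (`V_Uf_gain`).  Need `2 - 2p - 2q ≤ -2 - 2(p-1) - 2(q-1)`. ok.
-/
set_option autoImplicit false

namespace Pool.Agent.GV

private lemma nr1_ph0_1 : ph 1 0 = 0 := by
  unfold ph
  exact padicValInt.eq_zero_of_not_dvd (by norm_num)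

private lemma nr1_ph0_2 : ph 2 0 = 1 := by
  unfold ph
  have h1 : (3 * 0 - 2 : ℤ) = -2 := by norm_num
  rw [h1]
  unfold padicValInt
  norm_num

private lemma nr1_odd (a n R : ℕ) (h : GI 1 a n R) : a % 2 = 1 := by
  have h1 := h.hv 0 (by simp; omega)
  rw [nr1_ph0_1] at h1
  have ha := h.ha
  by_contra h2
  have h3 : (2 : ℤ) ∣ (a : ℤ) - 2 * n - 0 := by omega
  have h4 : (a : ℤ) - 2 * n - 0 ≠ 0 := by omega
  have h5 := (padicValInt_dvd_iff (p := 2) 1 ((a : ℤ) - 2 * n - 0)).1 (by simpa using h3)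
  omega

private lemma nr1_even (a n R : ℕ) (h : GI 2 a n R) : a % 2 = 0 := by
  have h1 := h.hv 0 (by simp; omega)
  rw [nr1_ph0_2] at h1
  by_contra h2
  have h3 : padicValInt 2 ((a : ℤ) - 2 * n - 0) = 0 := by
    apply padicValInt.eq_zero_of_not_dvd
    intro h4
    have h5 : (2 : ℤ) ∣ (a : ℤ) - 2 * n - 0 := by exact_mod_cast h4
    omega
  omega

private lemma nr1_phz2 (s : ℕ) : phz 2 (2 * (1 : ℕ) + s) s ≤ 2 * s := by
  unfold phz
  split_ifs with h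
  · omega
  · rcases Nat.lt_or_ge s 2 with h1 | h1
    · obtain rfl : s = 1 := by omega
      have h2 : ph 2 (2 * ((1 : ℕ) : ℤ) + ((1 : ℕ) : ℤ)) = 0 := by
        have h3 := numI1_val.2.1
        have h4 : (2 * ((1 : ℕ) : ℤ) + ((1 : ℕ) : ℤ)) = 3 := by norm_num
        rw [h4]; exact h3
      omega
    · have h2 := numI1_ph 2 (Or.inr rfl) s h1
      have h3 : (2 * ((1 : ℕ) : ℤ) + (s : ℤ)) = 2 + s := by push_cast; ring
      rw [h3]; exact h2

private lemma nr1_phz1 (s : ℕ) : phz 1 (2 * (1 : ℕ) + s) s ≤ 2 * s + 1 := by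
  unfold phz
  split_ifs with h
  · omega
  · rcases Nat.lt_or_ge s 2 with h1 | h1
    · obtain rfl : s = 1 := by omega
      have h2 : ph 1 (2 * ((1 : ℕ) : ℤ) + ((1 : ℕ) : ℤ)) = 3 := by
        have h3 := numI1_val.1
        have h4 : (2 * ((1 : ℕ) : ℤ) + ((1 : ℕ) : ℤ)) = 3 := by norm_num
        rw [h4]; exact h3
      omega
    · have h2 := numI1_ph 1 (Or.inl rfl) s h1
      have h3 : (2 * ((1 : ℕ) : ℤ) + (s : ℤ)) = 2 + s := by push_cast; ring
      rw [h3]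
      omega

private lemma nr1_val (a n R s p : ℕ) (h : GI 1 a n R) (hp : p ≤ R) (h1 : 1 ≤ s)
    (h2 : s ≤ p - 1) :
    padicValInt 2 ((a : ℤ) - 2 * ((n + 1 : ℕ) : ℤ) - s) = ph 1 (2 + s) := by
  have h3 := h.hv (2 + s) (by rw [abs_of_nonneg (by positivity)]; omega)
  rw [← h3]
  congr 1
  push_cast
  ring

private lemma nr1_val_le (a n R s p : ℕ) (h : GI 1 a n R) (hp : p ≤ R) (h3p : 3 ≤ p) (h1 : 1 ≤ s)
    (h2 : s ≤ p - 1) :
    padicValInt 2 ((a : ℤ) - 2 * ((n + 1 : ℕ) : ℤ) - s) ≤ 2 * (p - 1) := by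
  rw [nr1_val a n R s p h hp h1 h2]
  rcases Nat.lt_or_ge s 2 with h3 | h3
  · obtain rfl : s = 1 := by omega
    have h4 := numI1_val.1
    have h5 : (2 + ((1 : ℕ) : ℤ)) = 3 := by norm_num
    rw [h5, h4]
    omega
  · have h4 := numI1_ph 1 (Or.inl rfl) s h3
    omega

private lemma nr1_val_two (a n R : ℕ) (h : GI 1 a n R) (hp : 2 ≤ R) :
    padicValInt 2 ((a : ℤ) - 2 * ((n + 1 : ℕ) : ℤ) - 1) ≤ 3 := by
  have h1 := nr1_val a n R 1 2 h hp le_rfl le_rfl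
  have h5 : (2 + ((1 : ℕ) : ℤ)) = 3 := by norm_num
  rw [h5, numI1_val.1] at h1
  have h6 : ((a : ℤ) - 2 * ((n + 1 : ℕ) : ℤ) - ((1 : ℕ) : ℤ)) =
      ((a : ℤ) - 2 * ((n + 1 : ℕ) : ℤ) - 1) := by norm_num
  rw [h6] at h1
  exact h1.le

private lemma nr1_L (e : Bool) (a n R p : ℕ) (h : GI 1 a n R) (hip : 1 ≤ p) (hp : p ≤ R)
    (hn : (n + 1) % 2 = bif e then 0 else 1) :
    V (-2 * ((p : ℤ) - 1)) (Lf e (a : ℚ) (n + 1) (p - 1)) := by
  have ha := h.ha
  have hodd := nr1_odd a n R h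
  rcases Nat.lt_or_ge p 3 with h3 | h3
  · rcases Nat.lt_or_ge p 2 with h2 | h2
    · obtain rfl : p = 1 := by omega
      have h4 := V_Lf e a (n + 1) 0 0 (by omega) (by intro s h1 h2; omega)
      exact h4.mono (by norm_num)
    · obtain rfl : p = 2 := by omega
      have h4 := V_Lf_gain e a (n + 1) 3 hodd hn (by omega) (nr1_val_two a n R h hp)
      exact h4.mono (by norm_num)
  · have h4 := V_Lf e a (n + 1) (p - 1) (2 * (p - 1)) (by omega)
      (fun s h1 h2 => nr1_val_le a n R s p h hp h3 h1 h2)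
    exact h4.mono (by omega)

private lemma nr1_U (e : Bool) (a n R p : ℕ) (h : GI 1 a n R) (hip : 1 ≤ p) (hp : p ≤ R)
    (hn : (n + 1) % 2 = bif e then 0 else 1) :
    V (-2 * ((p : ℤ) - 1)) (Uf e (a : ℚ) (n + 1) (p - 1)) := by
  have ha := h.ha
  have hodd := nr1_odd a n R h
  rcases Nat.lt_or_ge p 3 with h3 | h3
  · rcases Nat.lt_or_ge p 2 with h2 | h2
    · obtain rfl : p = 1 := by omega
      have h4 := V_Uf e a (n + 1) 0 0 (by omega) (by intro s h1 h2; omega)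
      exact h4.mono (by norm_num)
    · obtain rfl : p = 2 := by omega
      have h4 := V_Uf_gain e a (n + 1) 3 hodd hn (by omega) (nr1_val_two a n R h hp)
      exact h4.mono (by norm_num)
  · have h4 := V_Uf e a (n + 1) (p - 1) (2 * (p - 1)) (by omega)
      (fun s h1 h2 => nr1_val_le a n R s p h hp h3 h1 h2)
    exact h4.mono (by omega)

private lemma nr1_f3 : padicValNat 2 (3 * 1).factorial = 1 := by
  have h : (3 * 1).factorial = 2 * 3 := by decide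
  rw [h, padicValNat.mul (by norm_num) (by norm_num), padicValNat_self,
    padicValNat.eq_zero_of_not_dvd (by norm_num : ¬ 2 ∣ 3)]

theorem nearR1 (e : Bool) (c : ℤ) (a n R p q : ℕ) (h : GI c a n R) (hip : 1 ≤ p)
    (hiq : 1 ≤ q) (hp : p ≤ R) (hq : q ≤ R) :
    V (2 - 2 * p - 2 * q)
      (Lf e (a : ℚ) (n + 1) (p - 1) * (Dd e (a : ℚ) (n + 1) / Dd e (a : ℚ) n) *
        Uf e (a : ℚ) (n + 1) (q - 1)) := by
  have ha := h.ha
  have hn1 := h.hn
  have hS := sS_eq c a n R 1 h (by omega)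
  obtain ⟨s1, hs1, hL⟩ := mu_L e c a n R 1 p h hip hp
  obtain ⟨s2, hs2, hU⟩ := mu_U e c a n R 1 q h hiq hq
  rcases h.hc with rfl | rfl
  · rw [numI1_val.2.2.1] at hS
    have hodd := nr1_odd a n R h
    by_cases hn : n % 2 = bif e then 0 else 1
    · have hD := V_Dd_ratio_odd e a n hn1 (by omega) hodd hn
      rw [hS] at hD
      have b1 := nr1_phz1 s1
      have b2 := nr1_phz1 s2
      refine ((hL.mul hD).mul hU).mono ?_
      omega
    · have hn' : (n + 1) % 2 = bif e then 0 else 1 := by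
        cases e
        · simp only [cond_false] at hn ⊢
          omega
        · simp only [cond_true] at hn ⊢
          omega
      have hD := V_Dd_ratio e a n 1 hn1 (by omega)
      rw [hS, nr1_f3] at hD
      refine (((nr1_L e a n R p h hip hp hn').mul hD).mul (nr1_U e a n R q h hiq hq hn')).mono ?_
      omega
  · rw [numI1_val.2.2.2] at hS
    have heven := nr1_even a n R h
    have hD := V_Dd_ratio_even e a n hn1 (by omega) heven
    rw [hS] at hD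
    have b1 := nr1_phz2 s1
    have b2 := nr1_phz2 s2
    refine ((hL.mul hD).mul hU).mono ?_
    omega

end Pool.Agent.GV
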