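import Pool.Agent.GV.VAL.Crude
import Pool.Agent.GV.VAL.NearR
import Pool.Agent.GV.VAL.NearR1

/-!
# GV-VAL-FourRR: the Schur complement, all entries

Plan (imports sorried).
* Far case `L > n + R` or `P' > n + R`: `B` integral (`V_B`), `BI` is `V (-(3Λ+1))` (`crude_BI`), so
  the whole expression is `V (-(3Λ+1))`; and
  `2 + v(D_n) - 2(L-n) - 2(P'-n) ≤ 2 + (Λ+1) - 2(R+1) - 2 ≤ -(3Λ+1)`.
* Near case: `BI_schur` with `M = n + R`; the term `k = n + i` (`1 ≤ i`) vanishes unless `k ≤ L`,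
  `k ≤ P'`; with `L = n + p`, `P' = n + q`:
  `Lf (n+i) (p-i) * D(n+i) * Uf (n+i) (q-i) = D_n * (Lf * (D(n+i)/D_n) * Uf)`, `nearR` (`i ≥ 2`),
  `nearR1` (`i = 1`) give `V (2 - 2p - 2q)`, and `D_n` is `V (v(D_n))`.
-/

set_option autoImplicit false

namespace Pool.Agent.GV

open Finset

private theorem frr_far (e : Bool) (a n Λ : ℕ) (hΛ : a < 2 ^ Λ) (h3 : 3 * n < a) (L P' : ℕ) :
    V (-(3 * (Λ : ℤ) + 1))
      (B e (a : ℚ) L P' -
        ∑ J ∈ Icc 1 n, (∑ K ∈ Icc 1 n, B e (a : ℚ) L K * BI e a n K J) * B e (a : ℚ) J P') := by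
  refine ((V_B e a L P').mono (by omega)).sub (V.sum fun J _ => ?_)
  refine V.mul' (c := -(3 * (Λ : ℤ) + 1)) (d := 0) (V.sum fun K _ => ?_) (V_B e a J P') (by omega)
  exact V.mul' (V_B e a L K) (crude_BI e a n Λ K J hΛ h3) (by omega)

private theorem frr_term (e : Bool) (c : ℤ) (a n R : ℕ) (h : GI c a n R) (p q i : ℕ)
    (hi : 1 ≤ i) (hip : i ≤ p) (hiq : i ≤ q) (hp : p ≤ R) (hq : q ≤ R) :
    V (2 + padicValRat 2 (Dd e (a : ℚ) n) - 2 * p - 2 * q)
      (Lf e (a : ℚ) (n + i) (p - i) * Dd e (a : ℚ) (n + i) * Uf e (a : ℚ) (n + i) (q - i)) := by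
  have ha := h.ha
  have hD : Dd e (a : ℚ) n ≠ 0 := Dd_ne_zero e a n h.hn (by omega)
  have h1 : V (2 - 2 * p - 2 * q)
      (Lf e (a : ℚ) (n + i) (p - i) * (Dd e (a : ℚ) (n + i) / Dd e (a : ℚ) n) *
        Uf e (a : ℚ) (n + i) (q - i)) := by
    rcases Nat.lt_or_ge i 2 with h2 | h2
    · obtain rfl : i = 1 := by omega
      exact nearR1 e c a n R p q h hip hiq hp hq
    · exact nearR e c a n R i p q h h2 hip hiq hp hq
  have h2 : Lf e (a : ℚ) (n + i) (p - i) * Dd e (a : ℚ) (n + i) * Uf e (a : ℚ) (n + i) (q - i) =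
      Dd e (a : ℚ) n *
      (Lf e (a : ℚ) (n + i) (p - i) * (Dd e (a : ℚ) (n + i) / Dd e (a : ℚ) n) *
        Uf e (a : ℚ) (n + i) (q - i)) := by
    field_simp
  rw [h2]
  exact V.mul' (V_of_le (le_refl (padicValRat 2 (Dd e (a : ℚ) n)))) h1 (by omega)

theorem fourRR (e : Bool) (c : ℤ) (a n R Λ : ℕ) (h : GI c a n R) (hΛ : a < 2 ^ Λ)
    (hR : 4 * Λ + 8 ≤ R) (L P' : ℕ) (hL : n + 1 ≤ L) (hP : n + 1 ≤ P') :
    V (2 + padicValRat 2 (Dd e (a : ℚ) n) - 2 * ((L : ℤ) - n) - 2 * ((P' : ℤ) - n))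
      (B e (a : ℚ) L P' -
        ∑ J ∈ Icc 1 n, (∑ K ∈ Icc 1 n, B e (a : ℚ) L K * BI e a n K J) * B e (a : ℚ) J P') := by
  have ha := h.ha
  have hn := h.hn
  by_cases hfar : n + R < L ∨ n + R < P'
  · have h1 := (val_Dd_bound e a n Λ hn (by omega) hΛ).2
    refine (frr_far e a n Λ hΛ (by omega) L P').mono ?_
    omega
  · rw [not_or, not_lt, not_lt] at hfar
    obtain ⟨hL2, hP2⟩ := hfar
    rw [BI_schur e a n (n + R) (by omega) (by omega) L P' (mem_Icc.2 ⟨by omega, hL2⟩)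
      (mem_Icc.2 ⟨by omega, hP2⟩)]
    refine V.sum fun k hk => ?_
    rw [mem_Icc] at hk
    by_cases hkL : L < k
    · unfold lowM
      rw [if_pos hkL, zero_mul, zero_mul]
      exact V_zero _
    · by_cases hkP : P' < k
      · unfold uppM
        rw [if_pos hkP, mul_zero]
        exact V_zero _
      · unfold lowM uppM
        rw [if_neg hkL, if_neg hkP]
        obtain ⟨i, rfl⟩ : ∃ i, k = n + i := ⟨k - n, by omega⟩
        obtain ⟨p, rfl⟩ : ∃ p, L = n + p := ⟨L - n, by omega⟩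
        obtain ⟨q, rfl⟩ : ∃ q, P' = n + q := ⟨P' - n, by omega⟩
        have e1 : n + p - (n + i) = p - i := by omega
        have e2 : n + q - (n + i) = q - i := by omega
        rw [e1, e2]
        refine (frr_term e c a n R h p q i (by omega) (by omega) (by omega) (by omega)
          (by omega)).mono ?_
        push_cast
        omega

end Pool.Agent.GV
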