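import Pool.Agent.GV.VAL.FourLL
import Pool.Agent.GV.VAL.FourRL
import Pool.Agent.GV.VAL.FourRR
import Pool.Agent.GV.LA.Defs

/-!
# GV-VAL-Asm: a good index satisfies `Good`

With `w = 1` (`e`) or `1/2`, `w' = 0` or `1` (so `w = 2^(-w')`), `τ = 4 n - w' + v(D_n) + 1`.

Plan (imports sorried).  `Sm x ↔ V 1 x` (unfold: `(2:ℚ)^(-1) = 1/2`).  Indices `i : Fin n` ↔
`I = i + 1`.
* `Y i j = 2^τ * w⁻¹ * 4^(-(I+J)) * BI I J` (`zpow`): `bA * Y = 2^τ • 1` from `BI_inv` (the powers of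
  `4` cancel: `Mp I K = w 4^(I+K) B I K`, `4^K * 4^(-(K+J))`, and `4^(I-J) = 1` for `I = J`).
  `Sm`: `V_two_zpow_mul` and `fourLL`: `v ≥ τ + w' - 2I - 2J - v(D_n) - 2(n-I) - 2(n-J) = 1`.
* `X l i = 4^(L-I) * ∑_J B L J * BI J I`, `L = n + l + 1`: `X * bA = bC` (associativity and
  `∑_I BI J I * B I K = δ`: left inverse, from `BI_inv` by `Matrix.mul_eq_one_comm`); `Sm` by
  `fourRL`: `2(L-I) + 1 - 2(L-I) = 1`.
* `Q i l = 4^(L-I) * ∑_J BI I J * B J L`: `bA * Q = bB` by `BI_inv`; `Sm` by `fourLR`.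
* `Z l p = 2^(-τ) * w * 4^(L+P) * (B L P - ∑_J (∑_K B L K BI K J) B J P)`; `Sm` by `fourRR`:
  `-τ - w' + 2L + 2P + 2 + v(D_n) - 2(L-n) - 2(P-n) = 1`.
It is convenient to work with the four matrices over `Fin n`, `Fin (a-1-n)` and diagonal matrices
`diag(4^I)`.  `3 n < a` and `n ≤ a - 1` by `GI.ha`.
-/

set_option autoImplicit false

namespace Pool.Agent.GV

private theorem asm_sum (n : ℕ) (f : ℕ → ℚ) :
    ∑ j : Fin n, f (j + 1) = ∑ J ∈ Finset.Icc 1 n, f J := by
  induction n with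
  | zero => simp
  | succ n ih =>
    rw [Fin.sum_univ_castSucc, Finset.sum_Icc_succ_top (by omega), ← ih]
    simp

private theorem asm_Sm {x : ℚ} (N : ℤ) {y : ℚ} (hx : x = 2 ^ N * y) (hy : V (1 - N) y) : Sm x := by
  have h : V 1 x := by
    rw [hx, V_two_zpow_mul]
    exact hy
  unfold V at h
  unfold Sm
  rw [zpow_neg, zpow_one] at h
  rw [one_div]
  exact h

/-- the plain block of `B` -/
private def asmM (e : Bool) (a : ℕ) (p q s t : ℕ) : Matrix (Fin p) (Fin q) ℚ :=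
  Matrix.of fun i j => B e (a : ℚ) (s + i + 1) (t + j + 1)

private def asmI (e : Bool) (a n : ℕ) : Matrix (Fin n) (Fin n) ℚ :=
  Matrix.of fun i j => BI e a n (i + 1) (j + 1)

private def asmD (p s : ℕ) : Matrix (Fin p) (Fin p) ℚ :=
  Matrix.diagonal fun i => (4 : ℚ) ^ (s + (i : ℕ) + 1)

private def asmE (p s : ℕ) : Matrix (Fin p) (Fin p) ℚ :=
  Matrix.diagonal fun i => ((4 : ℚ) ^ (s + (i : ℕ) + 1))⁻¹

private theorem asm_DE (p s : ℕ) : asmD p s * asmE p s = 1 := by
  unfold asmD asmE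
  rw [Matrix.diagonal_mul_diagonal, ← Matrix.diagonal_one]
  congr 1
  funext i
  exact mul_inv_cancel₀ (by positivity)

private theorem asm_ED (p s : ℕ) : asmE p s * asmD p s = 1 := by
  unfold asmD asmE
  rw [Matrix.diagonal_mul_diagonal, ← Matrix.diagonal_one]
  congr 1
  funext i
  exact inv_mul_cancel₀ (by positivity)

/-- the factor `w` -/
private def asmw (e : Bool) : ℚ := bif e then 1 else 1 / 2

private theorem asmw_eq (e : Bool) : asmw e = (2 : ℚ) ^ (-(bif e then (0 : ℤ) else 1)) := by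
  cases e <;> simp [asmw]

private theorem asmw_ne (e : Bool) : asmw e ≠ 0 := by
  rw [asmw_eq]
  positivity

private theorem asm_four (m : ℕ) : (4 : ℚ) ^ m = (2 : ℚ) ^ (2 * (m : ℤ)) := by
  rw [zpow_mul]
  norm_num

private theorem asm_block (e : Bool) (a p q s t : ℕ) (M : Matrix (Fin p) (Fin q) ℚ)
    (hM : ∀ i j, M i j = Mp e a (s + i + 1) (t + j + 1)) :
    M = asmw e • (asmD p s * asmM e a p q s t * asmD q t) := by
  ext i j
  rw [hM, Matrix.smul_apply]
  unfold asmD asmM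
  rw [Matrix.mul_diagonal, Matrix.diagonal_mul, Matrix.of_apply, smul_eq_mul]
  unfold Mp asmw
  rw [pow_add 4 (s + (i : ℕ) + 1) (t + (j : ℕ) + 1)]
  ring

theorem good_of_GI (e : Bool) (c : ℤ) (a n R Λ : ℕ) (h : GI c a n R) (hΛ : a < 2 ^ Λ)
    (hR : 4 * Λ + 8 ≤ R) :
    Good e a n (4 * n - (bif e then 0 else 1) + padicValRat 2 (Dd e (a : ℚ) n) + 1) := by
  set v : ℤ := padicValRat 2 (Dd e (a : ℚ) n) with hv
  set w' : ℤ := (bif e then 0 else 1) with hw'
  set τ : ℤ := 4 * n - w' + v + 1 with hτ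
  have ha := h.ha
  have h3n : 3 * n < a := by omega
  have hcast : ((bif e then (0 : ℤ) else 1)) = w' := rfl
  -- the blocks
  set b11 : Matrix (Fin n) (Fin n) ℚ := asmM e a _ _ 0 0 with hb11
  set b12 : Matrix (Fin n) (Fin (a - 1 - n)) ℚ := asmM e a _ _ 0 n with hb12
  set b21 : Matrix (Fin (a - 1 - n)) (Fin n) ℚ := asmM e a _ _ n 0 with hb21
  set b22 : Matrix (Fin (a - 1 - n)) (Fin (a - 1 - n)) ℚ := asmM e a _ _ n n with hb22
  set D : Matrix (Fin n) (Fin n) ℚ := asmD n 0 with hD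
  set D' : Matrix (Fin (a - 1 - n)) (Fin (a - 1 - n)) ℚ := asmD (a - 1 - n) n with hD'
  set E : Matrix (Fin n) (Fin n) ℚ := asmE n 0 with hE
  have hDE : D * E = 1 := asm_DE n 0
  have hED : E * D = 1 := asm_ED n 0
  set bi := asmI e a n with hbi
  have hA : bA e a n = asmw e • (D * b11 * D) := asm_block e a n n 0 0 (bA e a n) (by
    intro i j; simp [bA])
  have hB : bB e a n = asmw e • (D * b12 * D') := asm_block e a n _ 0 n (bB e a n) (by
    intro i j; simp [bB])
  have hC : bC e a n = asmw e • (D' * b21 * D) := asm_block e a _ n n 0 (bC e a n) (by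
    intro i j; simp [bC])
  have hDD : bD e a n = asmw e • (D' * b22 * D') := asm_block e a _ _ n n (bD e a n) (by
    intro i j; simp [bD])
  have hinv : b11 * bi = 1 := by
    ext i k
    rw [Matrix.mul_apply, Matrix.one_apply]
    have := BI_inv e a n h3n (i + 1) (k + 1) (by simp) (by simp)
    rw [← asm_sum n (fun J => B e (a : ℚ) (i + 1) J * BI e a n J (k + 1))] at this
    have h2 : ∑ j, b11 i j * bi j k =
        ∑ j : Fin n, B e (a : ℚ) (i + 1) (j + 1) * BI e a n (j + 1) (k + 1) := by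
      refine Finset.sum_congr rfl fun j _ => ?_
      simp [hb11, hbi, asmM, asmI]
    rw [h2, this]
    by_cases hik : i = k
    · simp [hik]
    · rw [if_neg hik, if_neg]
      intro h'
      exact hik (Fin.ext (by omega))
  have hinv' : bi * b11 = 1 := mul_eq_one_comm.1 hinv
  refine ⟨by omega, ((2 : ℚ) ^ τ * (asmw e)⁻¹) • (E * bi * E), D' * (b21 * bi) * E,
    E * (bi * b12) * D', ((2 : ℚ) ^ (-τ) * asmw e) • (D' * (b22 - b21 * bi * b12) * D'),
    ?_, ?_, ?_, ?_, ?_, ?_, ?_, ?_⟩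
  · rw [hA, Matrix.smul_mul, Matrix.mul_smul, smul_smul]
    have h1 : D * b11 * D * (E * bi * E) = 1 := by
      calc D * b11 * D * (E * bi * E) = D * b11 * (D * E) * bi * E := by
            simp only [Matrix.mul_assoc]
        _ = D * (b11 * bi) * E := by rw [hDE, Matrix.mul_one]; simp only [Matrix.mul_assoc]
        _ = 1 := by rw [hinv, Matrix.mul_one, hDE]
    rw [h1]
    congr 1
    field_simp [asmw_ne e]
  · rw [hA, hC, Matrix.mul_smul]
    congr 1
    calc D' * (b21 * bi) * E * (D * b11 * D) = D' * b21 * bi * (E * D) * b11 * D := by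
          simp only [Matrix.mul_assoc]
      _ = D' * b21 * (bi * b11) * D := by rw [hED, Matrix.mul_one]; simp only [Matrix.mul_assoc]
      _ = D' * b21 * D := by rw [hinv', Matrix.mul_one]
  · rw [hA, hB, Matrix.smul_mul]
    congr 1
    calc D * b11 * D * (E * (bi * b12) * D') = D * b11 * (D * E) * bi * b12 * D' := by
          simp only [Matrix.mul_assoc]
      _ = D * (b11 * bi) * b12 * D' := by rw [hDE, Matrix.mul_one]; simp only [Matrix.mul_assoc]
      _ = D * b12 * D' := by rw [hinv, Matrix.mul_one]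
  · rw [hDD, hB, Matrix.mul_smul, smul_smul, ← smul_sub]
    have h1 : D' * (b21 * bi) * E * (D * b12 * D') = D' * (b21 * bi * b12) * D' := by
      calc D' * (b21 * bi) * E * (D * b12 * D') = D' * b21 * bi * (E * D) * b12 * D' := by
            simp only [Matrix.mul_assoc]
        _ = D' * (b21 * bi * b12) * D' := by
            rw [hED, Matrix.mul_one]; simp only [Matrix.mul_assoc]
    rw [h1, ← Matrix.sub_mul, ← Matrix.mul_sub]
    congr 1
    rw [← mul_assoc, ← zpow_add₀ (by norm_num : (2 : ℚ) ≠ 0)]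
    simp
  · intro i j
    refine asm_Sm (τ + w' - 2 * ((i : ℕ) + 1 : ℕ) - 2 * ((j : ℕ) + 1 : ℕ))
      (y := BI e a n (i + 1) (j + 1)) ?_ ?_
    · rw [Matrix.smul_apply, hE, hbi]
      unfold asmE asmI
      rw [Matrix.mul_diagonal, Matrix.diagonal_mul, Matrix.of_apply, smul_eq_mul, asmw_eq, hcast,
        asm_four, asm_four, ← zpow_neg, ← zpow_neg, ← zpow_neg, zero_add, zero_add]
      have e1 : (2 : ℚ) ^ (τ + w' - 2 * ((i : ℕ) + 1 : ℕ) - 2 * ((j : ℕ) + 1 : ℕ)) =
          2 ^ τ * 2 ^ (- -w') * 2 ^ (-(2 * (((i : ℕ) + 1 : ℕ) : ℤ))) *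
            2 ^ (-(2 * (((j : ℕ) + 1 : ℕ) : ℤ))) := by
        rw [← zpow_add₀ (by norm_num), ← zpow_add₀ (by norm_num), ← zpow_add₀ (by norm_num)]
        congr 1
        ring
      rw [e1]
      ring
    · have := fourLL e c a n R Λ h hΛ hR (i + 1) (j + 1) (by simp) (by simp)
      refine this.mono (le_of_eq ?_)
      rw [hτ]
      ring
  · intro l i
    refine asm_Sm (2 * ((n + (l : ℕ) + 1 : ℕ) : ℤ) - 2 * ((i : ℕ) + 1 : ℕ))
      (y := ∑ J ∈ Finset.Icc 1 n, B e (a : ℚ) (n + l + 1) J * BI e a n J (i + 1)) ?_ ?_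
    · rw [hE, hD']
      unfold asmE asmD
      rw [Matrix.mul_diagonal, Matrix.diagonal_mul, asm_four, asm_four, ← zpow_neg, zero_add,
        ← asm_sum n (fun J => B e (a : ℚ) (n + l + 1) J * BI e a n J (i + 1)), Matrix.mul_apply]
      have h2 : ∑ j, b21 l j * bi j i =
          ∑ j : Fin n, B e (a : ℚ) (n + l + 1) (j + 1) * BI e a n (j + 1) (i + 1) := by
        refine Finset.sum_congr rfl fun j _ => ?_
        simp [hb21, hbi, asmM, asmI]
      rw [h2, sub_eq_add_neg, zpow_add₀ (by norm_num : (2 : ℚ) ≠ 0)]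
      ring
    · have := fourRL e c a n R Λ h hΛ hR (n + l + 1) (i + 1) (by omega) (by simp)
      refine this.mono (le_of_eq ?_)
      ring
  · intro i l
    refine asm_Sm (2 * ((n + (l : ℕ) + 1 : ℕ) : ℤ) - 2 * ((i : ℕ) + 1 : ℕ))
      (y := ∑ J ∈ Finset.Icc 1 n, BI e a n (i + 1) J * B e (a : ℚ) J (n + l + 1)) ?_ ?_
    · rw [hE, hD']
      unfold asmE asmD
      rw [Matrix.mul_diagonal, Matrix.diagonal_mul, asm_four, asm_four, ← zpow_neg, zero_add,
        ← asm_sum n (fun J => BI e a n (i + 1) J * B e (a : ℚ) J (n + l + 1)), Matrix.mul_apply]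
      have h2 : ∑ j, bi i j * b12 j l =
          ∑ j : Fin n, BI e a n (i + 1) (j + 1) * B e (a : ℚ) (j + 1) (n + l + 1) := by
        refine Finset.sum_congr rfl fun j _ => ?_
        simp [hb12, hbi, asmM, asmI]
      rw [h2, sub_eq_add_neg, zpow_add₀ (by norm_num : (2 : ℚ) ≠ 0)]
      ring
    · have := fourLR e c a n R Λ h hΛ hR (i + 1) (n + l + 1) (by simp) (by omega)
      refine this.mono (le_of_eq ?_)
      ring
  · intro l p
    refine asm_Sm (-τ - w' + 2 * ((n + (l : ℕ) + 1 : ℕ) : ℤ) + 2 * ((n + (p : ℕ) + 1 : ℕ) : ℤ))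
      (y := B e (a : ℚ) (n + l + 1) (n + p + 1) -
        ∑ J ∈ Finset.Icc 1 n, (∑ K ∈ Finset.Icc 1 n, B e (a : ℚ) (n + l + 1) K * BI e a n K J) *
          B e (a : ℚ) J (n + p + 1)) ?_ ?_
    · rw [Matrix.smul_apply, hD']
      unfold asmD
      rw [Matrix.mul_diagonal, Matrix.diagonal_mul, smul_eq_mul, asmw_eq, hcast, asm_four,
        asm_four, Matrix.sub_apply, Matrix.mul_apply,
        ← asm_sum n (fun J => (∑ K ∈ Finset.Icc 1 n, B e (a : ℚ) (n + l + 1) K * BI e a n K J) *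
          B e (a : ℚ) J (n + p + 1))]
      have h2 : ∑ j, (b21 * bi) l j * b12 j p = ∑ j : Fin n,
          (∑ K ∈ Finset.Icc 1 n, B e (a : ℚ) (n + l + 1) K * BI e a n K (j + 1)) *
            B e (a : ℚ) (j + 1) (n + p + 1) := by
        refine Finset.sum_congr rfl fun j _ => ?_
        rw [Matrix.mul_apply, ← asm_sum n (fun K => B e (a : ℚ) (n + l + 1) K * BI e a n K (j + 1))]
        congr 1
        · refine Finset.sum_congr rfl fun k _ => ?_
          simp [hb21, hbi, asmM, asmI]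
        · simp [hb12, asmM]
      have h3 : b22 l p = B e (a : ℚ) (n + l + 1) (n + p + 1) := by simp [hb22, asmM]
      rw [h2, h3, zpow_add₀ (by norm_num : (2 : ℚ) ≠ 0), zpow_add₀ (by norm_num : (2 : ℚ) ≠ 0),
        sub_eq_add_neg (-τ) w', zpow_add₀ (by norm_num : (2 : ℚ) ≠ 0)]
      ring
    · have := fourRR e c a n R Λ h hΛ hR (n + l + 1) (n + p + 1) (by omega) (by omega)
      refine this.mono (le_of_eq ?_)
      rw [hτ]
      push_cast
      ring

end Pool.Agent.GV
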