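import Pool.Agent.GV.VAL.Prod
import Pool.Agent.GV.CM.Ratio

/-!
# GV-VAL-DB: `|v_2(D(n))| ≤ Λ + 1` if `a < 2^Λ`, `3n < a`

Plan.  `D0 a n = (-1)^n / df n * P (a-2n-1) (n-1) * O (2a-2n-1) n / P (2a-3n-1) (n-1)`; `df`, `O`
are units; `P x m = m! * C(x, m)` (`x ≥ m` natural; `Nat.descFactorial_eq_factorial_mul_choose`,
`P (x : ℚ) m = x.descFactorial m`), so `v(D0) = v(C(a-2n-1, n-1)) - v(C(2a-3n-1, n-1))` and
`v_2(C(x, m)) ≤ Nat.log 2 x` (`Nat.factorization_choose_le_log`, `Nat.factorization_def`), with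
`Nat.log 2 x < Λ + 1` for `x < 2^(Λ+1)` (`Nat.log_lt_of_lt_pow`).
`D1 a n = (-1)^n / df n * P (a-2n-1) n * O (2a-2n-1) n / P (2a-3n) n`: same.
`Dd ≠ 0` is `Dd_ne_zero` (file CM/Ratio).
-/

set_option autoImplicit false

namespace Pool.Agent.GV

private lemma P_nat (x m : ℕ) (h : m ≤ x) :
    P (x : ℚ) m = (m.factorial : ℚ) * (x.choose m : ℚ) := by
  have h1 : P (x : ℚ) m = ((x.descFactorial m : ℕ) : ℚ) := by
    induction m with
    | zero => simp
    | succ m ih =>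
      rw [P_succ, ih (by omega), Nat.descFactorial_succ]
      push_cast [Nat.cast_sub (show m ≤ x by omega)]
      ring
  rw [h1, Nat.descFactorial_eq_factorial_mul_choose]
  push_cast
  ring

private lemma val_choose (x m Λ : ℕ) (h : m ≤ x) (hx : x < 2 ^ (Λ + 1)) :
    ∃ v : ℕ, v ≤ Λ ∧ padicValRat 2 (P (x : ℚ) m) = padicValNat 2 m.factorial + v := by
  refine ⟨padicValNat 2 (x.choose m), ?_, ?_⟩
  · rw [← Nat.factorization_def _ Nat.prime_two]
    refine (Nat.factorization_choose_le_log (p := 2)).trans ?_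
    rcases Nat.eq_zero_or_pos x with rfl | h0
    · simp
    · exact Nat.lt_succ_iff.1 (Nat.log_lt_of_lt_pow h0.ne' hx)
  · rw [P_nat x m h, padicValRat.mul (by exact_mod_cast Nat.factorial_ne_zero m)
      (by exact_mod_cast (Nat.choose_pos h).ne'), padicValRat.of_nat, padicValRat.of_nat]

private lemma val_core (n x y m Λ : ℕ) (z : ℤ) (hx : m ≤ x) (hy : m ≤ y)
    (hx2 : x < 2 ^ (Λ + 1)) (hy2 : y < 2 ^ (Λ + 1)) :
    -((Λ : ℤ) + 1) ≤ padicValRat 2
        ((-1) ^ n / df n * P (x : ℚ) m * O (2 * (z : ℚ) + 1) n / P (y : ℚ) m) ∧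
      padicValRat 2
        ((-1) ^ n / df n * P (x : ℚ) m * O (2 * (z : ℚ) + 1) n / P (y : ℚ) m) ≤ (Λ : ℤ) + 1 := by
  have h1 : P (x : ℚ) m ≠ 0 := P_ne_zero (by
    have : (m : ℚ) ≤ x := by exact_mod_cast hx
    linarith)
  have h2 : P (y : ℚ) m ≠ 0 := P_ne_zero (by
    have : (m : ℚ) ≤ y := by exact_mod_cast hy
    linarith)
  have h3 : O (2 * (z : ℚ) + 1) n ≠ 0 := O_odd_ne_zero z n
  have h4 : ((-1 : ℚ) ^ n) ≠ 0 := by positivity
  have h5 : df n ≠ 0 := df_ne_zero n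
  obtain ⟨v, hv, hv'⟩ := val_choose x m Λ hx hx2
  obtain ⟨w, hw, hw'⟩ := val_choose y m Λ hy hy2
  have h6 : padicValRat 2 ((-1 : ℚ) ^ n) = 0 := by
    rw [padicValRat.pow]
    have : padicValRat 2 (-1 : ℚ) = 0 := by rw [padicValRat.neg]; simp
    rw [this]; simp
  rw [padicValRat.div (by positivity) h2, padicValRat.mul (by positivity) h3,
    padicValRat.mul (by positivity) h1, padicValRat.div h4 h5, h6, val_df, val_O_odd, hv', hw']
  constructor <;> omega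

theorem val_Dd_bound (e : Bool) (a n Λ : ℕ) (h1 : 1 ≤ n) (h3 : 3 * n < a) (hΛ : a < 2 ^ Λ) :
    -((Λ : ℤ) + 1) ≤ padicValRat 2 (Dd e (a : ℚ) n) ∧
      padicValRat 2 (Dd e (a : ℚ) n) ≤ (Λ : ℤ) + 1 := by
  have hpow : 2 ^ (Λ + 1) = 2 * 2 ^ Λ := by ring
  have hO : (2 * (a : ℚ) - 2 * n - 1) = 2 * (((a : ℤ) - n - 1 : ℤ) : ℚ) + 1 := by
    push_cast
    ring
  cases e with
  | false =>
    have hx : ((a : ℚ) - 2 * n - 1) = ((a - 2 * n - 1 : ℕ) : ℚ) := by
      rw [Nat.cast_sub (by omega), Nat.cast_sub (by omega)]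
      push_cast
      ring
    have hy : (2 * (a : ℚ) - 3 * n - 1) = ((2 * a - 3 * n - 1 : ℕ) : ℚ) := by
      rw [Nat.cast_sub (by omega), Nat.cast_sub (by omega)]
      push_cast
      ring
    have := val_core n (a - 2 * n - 1) (2 * a - 3 * n - 1) (n - 1) Λ ((a : ℤ) - n - 1)
      (by omega) (by omega) (by omega) (by omega)
    simp only [Dd, cond_false, D0, hx, hy, hO]
    exact this
  | true =>
    have hx : ((a : ℚ) - 2 * n - 1) = ((a - 2 * n - 1 : ℕ) : ℚ) := by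
      rw [Nat.cast_sub (by omega), Nat.cast_sub (by omega)]
      push_cast
      ring
    have hy : (2 * (a : ℚ) - 3 * n) = ((2 * a - 3 * n : ℕ) : ℚ) := by
      rw [Nat.cast_sub (by omega)]
      push_cast
      ring
    have := val_core n (a - 2 * n - 1) (2 * a - 3 * n) n Λ ((a : ℤ) - n - 1)
      (by omega) (by omega) (by omega) (by omega)
    simp only [Dd, cond_true, D1, hx, hy, hO]
    exact this

end Pool.Agent.GV
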