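import Pool.Agent.GV.VAL.Form
import Pool.Agent.GV.VAL.EntL
import Pool.Agent.GV.VAL.EntU
import Pool.Agent.GV.VAL.DB
import Pool.Agent.GV.CM.Bshift

/-!
# GV-VAL-Crude: crude 2-adic bounds (`a < 2^Λ`)

Plan (imports sorried).  `crude_*`: `V_Lf` etc. with `μ = Λ`: a positive integer `x < 2^Λ` has
`v_2(x) ≤ Λ` (`padicValInt`, `padicValNat_le_nat_log`-type lemma).  `crude_BI`: termwise
`V (-Λ)`, `V (-(Λ+1))` (`val_Dd_bound`, `V_inv`), `V (-Λ)`; the terms with `uppM = 0` or `lowM = 0`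
vanish; for `m ≤ n` the hypotheses `2 m < a` hold.  `V_B`: `B_int` and `V_int`.
-/

set_option autoImplicit false

namespace Pool.Agent.GV

private lemma crude_val {x : ℤ} {Λ : ℕ} (h0 : 0 < x) (h1 : x < 2 ^ Λ) : padicValInt 2 x ≤ Λ := by
  unfold padicValInt
  refine (padicValNat_le_nat_log x.natAbs).trans ?_
  refine (Nat.log_lt_of_lt_pow (by omega) ?_).le
  have h2 : ((x.natAbs : ℕ) : ℤ) < ((2 ^ Λ : ℕ) : ℤ) := by
    rw [Int.natAbs_of_nonneg h0.le]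
    push_cast
    exact h1
  exact_mod_cast h2

theorem crude_L (e : Bool) (a Λ i k : ℕ) (hΛ : a < 2 ^ Λ) (h : k + i < a) :
    V (-(Λ : ℤ)) (lowM (Lf e (a : ℚ)) i k) := by
  have hΛ' : (a : ℤ) < 2 ^ Λ := by exact_mod_cast hΛ
  unfold lowM
  split_ifs with hik
  · exact V_zero _
  · refine V_Lf e a k (i - k) Λ (by omega) fun s h1 h2 => crude_val (by omega) ?_
    have h3 : (a : ℤ) - 2 * k - s ≤ a := by omega
    exact h3.trans_lt hΛ'

theorem crude_U (e : Bool) (a Λ k i : ℕ) (hΛ : a < 2 ^ Λ) (h : k + i < a) :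
    V (-(Λ : ℤ)) (uppM (Uf e (a : ℚ)) k i) := by
  have hΛ' : (a : ℤ) < 2 ^ Λ := by exact_mod_cast hΛ
  unfold uppM
  split_ifs with hik
  · exact V_zero _
  · refine V_Uf e a k (i - k) Λ (by omega) fun s h1 h2 => crude_val (by omega) ?_
    have h3 : (a : ℤ) - 2 * k - s ≤ a := by omega
    exact h3.trans_lt hΛ'

theorem crude_Lt (e : Bool) (a Λ i k : ℕ) (hΛ : a < 2 ^ Λ) (h : 2 * i < a) :
    V (-(Λ : ℤ)) (lowM (Ltf e (a : ℚ)) i k) := by
  have hΛ' : (a : ℤ) < 2 ^ Λ := by exact_mod_cast hΛ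
  unfold lowM
  split_ifs with hik
  · exact V_zero _
  · refine V_Ltf e a k (i - k) Λ (by omega) fun s h1 h2 => crude_val (by omega) ?_
    have h3 : (a : ℤ) - 2 * (k + (i - k : ℕ)) + s ≤ a := by omega
    exact h3.trans_lt hΛ'

theorem crude_Ut (e : Bool) (a Λ k i : ℕ) (hΛ : a < 2 ^ Λ) (h : 2 * i < a) :
    V (-(Λ : ℤ)) (uppM (Utf e (a : ℚ)) k i) := by
  have hΛ' : (a : ℤ) < 2 ^ Λ := by exact_mod_cast hΛ
  unfold uppM
  split_ifs with hik
  · exact V_zero _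
  · refine V_Utf e a k (i - k) Λ (by omega) fun s h1 h2 => crude_val (by omega) ?_
    have h3 : (a : ℤ) - 2 * (k + (i - k : ℕ)) + s ≤ a := by omega
    exact h3.trans_lt hΛ'

theorem V_B (e : Bool) (a l j : ℕ) : V 0 (B e (a : ℚ) l j) := by
  obtain ⟨w, hw⟩ := B_int e a l j
  rw [hw]
  exact V_int w

theorem crude_BI (e : Bool) (a n Λ I J : ℕ) (hΛ : a < 2 ^ Λ) (h : 3 * n < a) :
    V (-(3 * (Λ : ℤ) + 1)) (BI e a n I J) := by
  unfold BI
  refine V.sum fun m hm => ?_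
  rw [Finset.mem_Icc] at hm
  have h1 := crude_Ut e a Λ I m hΛ (by omega)
  have h2 := crude_Lt e a Λ m J hΛ (by omega)
  have h3 : V (-((Λ : ℤ) + 1)) ((Dd e (a : ℚ) m)⁻¹) :=
    V_inv (val_Dd_bound e a m Λ hm.1 (by omega) hΛ).2
  refine ((h1.mul h3).mul h2).mono ?_
  omega

end Pool.Agent.GV
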