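import Pool.Agent.GV.VAL.Prod
import Pool.Agent.GV.CM.Ratio

/-!
# GV-VAL-DRid: `D(n + l) / D(n)` as an explicit product, up to a 2-adic unit

`D(n+l) * (4^l P(a-2n, 2l) P(a-2n-1, 2l)) = w * D(n) * num`, `w` a unit,
`num = P(a-3n, 3l) P(2a-3n-1, 3l)` (`e = 0`), `P(a-3n-1, 3l) P(2a-3n, 3l)` (`e = 1`).

Plan.  `P_add : P x (m+k) = P x m * P (x-m) k`.  With `x = a-2n-1`, `m = n-1` (`e = 0`):
`P x (2l) * P (x-2l) (m+l) = P x (m+3l) = P x m * P (x-m) (3l)`, `x - m = a - 3n`.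
With `w = 2a-3n-1`: `P w (3l) * P (w-3l) (m+l) = P w (m+4l) = P w m * P (w-m) (4l)`,
`w - m = 2a-4n`, and `P (2z) (4l) = 4^l * P z (2l) * O (2z-1) (2l)` (even and odd factors;
induction on `l`), `z = a - 2n`.  The factors `df`, `O (odd)` are units (`val_df`, `val_O_odd`);
`w` is a quotient of products of them (with a sign).  `e = 1`: `m = n`, `w = 2a - 3n`.
All `P`'s which are divided by are nonzero since `3(n+l) < a`.
-/

set_option autoImplicit false

namespace Pool.Agent.GV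

/-- the numerator -/
def dnum (e : Bool) (a n l : ℕ) : ℚ :=
  bif e then P ((a : ℚ) - 3 * n - 1) (3 * l) * P (2 * (a : ℚ) - 3 * n) (3 * l)
  else P ((a : ℚ) - 3 * n) (3 * l) * P (2 * (a : ℚ) - 3 * n - 1) (3 * l)

/-- even and odd factors of a falling product of even length at an even number -/
private lemma P_two_mul (z : ℚ) (k : ℕ) : P (2 * z) (2 * k) = 2 ^ k * P z k * O (2 * z - 1) k := by
  induction k with
  | zero => simp
  | succ k ih =>
    rw [show 2 * (k + 1) = 2 * k + 1 + 1 by ring, P_succ, P_succ, ih, P_succ, O_succ, pow_succ]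
    push_cast
    ring

/-- the same for length `4l` -/
private lemma P_two_mul4 (z : ℚ) (l : ℕ) :
    P (2 * z) (4 * l) = 4 ^ l * P z (2 * l) * O (2 * z - 1) (2 * l) := by
  rw [show 4 * l = 2 * (2 * l) by ring, P_two_mul, pow_mul]
  norm_num

/-- splitting a falling product in two ways -/
private lemma P_split (x : ℚ) (m k j r : ℕ) (h : k + j = m + r) :
    P (x - k) j * P x k = P x m * P (x - m) r := by
  rw [mul_comm, ← P_add, h, P_add]

private lemma quot_key {c c' X X' A B o o' Y Y' E G H : ℚ} (hc : c ≠ 0) (ho : o ≠ 0)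
    (hH : H ≠ 0) (hE : E ≠ 0) (hG : G ≠ 0) (hY : Y ≠ 0) (hA : A ≠ 0)
    (h1 : X' * A = X * B) (h2 : Y' * E = Y * (G * H)) :
    c' * X' * o' / Y' * (G * A) = (c' / c * (o' / (o * H))) * (c * X * o / Y) * (B * E) := by
  have hX : X' = X * B / A := eq_div_of_mul_eq hA h1
  have hY' : Y' = Y * (G * H) / E := eq_div_of_mul_eq hE h2
  rw [hX, hY']
  field_simp

private lemma val_unit_mul {x y : ℚ} (hx : x ≠ 0 ∧ padicValRat 2 x = 0)
    (hy : y ≠ 0 ∧ padicValRat 2 y = 0) : x * y ≠ 0 ∧ padicValRat 2 (x * y) = 0 :=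
  ⟨mul_ne_zero hx.1 hy.1, by rw [padicValRat.mul hx.1 hy.1, hx.2, hy.2]; rfl⟩

private lemma val_unit_div {x y : ℚ} (hx : x ≠ 0 ∧ padicValRat 2 x = 0)
    (hy : y ≠ 0 ∧ padicValRat 2 y = 0) : x / y ≠ 0 ∧ padicValRat 2 (x / y) = 0 :=
  ⟨div_ne_zero hx.1 hy.1, by rw [padicValRat.div hx.1 hy.1, hx.2, hy.2]; rfl⟩

private lemma unit_O (z : ℤ) (m : ℕ) :
    O (2 * (z : ℚ) + 1) m ≠ 0 ∧ padicValRat 2 (O (2 * (z : ℚ) + 1) m) = 0 :=
  ⟨O_odd_ne_zero z m, val_O_odd z m⟩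

private lemma unit_df (r : ℕ) : df r ≠ 0 ∧ padicValRat 2 (df r) = 0 :=
  ⟨df_ne_zero r, val_df r⟩

private lemma unit_sgn (r : ℕ) : ((-1 : ℚ) ^ r) ≠ 0 ∧ padicValRat 2 ((-1 : ℚ) ^ r) = 0 := by
  rcases Nat.even_or_odd r with h | h
  · rw [h.neg_one_pow]; simp
  · rw [h.neg_one_pow]
    refine ⟨by norm_num, ?_⟩
    rw [padicValRat.neg]; simp

/-- the unit -/
private lemma unit_w (a n l : ℕ) :
    ((-1 : ℚ) ^ (n + l) / df (n + l) / ((-1) ^ n / df n) *
      (O (2 * (a : ℚ) - 2 * (n + l : ℕ) - 1) (n + l) /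
        (O (2 * (a : ℚ) - 2 * n - 1) n * O (2 * ((a : ℚ) - 2 * n) - 1) (2 * l)))) ≠ 0 ∧
    padicValRat 2 ((-1 : ℚ) ^ (n + l) / df (n + l) / ((-1) ^ n / df n) *
      (O (2 * (a : ℚ) - 2 * (n + l : ℕ) - 1) (n + l) /
        (O (2 * (a : ℚ) - 2 * n - 1) n * O (2 * ((a : ℚ) - 2 * n) - 1) (2 * l)))) = 0 := by
  have e1 : 2 * (a : ℚ) - 2 * (n + l : ℕ) - 1 = 2 * (((a : ℤ) - (n + l : ℕ) - 1 : ℤ) : ℚ) + 1 := by
    push_cast; ring
  have e2 : 2 * (a : ℚ) - 2 * n - 1 = 2 * (((a : ℤ) - n - 1 : ℤ) : ℚ) + 1 := by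
    push_cast; ring
  have e3 : 2 * ((a : ℚ) - 2 * n) - 1 = 2 * (((a : ℤ) - 2 * n - 1 : ℤ) : ℚ) + 1 := by
    push_cast; ring
  rw [e1, e2, e3]
  exact val_unit_mul (val_unit_div (val_unit_div (unit_sgn _) (unit_df _))
    (val_unit_div (unit_sgn _) (unit_df _)))
    (val_unit_div (unit_O _ _) (val_unit_mul (unit_O _ _) (unit_O _ _)))

theorem Dd_ratio (e : Bool) (a n l : ℕ) (h1 : 1 ≤ n) (h : 3 * (n + l) < a) :
    ∃ w : ℚ, w ≠ 0 ∧ padicValRat 2 w = 0 ∧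
      Dd e (a : ℚ) (n + l) *
        (4 ^ l * P ((a : ℚ) - 2 * n) (2 * l) * P ((a : ℚ) - 2 * n - 1) (2 * l)) =
      w * Dd e (a : ℚ) n * dnum e a n l := by
  have hn : (3 : ℚ) * (n + l) + 1 ≤ a := by exact_mod_cast h
  have h1' : (1 : ℚ) ≤ n := by exact_mod_cast h1
  have hl : (0 : ℚ) ≤ l := by positivity
  refine ⟨_, (unit_w a n l).1, (unit_w a n l).2, ?_⟩
  have hA : P ((a : ℚ) - 2 * n - 1) (2 * l) ≠ 0 := P_ne_zero (by push_cast; linarith)
  have hG : (4 : ℚ) ^ l * P ((a : ℚ) - 2 * n) (2 * l) ≠ 0 :=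
    mul_ne_zero (by positivity) (P_ne_zero (by push_cast; linarith))
  have hH : O (2 * ((a : ℚ) - 2 * n) - 1) (2 * l) ≠ 0 := O_ne_zero (by push_cast; linarith)
  have ho : O (2 * (a : ℚ) - 2 * n - 1) n ≠ 0 := O_ne_zero (by linarith)
  have hc : (-1 : ℚ) ^ n / df n ≠ 0 := (val_unit_div (unit_sgn _) (unit_df _)).1
  cases e with
  | false =>
    simp only [Dd, D0, dnum, cond_false]
    obtain ⟨m, rfl⟩ : ∃ m, n = m + 1 := ⟨n - 1, by omega⟩
    have hE : P (2 * (a : ℚ) - 3 * (m + 1 : ℕ) - 1) (3 * l) ≠ 0 :=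
      P_ne_zero (by push_cast at *; linarith)
    have hY : P (2 * (a : ℚ) - 3 * (m + 1 : ℕ) - 1) (m + 1 - 1) ≠ 0 := by
      apply P_ne_zero
      rw [Nat.add_sub_cancel]
      push_cast at *; linarith
    refine quot_key hc ho hH hE hG hY hA ?_ ?_
    · have := P_split ((a : ℚ) - 2 * (m + 1 : ℕ) - 1) m (2 * l) (m + l) (3 * l) (by ring)
      rw [show m + 1 + l - 1 = m + l by omega, show m + 1 - 1 = m by omega]
      convert this using 3
      · push_cast; ring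
      · push_cast; ring
    · have := P_split (2 * (a : ℚ) - 3 * (m + 1 : ℕ) - 1) m (3 * l) (m + l) (4 * l) (by ring)
      rw [show m + 1 + l - 1 = m + l by omega, show m + 1 - 1 = m by omega, ← P_two_mul4]
      convert this using 3
      · push_cast; ring
      · push_cast; ring
  | true =>
    simp only [Dd, D1, dnum, cond_true]
    have hE : P (2 * (a : ℚ) - 3 * n) (3 * l) ≠ 0 := P_ne_zero (by push_cast; linarith)
    have hY : P (2 * (a : ℚ) - 3 * n) n ≠ 0 := P_ne_zero (by linarith)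
    refine quot_key hc ho hH hE hG hY hA ?_ ?_
    · have := P_split ((a : ℚ) - 2 * n - 1) n (2 * l) (n + l) (3 * l) (by ring)
      convert this using 3
      · push_cast; ring
      · ring
    · have := P_split (2 * (a : ℚ) - 3 * n) n (3 * l) (n + l) (4 * l) (by ring)
      rw [← P_two_mul4]
      convert this using 3
      · push_cast; ring
      · ring

end Pool.Agent.GV
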