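import Pool.Agent.GV.VAL.Idx

/-!
# GV-VAL-GIex: existence of good indices in short intervals

Plan.  `c = 1` if `a` odd, `c = 2` if `a` even.  `t ≥ 1` (`2^t > 16`).  Choose `u : ℤ` with
`3 u ≡ c mod 2^t` (`3` is invertible modulo `2^t`: `Int.gcd`, `Nat.Coprime`, `Int.exists_mul_emod_eq_one_of_coprime`
or `ZMod.unitOfCoprime`); then `u ≡ c ≡ a mod 2`, so `a - u = 2 b`; choose `n ∈ [N0, N0 + 2^t)` with
`n ≡ b mod 2^t` (`n = N0 + (b - N0) % 2^t`).  Then `3 (a - 2 n) ≡ 3 u ≡ c mod 2^t`.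
For `|r| ≤ 2R+2`: `3 (a - 2n - r) = (c - 3 r) + 2^t * w`, `0 < |c - 3r| ≤ 6 R + 8 < 2^t`
(`c = 1, 2` is not divisible by 3), so both sides have the same valuation (`< t`): `2^k` with
`k ≤ t` divides one iff it divides the other, and `2^t ∤ c - 3r`.  `v(3x) = v(x)`, `v(-x) = v(x)`.
`GI.ha`: `3 (n + R + 1) < 3 (N0 + 2^t + R + 1) < a`.
-/

set_option autoImplicit false

namespace Pool.Agent.GV

private theorem gie_val {d w : ℤ} {t : ℕ} (h0 : d ≠ 0) (hlt : |d| < 2 ^ t) :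
    padicValInt 2 (d + 2 ^ t * w) = padicValInt 2 d := by
  have hnd : ¬ (2 : ℤ) ^ t ∣ d := by
    intro h
    have h1 := Int.le_of_dvd (abs_pos.2 h0) ((dvd_abs _ _).2 h)
    omega
  have hne : d + 2 ^ t * w ≠ 0 := by
    intro h
    apply hnd
    have : d = 2 ^ t * (-w) := by linarith
    rw [this]
    exact dvd_mul_right _ _
  have iff1 : ∀ (k : ℕ) (x : ℤ), x ≠ 0 → ((2 : ℤ) ^ k ∣ x ↔ k ≤ padicValInt 2 x) := by
    intro k x hx
    have := padicValInt_dvd_iff (p := 2) k x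
    rw [show ((2 : ℕ) : ℤ) = 2 from rfl] at this
    rw [this]
    simp [hx]
  have hk : padicValInt 2 d < t := by
    by_contra hcon
    push Not at hcon
    exact hnd ((iff1 t d h0).2 hcon)
  apply le_antisymm
  · by_contra hcon
    push Not at hcon
    have h1 : (2 : ℤ) ^ (padicValInt 2 d + 1) ∣ d + 2 ^ t * w :=
      (iff1 _ _ hne).2 hcon
    have h2 : (2 : ℤ) ^ (padicValInt 2 d + 1) ∣ 2 ^ t * w :=
      Dvd.dvd.mul_right (pow_dvd_pow 2 hk) w
    have h3 : (2 : ℤ) ^ (padicValInt 2 d + 1) ∣ d := (dvd_add_left h2).1 h1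
    have h4 := (iff1 _ _ h0).1 h3
    omega
  · rw [← iff1 _ _ hne]
    exact dvd_add ((iff1 _ _ h0).2 le_rfl) (Dvd.dvd.mul_right (pow_dvd_pow 2 hk.le) w)

private theorem gie_three (x : ℤ) : padicValInt 2 (3 * x) = padicValInt 2 x := by
  by_cases hx : x = 0
  · rw [hx, mul_zero]
  · rw [padicValInt.mul (by norm_num) hx, padicValInt.eq_zero_of_not_dvd (by norm_num), zero_add]

private theorem gie_neg (x : ℤ) : padicValInt 2 (-x) = padicValInt 2 x := by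
  simp [padicValInt]

theorem gi_exists (a R t N0 : ℕ) (h1 : 1 ≤ N0) (ht : 6 * R + 16 < 2 ^ t)
    (h : 3 * (N0 + 2 ^ t + R + 1) < a) :
    ∃ (n : ℕ) (c : ℤ), N0 ≤ n ∧ n < N0 + 2 ^ t ∧ GI c a n R := by
  have ht1 : 1 ≤ t := by
    rcases Nat.eq_zero_or_pos t with h0 | h0
    · rw [h0] at ht
      omega
    · exact h0
  obtain ⟨t', rfl⟩ := Nat.exists_eq_add_of_le ht1
  obtain ⟨c, hc, hpar⟩ : ∃ c : ℤ, (c = 1 ∨ c = 2) ∧ ((a : ℤ) - c) % 2 = 0 := by
    rcases Nat.even_or_odd' a with ⟨m, hm | hm⟩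
    · exact ⟨2, Or.inr rfl, by omega⟩
    · exact ⟨1, Or.inl rfl, by omega⟩
  have hco : IsCoprime (3 : ℤ) (2 ^ (1 + t')) :=
    IsCoprime.pow_right ⟨1, -1, by norm_num⟩
  obtain ⟨x, y, hxy⟩ := hco
  have hpow : (2 : ℤ) ^ (1 + t') = 2 * 2 ^ t' := by rw [pow_add, pow_one]
  obtain ⟨u, hu⟩ : ∃ u : ℤ, 3 * u = c - 2 ^ (1 + t') * (c * y) := by
    refine ⟨c * x, ?_⟩
    have : c = c * (x * 3 + y * 2 ^ (1 + t')) := by rw [hxy, mul_one]
    linear_combination (-1 : ℤ) * this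
  obtain ⟨b, hb⟩ : ∃ b : ℤ, (a : ℤ) - u = 2 * b := by
    refine ⟨((a : ℤ) - u) / 2, ?_⟩
    have h3 : 3 * u = c - 2 * (2 ^ t' * (c * y)) := by rw [hu, hpow]; ring
    generalize 2 ^ t' * (c * y) = z at h3
    omega
  have hpp : (0 : ℤ) < 2 ^ (1 + t') := by positivity
  have hm0 := Int.emod_nonneg (b - N0) hpp.ne'
  have hm1 := Int.emod_lt_of_pos (b - N0) hpp
  have hdiv := Int.mul_ediv_add_emod (b - N0) (2 ^ (1 + t'))
  obtain ⟨m, hm⟩ := Int.eq_ofNat_of_zero_le hm0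
  have hmlt : m < 2 ^ (1 + t') := by
    have : (m : ℤ) < ((2 ^ (1 + t') : ℕ) : ℤ) := by
      push_cast
      rw [← hm]
      exact hm1
    exact_mod_cast this
  set Q := (b - N0) / 2 ^ (1 + t') with hQ
  refine ⟨N0 + m, c, by omega, by omega, hc, by omega, by omega, ?_⟩
  intro r hr
  have habs := abs_le.1 hr
  have hd0 : c - 3 * r ≠ 0 := by
    rcases hc with rfl | rfl <;> omega
  have hdl : |c - 3 * r| < 2 ^ (1 + t') := by
    have ht' : (6 * (R : ℤ) + 16) < 2 ^ (1 + t') := by exact_mod_cast ht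
    rw [abs_lt]
    rcases hc with rfl | rfl <;> constructor <;> linarith [habs.1, habs.2]
  have key : 3 * ((a : ℤ) - 2 * ((N0 + m : ℕ) : ℤ) - r) =
      (c - 3 * r) + 2 ^ (1 + t') * (6 * Q - c * y) := by
    push_cast
    rw [hm] at hdiv
    have ha : (a : ℤ) = u + 2 * b := by linarith
    rw [ha]
    linear_combination hu + (-6 : ℤ) * hdiv
  have h4 := gie_val (w := 6 * Q - c * y) hd0 hdl
  rw [← key, gie_three] at h4
  rw [h4, ph, ← gie_neg (c - 3 * r)]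
  congr 1
  ring

end Pool.Agent.GV
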