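import Pool.Agent.GV.VAL.Asm
import Pool.Agent.GV.VAL.GIex

/-!
# GV-VAL-Exists: good indices exist in short intervals (final statement of the part VAL)

`ℓ = Nat.log 2 a ≥ 1`, `Λ = ℓ + 1` (`a < 2^Λ`), `R = 4 Λ + 8 = 4 ℓ + 12`,
`t = Nat.log 2 (6 R + 16) + 1`: `6R+16 < 2^t ≤ 2 (6 R + 16) = 48 ℓ + 176`, `C = 1000`.
-/

set_option autoImplicit false

namespace Pool.Agent.GV

theorem val_exists' : ∃ C : ℕ, ∀ (e : Bool) (a n0 : ℕ), C ≤ a → C * Nat.log 2 a ≤ n0 →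
    3 * n0 + C * Nat.log 2 a ≤ a →
    ∃ (n : ℕ) (τ : ℤ), n0 ≤ n ∧ n ≤ n0 + C * Nat.log 2 a ∧
      |τ - 4 * (n : ℤ)| ≤ (C : ℤ) * Nat.log 2 a ∧ Good e a n τ := by
  refine ⟨1000, fun e a n0 hC h1 h2 => ?_⟩
  have hℓ1 : 1 ≤ Nat.log 2 a := Nat.log_pos (by norm_num) (by omega)
  have hΛ : a < 2 ^ (Nat.log 2 a + 1) := Nat.lt_pow_succ_log_self (by norm_num) a
  generalize Nat.log 2 a = ℓ at *
  obtain ⟨R, hR⟩ : ∃ R, R = 4 * ℓ + 12 := ⟨_, rfl⟩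
  obtain ⟨t, ht⟩ : ∃ t, t = Nat.log 2 (6 * R + 16) + 1 := ⟨_, rfl⟩
  have ht1 : 6 * R + 16 < 2 ^ t := by
    rw [ht]; exact Nat.lt_pow_succ_log_self (by norm_num) _
  have ht2 : 2 ^ t ≤ 2 * (6 * R + 16) := by
    rw [ht, pow_succ, mul_comm]
    exact Nat.mul_le_mul_left 2 (Nat.pow_log_le_self 2 (by omega))
  obtain ⟨n, c, hn1, hn2, hGI⟩ := gi_exists a R t n0 (by omega) ht1 (by omega)
  have hG := good_of_GI e c a n R (ℓ + 1) hGI hΛ (by omega)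
  have hha := hGI.ha
  obtain ⟨hb1, hb2⟩ := val_Dd_bound e a n (ℓ + 1) hGI.hn (by omega) hΛ
  push_cast at hb1 hb2
  refine ⟨n, _, hn1, by omega, ?_, hG⟩
  rw [abs_le]
  cases e
  · simp only [cond_false]
    constructor <;> push_cast <;> omega
  · simp only [cond_true]
    constructor <;> push_cast <;> omega

end Pool.Agent.GV
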