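import Pool.Agent.GV.VAL.Sums

/-!
# GV-VAL-Form: the inverse of the leading block and the products with the other blocks

`BI e a n I J = (U⁻¹ D⁻¹ L⁻¹)(I, J)` for `I, J ∈ [1, n]` is the inverse of the leading `n × n` block
of `B`.

Plan (imports sorried).  `Dd ≠ 0` (`Dd_ne_zero`).
* `BI_inv`: `sum_LDU` with `M = n`, exchange sums, `sum_UUt` collapses `∑_J U(k,J) Ut(J,m) = δ`,
  then `∑_k L(I,k) D_k D_k⁻¹ Lt(k,K) = δ` (`sum_LLt`).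
* `BI_left` (`M ≥ n`): `B(L,J) = ∑_{k ≤ M} L(L,k) D_k U(k,J)`; for `m ≤ n`:
  `∑_{J ≤ n} U(k,J) Ut(J,m) = ∑_{J ≤ M} ... = δ_{km}` because `Ut(J,m) = 0` for `J > m`.
* `BI_right`: symmetric: `∑_{J ≤ n} Lt(m,J) L(J,k) = δ` for `m ≤ n` since `Lt(m,J) = 0` for `J > m`.
* `BI_schur`: by `BI_left` the double sum is `∑_{k ≤ n} L(L,k) [∑_{K ≤ n} Lt(k,K) B(K,P)]` and
  `∑_{K ≤ n} Lt(k,K) B(K,P) = D_k U(k,P)` for `k ≤ n`; subtract from `sum_LDU`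
  (`Icc 1 M = Icc 1 n ∪ Icc (n+1) M`).
-/

set_option autoImplicit false

namespace Pool.Agent.GV

open Finset

/-- the inverse of the leading block of `B` of size `n` -/
def BI (e : Bool) (a n I J : ℕ) : ℚ :=
  ∑ m ∈ Icc 1 n, uppM (Utf e (a : ℚ)) I m * (Dd e (a : ℚ) m)⁻¹ * lowM (Ltf e (a : ℚ)) m J

/-- abstract left product -/
private theorem bi_left_abs (s t : Finset ℕ) (hst : s ⊆ t) (L U Ut Lt : ℕ → ℕ → ℚ) (D : ℕ → ℚ)
    (b : ℕ → ℚ) (x y : ℕ)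
    (hB : ∀ J ∈ s, b J = ∑ k ∈ t, L x k * D k * U k J)
    (hA : ∀ k ∈ t, ∀ m ∈ s, ∑ J ∈ s, U k J * Ut J m = if k = m then 1 else 0)
    (hD : ∀ m ∈ s, D m ≠ 0) :
    ∑ J ∈ s, b J * (∑ m ∈ s, Ut J m * (D m)⁻¹ * Lt m y) = ∑ k ∈ s, L x k * Lt k y := by
  have h1 : ∀ J ∈ s, b J * (∑ m ∈ s, Ut J m * (D m)⁻¹ * Lt m y) =
      ∑ k ∈ t, ∑ m ∈ s, (L x k * D k * U k J) * (Ut J m * (D m)⁻¹ * Lt m y) := by
    intro J hJ
    rw [hB J hJ, Finset.sum_mul_sum]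
  rw [Finset.sum_congr rfl h1, Finset.sum_comm]
  have h2 : ∀ k ∈ t, ∑ J ∈ s, ∑ m ∈ s,
      (L x k * D k * U k J) * (Ut J m * (D m)⁻¹ * Lt m y) =
      ∑ m ∈ s, (if k = m then 1 else 0) * (L x k * D k * ((D m)⁻¹ * Lt m y)) := by
    intro k hk
    rw [Finset.sum_comm]
    refine Finset.sum_congr rfl fun m hm => ?_
    rw [← hA k hk m hm, Finset.sum_mul]
    exact Finset.sum_congr rfl fun J _ => by ring
  rw [Finset.sum_congr rfl h2, Finset.sum_comm]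
  refine Finset.sum_congr rfl fun m hm => ?_
  rw [Finset.sum_eq_single m]
  · rw [if_pos rfl, one_mul]
    field_simp [hD m hm]
  · intro k _ hk
    rw [if_neg hk, zero_mul]
  · intro h
    exact absurd (hst hm) h

/-- abstract right product -/
private theorem bi_right_abs (s t : Finset ℕ) (hst : s ⊆ t) (L U Ut Lt : ℕ → ℕ → ℚ) (D : ℕ → ℚ)
    (b : ℕ → ℚ) (x y : ℕ)
    (hB : ∀ J ∈ s, b J = ∑ k ∈ t, L J k * D k * U k y)
    (hA : ∀ m ∈ s, ∀ k ∈ t, ∑ J ∈ s, Lt m J * L J k = if m = k then 1 else 0)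
    (hD : ∀ m ∈ s, D m ≠ 0) :
    ∑ J ∈ s, (∑ m ∈ s, Ut x m * (D m)⁻¹ * Lt m J) * b J = ∑ k ∈ s, Ut x k * U k y := by
  have h1 : ∀ J ∈ s, (∑ m ∈ s, Ut x m * (D m)⁻¹ * Lt m J) * b J =
      ∑ m ∈ s, ∑ k ∈ t, (Ut x m * (D m)⁻¹ * Lt m J) * (L J k * D k * U k y) := by
    intro J hJ
    rw [hB J hJ, Finset.sum_mul_sum]
  rw [Finset.sum_congr rfl h1, Finset.sum_comm]
  refine Finset.sum_congr rfl fun m hm => ?_
  rw [Finset.sum_comm]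
  have h2 : ∀ k ∈ t, ∑ J ∈ s, (Ut x m * (D m)⁻¹ * Lt m J) * (L J k * D k * U k y) =
      (if m = k then 1 else 0) * (Ut x m * (D m)⁻¹ * (D k * U k y)) := by
    intro k hk
    rw [← hA m hm k hk, Finset.sum_mul]
    exact Finset.sum_congr rfl fun J _ => by ring
  rw [Finset.sum_congr rfl h2, Finset.sum_eq_single m]
  · rw [if_pos rfl, one_mul]
    field_simp [hD m hm]
  · intro k _ hk
    rw [if_neg (Ne.symm hk), zero_mul]
  · intro h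
    exact absurd (hst hm) h

/-- abstract partial product `Lt B = D U` -/
private theorem bi_low_abs (s t : Finset ℕ) (hst : s ⊆ t) (L U Lt : ℕ → ℕ → ℚ) (D : ℕ → ℚ)
    (b : ℕ → ℚ) (m y : ℕ) (hm : m ∈ s)
    (hB : ∀ J ∈ s, b J = ∑ k ∈ t, L J k * D k * U k y)
    (hA : ∀ m ∈ s, ∀ k ∈ t, ∑ J ∈ s, Lt m J * L J k = if m = k then 1 else 0) :
    ∑ J ∈ s, Lt m J * b J = D m * U m y := by
  have h1 : ∀ J ∈ s, Lt m J * b J = ∑ k ∈ t, Lt m J * (L J k * D k * U k y) := by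
    intro J hJ
    rw [hB J hJ, Finset.mul_sum]
  rw [Finset.sum_congr rfl h1, Finset.sum_comm]
  have h2 : ∀ k ∈ t, ∑ J ∈ s, Lt m J * (L J k * D k * U k y) =
      (if m = k then 1 else 0) * (D k * U k y) := by
    intro k hk
    rw [← hA m hm k hk, Finset.sum_mul]
    exact Finset.sum_congr rfl fun J _ => by ring
  rw [Finset.sum_congr rfl h2, Finset.sum_eq_single m]
  · rw [if_pos rfl, one_mul]
  · intro k _ hk
    rw [if_neg (Ne.symm hk), zero_mul]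
  · intro h
    exact absurd (hst hm) h

private theorem bi_sub {n M : ℕ} (hn : n ≤ M) : Icc 1 n ⊆ Icc 1 M :=
  Finset.Icc_subset_Icc_right hn

private theorem bi_U (e : Bool) (a n M : ℕ) (hn : n ≤ M) (h : 3 * M < a) :
    ∀ k ∈ Icc 1 M, ∀ m ∈ Icc 1 n,
      ∑ J ∈ Icc 1 n, uppM (Uf e (a : ℚ)) k J * uppM (Utf e (a : ℚ)) J m =
        if k = m then 1 else 0 := by
  intro k hk m hm
  rw [← sum_UUt e a M h k m hk (bi_sub hn hm)]
  refine Finset.sum_subset (bi_sub hn) fun J hJ hJ' => ?_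
  rw [Finset.mem_Icc] at hJ hJ' hm
  have h1 : uppM (Utf e (a : ℚ)) J m = 0 := by
    unfold uppM
    rw [if_pos (by omega)]
  rw [h1, mul_zero]

private theorem bi_L (e : Bool) (a n M : ℕ) (hn : n ≤ M) (h : 3 * M < a) :
    ∀ m ∈ Icc 1 n, ∀ k ∈ Icc 1 M,
      ∑ J ∈ Icc 1 n, lowM (Ltf e (a : ℚ)) m J * lowM (Lf e (a : ℚ)) J k =
        if m = k then 1 else 0 := by
  intro m hm k hk
  rw [← sum_LtL e a M h m k (bi_sub hn hm) hk]
  refine Finset.sum_subset (bi_sub hn) fun J hJ hJ' => ?_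
  rw [Finset.mem_Icc] at hJ hJ' hm
  have h1 : lowM (Ltf e (a : ℚ)) m J = 0 := by
    unfold lowM
    rw [if_pos (by omega)]
  rw [h1, zero_mul]

private theorem bi_D (e : Bool) (a n : ℕ) (h : 3 * n < a) :
    ∀ m ∈ Icc 1 n, Dd e (a : ℚ) m ≠ 0 := by
  intro m hm
  rw [Finset.mem_Icc] at hm
  exact Dd_ne_zero e a m hm.1 (by omega)

theorem BI_left (e : Bool) (a n M : ℕ) (hn : n ≤ M) (h : 3 * M < a) (L I : ℕ) (hL : L ∈ Icc 1 M)
    (hI : I ∈ Icc 1 n) :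
    ∑ J ∈ Icc 1 n, B e (a : ℚ) L J * BI e a n J I =
      ∑ k ∈ Icc 1 n, lowM (Lf e (a : ℚ)) L k * lowM (Ltf e (a : ℚ)) k I := by
  unfold BI
  exact bi_left_abs (Icc 1 n) (Icc 1 M) (bi_sub hn) (lowM (Lf e (a : ℚ))) (uppM (Uf e (a : ℚ)))
    (uppM (Utf e (a : ℚ))) (lowM (Ltf e (a : ℚ))) (Dd e (a : ℚ)) (fun J => B e (a : ℚ) L J) L I
    (fun J hJ => sum_LDU e a M h L J hL (bi_sub hn hJ)) (bi_U e a n M hn h)
    (bi_D e a n (by omega))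

theorem BI_inv (e : Bool) (a n : ℕ) (h : 3 * n < a) (I K : ℕ) (hI : I ∈ Icc 1 n)
    (hK : K ∈ Icc 1 n) :
    ∑ J ∈ Icc 1 n, B e (a : ℚ) I J * BI e a n J K = if I = K then 1 else 0 := by
  rw [BI_left e a n n le_rfl h I K hI hK, sum_LLt e a n h I K hI hK]

theorem BI_right (e : Bool) (a n M : ℕ) (hn : n ≤ M) (h : 3 * M < a) (I L : ℕ)
    (hI : I ∈ Icc 1 n) (hL : L ∈ Icc 1 M) :
    ∑ J ∈ Icc 1 n, BI e a n I J * B e (a : ℚ) J L =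
      ∑ k ∈ Icc 1 n, uppM (Utf e (a : ℚ)) I k * uppM (Uf e (a : ℚ)) k L := by
  unfold BI
  exact bi_right_abs (Icc 1 n) (Icc 1 M) (bi_sub hn) (lowM (Lf e (a : ℚ))) (uppM (Uf e (a : ℚ)))
    (uppM (Utf e (a : ℚ))) (lowM (Ltf e (a : ℚ))) (Dd e (a : ℚ)) (fun J => B e (a : ℚ) J L) I L
    (fun J hJ => sum_LDU e a M h J L (bi_sub hn hJ) hL) (bi_L e a n M hn h)
    (bi_D e a n (by omega))

theorem BI_schur (e : Bool) (a n M : ℕ) (hn : n ≤ M) (h : 3 * M < a) (L P' : ℕ)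
    (hL : L ∈ Icc 1 M) (hP : P' ∈ Icc 1 M) :
    B e (a : ℚ) L P' -
        ∑ J ∈ Icc 1 n, (∑ K ∈ Icc 1 n, B e (a : ℚ) L K * BI e a n K J) * B e (a : ℚ) J P' =
      ∑ k ∈ Icc (n + 1) M,
        lowM (Lf e (a : ℚ)) L k * Dd e (a : ℚ) k * uppM (Uf e (a : ℚ)) k P' := by
  have h1 : ∀ J ∈ Icc 1 n, (∑ K ∈ Icc 1 n, B e (a : ℚ) L K * BI e a n K J) * B e (a : ℚ) J P' =
      ∑ k ∈ Icc 1 n, lowM (Lf e (a : ℚ)) L k *
        (lowM (Ltf e (a : ℚ)) k J * B e (a : ℚ) J P') := by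
    intro J hJ
    rw [BI_left e a n M hn h L J hL hJ, Finset.sum_mul]
    exact Finset.sum_congr rfl fun k _ => by ring
  rw [Finset.sum_congr rfl h1, Finset.sum_comm]
  have h2 : ∀ k ∈ Icc 1 n, ∑ J ∈ Icc 1 n, lowM (Lf e (a : ℚ)) L k *
        (lowM (Ltf e (a : ℚ)) k J * B e (a : ℚ) J P') =
      lowM (Lf e (a : ℚ)) L k * Dd e (a : ℚ) k * uppM (Uf e (a : ℚ)) k P' := by
    intro k hk
    rw [← Finset.mul_sum, bi_low_abs (Icc 1 n) (Icc 1 M) (bi_sub hn) (lowM (Lf e (a : ℚ)))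
      (uppM (Uf e (a : ℚ))) (lowM (Ltf e (a : ℚ))) (Dd e (a : ℚ)) (fun J => B e (a : ℚ) J P')
      k P' hk (fun J hJ => sum_LDU e a M h J P' (bi_sub hn hJ) hP) (bi_L e a n M hn h)]
    ring
  rw [Finset.sum_congr rfl h2, sum_LDU e a M h L P' hL hP]
  have h3 : Icc 1 M = Icc 1 n ∪ Icc (n + 1) M := by
    ext k
    simp only [Finset.mem_union, Finset.mem_Icc]
    omega
  rw [h3, Finset.sum_union, add_sub_cancel_left]
  rw [Finset.disjoint_left]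
  intro k hk hk'
  rw [Finset.mem_Icc] at hk hk'
  omega

end Pool.Agent.GV
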