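import Pool.Agent.GV.VAL.Crude
import Pool.Agent.GV.VAL.NearL

/-!
# GV-VAL-FourLL: the inverse of the leading block, all entries

`v(BI(I,J)) ≥ - v(D_n) - 2(n-I) - 2(n-J)` for a good index `n`.

Plan (imports sorried).  Far case `n - I > R` or `n - J > R`: `crude_BI` and
`-v(D_n) ≤ Λ + 1` (`val_Dd_bound`), `2 (R+1) ≥ 8 Λ + 18`.
Near case: `BI = ∑_{m ∈ [1,n]}`; the term `m` vanishes unless `m ≥ max I J`; write `m = n - z`,
`I = n - z - p`, `J = n - z - q`, `uppM (Utf) I m = Utf (n-z-p) p`, `lowM (Ltf) m J = Ltf (n-z-q) q`,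
`D_m⁻¹ = (D_n / D_m) * D_n⁻¹` and `D_n⁻¹` is `V (-v(D_n))`; `nearLL` gives
`V (-2(z+p) - 2(z+q))` for the product without `D_n⁻¹`; `n - I = z + p`, `n - J = z + q`.
-/

set_option autoImplicit false

namespace Pool.Agent.GV

open Finset

theorem fourLL (e : Bool) (c : ℤ) (a n R Λ : ℕ) (h : GI c a n R) (hΛ : a < 2 ^ Λ)
    (hR : 4 * Λ + 8 ≤ R) (I J : ℕ) (hI : I ∈ Icc 1 n) (hJ : J ∈ Icc 1 n) :
    V (-padicValRat 2 (Dd e (a : ℚ) n) - 2 * ((n : ℤ) - I) - 2 * ((n : ℤ) - J)) (BI e a n I J) := by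
  obtain ⟨hI1, hI2⟩ := Finset.mem_Icc.1 hI
  obtain ⟨hJ1, hJ2⟩ := Finset.mem_Icc.1 hJ
  have hn := h.hn
  have ha := h.ha
  have h3 : 3 * n < a := by omega
  have hb := (val_Dd_bound e a n Λ hn h3 hΛ).1
  by_cases hfar : n - I ≤ R ∧ n - J ≤ R
  · obtain ⟨hIR, hJR⟩ := hfar
    have hD := Dd_ne_zero e a n hn h3
    unfold BI
    refine V.sum fun m hm => ?_
    obtain ⟨hm1, hm2⟩ := Finset.mem_Icc.1 hm
    unfold uppM lowM
    by_cases h1 : m < I
    · rw [if_pos h1, zero_mul, zero_mul]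
      exact V_zero _
    by_cases h2 : m < J
    · rw [if_pos h2, mul_zero]
      exact V_zero _
    rw [if_neg h1, if_neg h2]
    have hL := nearLL e c a n R (n - m) (m - I) (m - J) h (by omega) (by omega) (by omega)
      (by omega)
    rw [show n - (n - m) - (m - I) = I by omega, show n - (n - m) - (m - J) = J by omega,
      show n - (n - m) = m by omega] at hL
    have e1 : Utf e (a : ℚ) I (m - I) * (Dd e (a : ℚ) m)⁻¹ * Ltf e (a : ℚ) J (m - J) =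
        (Utf e (a : ℚ) I (m - I) * (Dd e (a : ℚ) n / Dd e (a : ℚ) m) *
          Ltf e (a : ℚ) J (m - J)) * (Dd e (a : ℚ) n)⁻¹ := by
      have hD' : Dd e (a : ℚ) n * (Dd e (a : ℚ) n)⁻¹ = 1 := mul_inv_cancel₀ hD
      rw [div_eq_mul_inv]
      linear_combination (-(Utf e (a : ℚ) I (m - I) * (Dd e (a : ℚ) m)⁻¹ *
        Ltf e (a : ℚ) J (m - J))) * hD'
    rw [e1]
    exact hL.mul' (V_inv le_rfl) (by omega)
  · exact (crude_BI e a n Λ I J hΛ h3).mono (by omega)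

end Pool.Agent.GV
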