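import Mathlib

/-!
# GV-VAL: the predicate `V c x`: `x = 0` or the 2-adic valuation of `x` is at least `c`
-/

set_option autoImplicit false

namespace Pool.Agent.GV

/-- `x = 0` or `v_2(x) ≥ c` -/
def V (c : ℤ) (x : ℚ) : Prop := padicNorm 2 x ≤ (2 : ℚ) ^ (-c)

instance : Fact (Nat.Prime 2) := ⟨Nat.prime_two⟩

lemma V_zero (c : ℤ) : V c 0 := by
  unfold V; simp; positivity

lemma V.mono {c d : ℤ} {x : ℚ} (h : V c x) (hd : d ≤ c) : V d x := by
  unfold V at *
  exact h.trans (zpow_le_zpow_right₀ (by norm_num) (by omega))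

lemma V.add {c : ℤ} {x y : ℚ} (hx : V c x) (hy : V c y) : V c (x + y) := by
  unfold V at *
  exact (padicNorm.nonarchimedean (p := 2)).trans (max_le hx hy)

lemma V.neg {c : ℤ} {x : ℚ} (hx : V c x) : V c (-x) := by
  unfold V at *; rwa [padicNorm.neg]

lemma V.sub {c : ℤ} {x y : ℚ} (hx : V c x) (hy : V c y) : V c (x - y) := by
  rw [sub_eq_add_neg]; exact hx.add hy.neg

lemma V.sum {ι : Type*} {c : ℤ} {s : Finset ι} {f : ι → ℚ} (h : ∀ i ∈ s, V c (f i)) :
    V c (∑ i ∈ s, f i) := by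
  classical
  induction s using Finset.induction_on with
  | empty => simpa using V_zero c
  | insert a s ha ih =>
    rw [Finset.sum_insert ha]
    exact (h a (Finset.mem_insert_self a s)).add
      (ih fun i hi => h i (Finset.mem_insert_of_mem hi))

lemma V.mul {c d : ℤ} {x y : ℚ} (hx : V c x) (hy : V d y) : V (c + d) (x * y) := by
  unfold V at *
  rw [padicNorm.mul, neg_add, zpow_add₀ (by norm_num)]
  exact mul_le_mul hx hy (padicNorm.nonneg _) (by positivity)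

lemma V.mul' {c d e : ℤ} {x y : ℚ} (hx : V c x) (hy : V d y) (he : e ≤ c + d) : V e (x * y) :=
  (hx.mul hy).mono he

lemma V_int (n : ℤ) : V 0 (n : ℚ) := by
  unfold V; simpa using padicNorm.of_int n

lemma V_nat (n : ℕ) : V 0 (n : ℚ) := by
  unfold V; simpa using padicNorm.of_nat n

lemma V_one : V 0 1 := by simpa using V_nat 1

lemma padicNorm_two_zpow (n : ℤ) : padicNorm 2 ((2 : ℚ) ^ n) = (2 : ℚ) ^ (-n) := by
  have h0 : ((2 : ℚ) ^ n) ≠ 0 := by positivity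
  rw [padicNorm.eq_zpow_of_nonzero h0]
  have h1 : padicValRat 2 ((2 : ℚ) ^ n) = n := by
    rw [padicValRat.zpow]
    have h2 : padicValRat 2 (2 : ℚ) = 1 := by
      have := padicValRat.self (p := 2) (by norm_num)
      exact_mod_cast this
    rw [h2]; ring
  rw [h1]; simp

lemma V_two_zpow (n : ℤ) : V n ((2 : ℚ) ^ n) := by
  unfold V
  rw [padicNorm_two_zpow]

/-- `V c x ↔ x = 0 ∨ c ≤ v_2(x)` -/
lemma V_iff {c : ℤ} {x : ℚ} : V c x ↔ x = 0 ∨ c ≤ padicValRat 2 x := by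
  unfold V
  rcases eq_or_ne x 0 with rfl | hx
  · simp; positivity
  · rw [padicNorm.eq_zpow_of_nonzero hx]
    push_cast
    rw [zpow_le_zpow_iff_right₀ (by norm_num)]
    simp [hx]

lemma V_of_le {c : ℤ} {x : ℚ} (h : c ≤ padicValRat 2 x) : V c x := V_iff.2 (Or.inr h)

lemma V_inv {c : ℤ} {x : ℚ} (h : padicValRat 2 x ≤ c) : V (-c) x⁻¹ := by
  apply V_of_le
  rw [padicValRat.inv]
  omega

lemma V.div {c d : ℤ} {x y : ℚ} (hx : V c x) (h : padicValRat 2 y ≤ d) :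
    V (c - d) (x / y) := by
  rw [div_eq_mul_inv, sub_eq_add_neg]
  exact hx.mul (V_inv h)

/-- multiplication by a power of two -/
lemma V_two_zpow_mul {c n : ℤ} {x : ℚ} : V c ((2 : ℚ) ^ n * x) ↔ V (c - n) x := by
  unfold V
  rw [padicNorm.mul, padicNorm_two_zpow, show -(c - n) = n + -c by ring, zpow_add₀ (by norm_num : (2 : ℚ) ≠ 0)]
  have h2 : (0 : ℚ) < 2 ^ (-n) := by positivity
  have h3 : (2 : ℚ) ^ n * 2 ^ (-n) = 1 := by rw [← zpow_add₀ (by norm_num)]; simp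
  constructor
  · intro h1
    have h4 : (2 : ℚ) ^ n * ((2 : ℚ) ^ (-n) * padicNorm 2 x) ≤ 2 ^ n * 2 ^ (-c) :=
      mul_le_mul_of_nonneg_left h1 (by positivity)
    rwa [← mul_assoc, h3, one_mul] at h4
  · intro h1
    have h4 : (2 : ℚ) ^ (-n) * padicNorm 2 x ≤ 2 ^ (-n) * (2 ^ n * 2 ^ (-c)) :=
      mul_le_mul_of_nonneg_left h1 h2.le
    rwa [← mul_assoc ((2 : ℚ) ^ (-n)), mul_comm ((2 : ℚ) ^ (-n)) (2 ^ n), h3, one_mul] at h4

/-- an odd natural number is a unit -/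
lemma V_inv_odd {n : ℕ} (h : n % 2 = 1) : V 0 ((n : ℚ)⁻¹) := by
  apply V_of_le
  rw [padicValRat.inv, padicValRat.of_nat, padicValNat.eq_zero_of_not_dvd (by omega)]
  simp

lemma V_natCast_iff {c n : ℕ} : V c (n : ℚ) ↔ 2 ^ c ∣ n := by
  rw [V_iff]
  rcases eq_or_ne n 0 with rfl | hn
  · simp
  · rw [padicValRat.of_nat]
    have : (n : ℚ) ≠ 0 := by exact_mod_cast hn
    simp only [this, false_or, Nat.cast_le]
    exact (padicValNat_dvd_iff_le hn).symm

end Pool.Agent.GV
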