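import Pool.Agent.GV.Basic
import Pool.Agent.GV.VAL.V

/-!
# GV-VAL definitions: good indices

`ph c r = v_2(3 r - c)`.  `GI c a n R`: near `n` the valuations of `a - 2n - r` are the same as those
of `3 r - c` (that is `3 (a - 2n) ≡ c` modulo a power of 2 larger than `6 R + 16`), `c = 1` for
`a` odd and `c = 2` for `a` even.
-/

set_option autoImplicit false

namespace Pool.Agent.GV

/-- the valuation of `3 r - c` -/
def ph (c r : ℤ) : ℕ := padicValInt 2 (3 * r - c)

/-- `ph c r`, and `0` if `s = 0` -/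
def phz (c r : ℤ) (s : ℕ) : ℕ := if s = 0 then 0 else ph c r

/-- good index -/
structure GI (c : ℤ) (a n R : ℕ) : Prop where
  hc : c = 1 ∨ c = 2
  hn : 1 ≤ n
  ha : 3 * (n + R + 1) < a
  hv : ∀ r : ℤ, |r| ≤ 2 * R + 2 → padicValInt 2 ((a : ℤ) - 2 * n - r) = ph c r

/-- sum of the valuations to the right -/
def S1 (c : ℤ) (i : ℕ) : ℕ := ∑ r ∈ Finset.range (2 * i), (ph c r + ph c (r + 1))

/-- sum of the valuations to the left -/
def S2 (c : ℤ) (z : ℕ) : ℕ := ∑ r ∈ Finset.range (2 * z), (ph c (-(r : ℤ)) + ph c (-(r : ℤ) - 1))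

end Pool.Agent.GV
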