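import Pool.Agent.GV.Basic
import Pool.Agent.GV.VAL.V
import Pool.Agent.GV.VAL.Consec
import Pool.Agent.GV.CM.Bshift

/-!
# GV-VAL-Prod: 2-adic valuations of the products `P`, `O`, `df`, `cc`

Plan.
* `V_P_int`: `P z r = r! * (Ring.choose z r)` for `z : ℤ`; simplest: `bin_int` in
  `Pool/Agent/GV/CM/Bshift.lean` says `P z r / r!` is an integer `w`; so `P z r = r! * w`,
  `V_nat`-type bound `V (v(r!)) (r!)` (`V_of_le`, `padicValRat.of_nat`) times `V_int w`.
  (You may import `Pool.Agent.GV.CM.Bshift`.)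
* `V_P_three_even`: `z = 2w`: `P z 3 = 2w (2w-1) (2w-2) = 4 w (w-1) (2w-1)` and `w (w-1)` is even.
* `val_df`, `val_O_odd`: product of odd integers (`padicValRat.mul` along the product, or show
  `padicNorm 2 (odd) = 1`).
* `val_fact_two`: `(2 r)! = 2^r r! (2r-1)!!`; induction on `r`.
* `val_cc`: `cc n r = ∏ 2 (s+1) * odd`, induction on `r` with `cc_succ`.
* `val_P_le`: `P x r = ∏_{t<r} (x - t)`, all factors positive integers; apply `consec_bound` with
  `x t = (x : ℤ) - t`, `u = -1`.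
-/

set_option autoImplicit false

namespace Pool.Agent.GV

private lemma pr_odd (z : ℤ) (h : ¬ (2 : ℤ) ∣ z) : padicValRat 2 (z : ℚ) = 0 := by
  rw [padicValRat.of_int, padicValInt.eq_zero_of_not_dvd (by exact_mod_cast h)]
  rfl

theorem V_P_int (z : ℤ) (r : ℕ) : V (padicValNat 2 r.factorial) (P (z : ℚ) r) := by
  obtain ⟨w, hw⟩ := bin_int z r
  have hf : (r.factorial : ℚ) ≠ 0 := by exact_mod_cast r.factorial_ne_zero
  have h1 : P (z : ℚ) r = (r.factorial : ℚ) * (w : ℚ) := by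
    unfold bin at hw
    rw [← hw, mul_div_cancel₀ _ hf]
  rw [h1]
  refine V.mul' (c := (padicValNat 2 r.factorial : ℤ)) (d := 0) ?_ (V_int w) (by omega)
  apply V_of_le
  rw [padicValRat.of_nat]

theorem V_P_three_even (z : ℤ) (hz : 2 ∣ z) : V 3 (P (z : ℚ) 3) := by
  obtain ⟨w, rfl⟩ := hz
  obtain ⟨k, hk⟩ := Int.even_mul_pred_self w
  have hk' : (w : ℚ) * ((w : ℚ) - 1) = (k : ℚ) + k := by exact_mod_cast hk
  have h1 : P ((2 * w : ℤ) : ℚ) 3 = (2 : ℚ) ^ (3 : ℤ) * ((k * (2 * w - 1) : ℤ) : ℚ) := by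
    rw [P_succ, P_succ, P_one]
    push_cast
    have h2 : (2 * (w : ℚ)) * (2 * w - 1) * (2 * w - 2) =
        4 * ((w : ℚ) * ((w : ℚ) - 1)) * (2 * w - 1) := by ring
    rw [h2, hk']
    ring
  rw [h1]
  exact V.mul' (V_two_zpow 3) (V_int _) (by norm_num)

theorem val_df (r : ℕ) : padicValRat 2 (df r) = 0 := by
  induction r with
  | zero => rw [df_zero]; exact padicValRat.one
  | succ r ih =>
    have h1 : (2 * (r : ℚ) + 1) = ((2 * (r : ℤ) + 1 : ℤ) : ℚ) := by push_cast; ring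
    have h2 : (2 * (r : ℚ) + 1) ≠ 0 := by positivity
    rw [df_succ, padicValRat.mul (df_ne_zero r) h2, ih, h1, pr_odd _ (by omega)]
    rfl

theorem val_O_odd (z : ℤ) (m : ℕ) : padicValRat 2 (O (2 * (z : ℚ) + 1) m) = 0 := by
  induction m with
  | zero => rw [O_zero]; exact padicValRat.one
  | succ m ih =>
    have h1 : (2 * (z : ℚ) + 1 - 2 * (m : ℚ)) = ((2 * z + 1 - 2 * (m : ℤ) : ℤ) : ℚ) := by
      push_cast; ring
    have h2 : (2 * (z : ℚ) + 1 - 2 * (m : ℚ)) ≠ 0 := by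
      rw [h1]
      exact_mod_cast (by omega : (2 * z + 1 - 2 * (m : ℤ) : ℤ) ≠ 0)
    rw [O_succ, padicValRat.mul (O_odd_ne_zero z m) h2, ih, h1, pr_odd _ (by omega)]
    rfl

theorem val_fact_two (r : ℕ) :
    padicValNat 2 (2 * r).factorial = r + padicValNat 2 r.factorial := by
  rw [padicValNat_factorial_mul, add_comm]

theorem val_cc (n r : ℕ) : padicValRat 2 (cc n r) = (r + padicValNat 2 r.factorial : ℕ) := by
  induction r with
  | zero => rw [cc_zero, Nat.factorial_zero, padicValNat_one_right]; exact padicValRat.one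
  | succ r ih =>
    have h1 : (2 * ((r : ℚ) + 1) + 2 * n - 1) = ((2 * ((r : ℤ) + 1) + 2 * n - 1 : ℤ) : ℚ) := by
      push_cast; ring
    have h2 : (2 * ((r : ℚ) + 1) + 2 * n - 1) ≠ 0 := by
      rw [h1]
      exact_mod_cast (by omega : (2 * ((r : ℤ) + 1) + 2 * n - 1 : ℤ) ≠ 0)
    have h3 : ((r : ℚ) + 1) ≠ 0 := by positivity
    have h4 : padicValRat 2 (2 : ℚ) = 1 := by
      have := padicValRat.self (p := 2) (by norm_num)
      exact_mod_cast this
    have h5 : padicValRat 2 ((r : ℚ) + 1) = (padicValNat 2 (r + 1) : ℕ) := by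
      have h6 : ((r : ℚ) + 1) = ((r + 1 : ℕ) : ℚ) := by push_cast; ring
      rw [h6, padicValRat.of_nat]
    rw [cc_succ, padicValRat.mul (cc_ne_zero n r) (mul_ne_zero (mul_ne_zero two_ne_zero h3) h2),
      padicValRat.mul (mul_ne_zero two_ne_zero h3) h2, padicValRat.mul two_ne_zero h3, ih, h4, h5,
      h1, pr_odd _ (by omega), Nat.factorial_succ,
      padicValNat.mul (by omega) r.factorial_ne_zero]
    push_cast
    ring

private lemma pr_sum (x r : ℕ) (hx : r ≤ x) : padicValRat 2 (P (x : ℚ) r) =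
    ((∑ t ∈ Finset.range r, padicValInt 2 ((x : ℤ) - t) : ℕ) : ℤ) := by
  induction r with
  | zero => rw [P_zero]; exact padicValRat.one
  | succ r ih =>
    have h1 : ((x : ℚ) - r) = (((x : ℤ) - (r : ℤ) : ℤ) : ℚ) := by push_cast; ring
    have h2 : ((x : ℚ) - r) ≠ 0 := by
      rw [h1]
      exact_mod_cast (by omega : ((x : ℤ) - (r : ℤ) : ℤ) ≠ 0)
    have h3 : P (x : ℚ) r ≠ 0 := by
      apply P_ne_zero
      have : (r : ℚ) + 1 ≤ x := by exact_mod_cast hx
      linarith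
    rw [P_succ, padicValRat.mul h3 h2, ih (by omega), h1, padicValRat.of_int,
      Finset.sum_range_succ]
    push_cast
    ring

theorem val_P_le (x r μ : ℕ) (hr : 1 ≤ r) (hx : r ≤ x)
    (h : ∀ t : ℕ, t < r → padicValInt 2 ((x : ℤ) - t) ≤ μ) :
    padicValRat 2 (P (x : ℚ) r) ≤ ((padicValNat 2 (r - 1).factorial + μ : ℕ) : ℤ) := by
  rw [pr_sum x r hx]
  have h1 := consec_bound r (fun t => (x : ℤ) - t) (-1) μ (by norm_num) hr
    (fun t ht => by omega) (fun t _ s _ => by ring) (fun t ht => h t ht)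
  exact_mod_cast h1

end Pool.Agent.GV
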