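import Pool.Agent.GV.CM.LDU
import Pool.Agent.GV.CM.Ratio
import Pool.Agent.GV.VAL.V

/-!
# GV-VAL-Sums: the factorisation `B = L D U` and the inverses as sums over `Finset.Icc 1 M`

Plan.  All statements are the matrix identities `LDU`, `LtL_mat`, `UtU_mat` of `CM/LDU.lean`
(and their transposed orders `L Lt = 1`, `U Ut = 1`, by `Matrix.mul_eq_one_comm`) at the entries
`(i - 1, j - 1)`; `Fin M` sums become sums over `Icc 1 M` (`Fin.sum_univ_eq_sum_range`,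
`Finset.sum_bij` or `Finset.range_eq_Ico` and a shift by one).
-/

set_option autoImplicit false

namespace Pool.Agent.GV

open Finset

private theorem vsm_shift (f : ℕ → ℚ) (M : ℕ) :
    ∑ k : Fin M, f ((k : ℕ) + 1) = ∑ n ∈ Icc 1 M, f n := by
  rw [Fin.sum_univ_eq_sum_range (fun k => f (k + 1)) M, Finset.range_eq_Ico,
    Finset.sum_Ico_add' f 0 M 1]
  rfl

/-- entries of an index in `Icc 1 M` -/
private theorem vsm_idx {M i : ℕ} (hi : i ∈ Icc 1 M) : ∃ k : Fin M, (k : ℕ) + 1 = i := by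
  rw [mem_Icc] at hi
  exact ⟨⟨i - 1, by omega⟩, by simp only; omega⟩

private theorem vsm_one {M : ℕ} {P Q : Matrix (Fin M) (Fin M) ℚ} (hPQ : P * Q = 1)
    {f g : ℕ → ℕ → ℚ} (hP : ∀ i j, P i j = f ((i : ℕ) + 1) ((j : ℕ) + 1))
    (hQ : ∀ i j, Q i j = g ((i : ℕ) + 1) ((j : ℕ) + 1)) (i j : ℕ) (hi : i ∈ Icc 1 M)
    (hj : j ∈ Icc 1 M) : ∑ k ∈ Icc 1 M, f i k * g k j = if i = j then 1 else 0 := by
  obtain ⟨i', rfl⟩ := vsm_idx hi
  obtain ⟨j', rfl⟩ := vsm_idx hj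
  have h1 := congrFun (congrFun hPQ i') j'
  rw [Matrix.mul_apply, Matrix.one_apply] at h1
  rw [← vsm_shift (fun k => f ((i' : ℕ) + 1) k * g k ((j' : ℕ) + 1)) M]
  simp only [hP, hQ] at h1
  rw [h1]
  by_cases h : i' = j'
  · rw [if_pos h, if_pos (by rw [h])]
  · rw [if_neg h, if_neg (fun h' => h (Fin.ext (by omega)))]

theorem sum_LDU (e : Bool) (a M : ℕ) (h : 3 * M < a) (i j : ℕ) (hi : i ∈ Icc 1 M)
    (hj : j ∈ Icc 1 M) :
    B e (a : ℚ) i j =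
      ∑ k ∈ Icc 1 M, lowM (Lf e (a : ℚ)) i k * Dd e (a : ℚ) k * uppM (Uf e (a : ℚ)) k j := by
  obtain ⟨i', rfl⟩ := vsm_idx hi
  obtain ⟨j', rfl⟩ := vsm_idx hj
  have h1 := congrFun (congrFun (LDU e a M h) i') j'
  rw [Matrix.mul_apply] at h1
  rw [← vsm_shift (fun k => lowM (Lf e (a : ℚ)) ((i' : ℕ) + 1) k * Dd e (a : ℚ) k *
    uppM (Uf e (a : ℚ)) k ((j' : ℕ) + 1)) M]
  refine h1.trans (sum_congr rfl fun k _ => ?_)
  rw [Dm, Matrix.mul_diagonal]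
  rfl

theorem sum_LtL (e : Bool) (a M : ℕ) (h : 3 * M < a) (i j : ℕ) (hi : i ∈ Icc 1 M)
    (hj : j ∈ Icc 1 M) :
    ∑ k ∈ Icc 1 M, lowM (Ltf e (a : ℚ)) i k * lowM (Lf e (a : ℚ)) k j = if i = j then 1 else 0 :=
  vsm_one (LtL_mat e a M h) (fun _ _ => rfl) (fun _ _ => rfl) i j hi hj

theorem sum_LLt (e : Bool) (a M : ℕ) (h : 3 * M < a) (i j : ℕ) (hi : i ∈ Icc 1 M)
    (hj : j ∈ Icc 1 M) :
    ∑ k ∈ Icc 1 M, lowM (Lf e (a : ℚ)) i k * lowM (Ltf e (a : ℚ)) k j = if i = j then 1 else 0 :=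
  vsm_one (mul_eq_one_comm.mp (LtL_mat e a M h)) (fun _ _ => rfl) (fun _ _ => rfl) i j hi hj

theorem sum_UtU (e : Bool) (a M : ℕ) (h : 3 * M < a) (i j : ℕ) (hi : i ∈ Icc 1 M)
    (hj : j ∈ Icc 1 M) :
    ∑ k ∈ Icc 1 M, uppM (Utf e (a : ℚ)) i k * uppM (Uf e (a : ℚ)) k j = if i = j then 1 else 0 :=
  vsm_one (UtU_mat e a M h) (fun _ _ => rfl) (fun _ _ => rfl) i j hi hj

theorem sum_UUt (e : Bool) (a M : ℕ) (h : 3 * M < a) (i j : ℕ) (hi : i ∈ Icc 1 M)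
    (hj : j ∈ Icc 1 M) :
    ∑ k ∈ Icc 1 M, uppM (Uf e (a : ℚ)) i k * uppM (Utf e (a : ℚ)) k j = if i = j then 1 else 0 :=
  vsm_one (mul_eq_one_comm.mp (UtU_mat e a M h)) (fun _ _ => rfl) (fun _ _ => rfl) i j hi hj

end Pool.Agent.GV
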